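import Pool.Agent.H12.TG.Def

/-! # [H12 TG C3G] Number of integer points at one scale near one asymptote (module by helper5)

PROOF. First `P.1 > 0` (`Nq`, `evR_cast`). `σ = y - t x - β`, `|σ| ≤ K^κ₁ H/X^(r-1) ≤ K^κ₁ H/X²`
(`NarS`, `r ≥ 3`, `X ≥ 1`), `X ≥ K^κ H²`, `κ > κ₁ + 4`. For given `x` at most one `y` (`2 |σ| < 1`). Three points: the integer
`(x₁-x₀)(y₂-y₀) - (x₂-x₀)(y₁-y₀) = (x₁-x₀)(σ₂-σ₀) - (x₂-x₀)(σ₁-σ₀)` is at most `4 X K^κ₁ H/X² < 1` in absolute value, so `0`: collinear. So with `a < b` the smallest and largest abscissa,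
every other has `|Ac| (x-a)(b-x) ≤ K^κ₂ H` (`CugS`): `block_card` with `D = (K^κ₂ H/|Ac|)^(1/2) ≤ K^κ₂ (H/|Ac|)^(1/2)`: at most `2 (D+1)`.
`P.1 < 0`: the array `e'(a,b) = (-1)^(a+b) e(a,b)` and the points `-P`: `be n e' t = - be n e t`, `hs e' t k m = (-1)^k hs e t k m`, `Ac n e' t i = (-1)^(n-i) Ac n e t i` (`i ≤ n`), so `Vr`, `Ct` hold for
`e'`. Total `≤ 2 * 2 (D+1)`. -/

namespace Pool.Agent.H12.TG

open Finset Polynomial Pool.Agent.H8.AA Pool.Agent.H88.A2 Pool.Agent.H88.TU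

/-- one block of abscissas -/
private lemma block_card (A : Finset ℤ) (D : ℝ) (hD : 0 ≤ D)
    (h : ∀ a ∈ A, ∀ x ∈ A, ∀ b ∈ A, a < x → x < b → ((x : ℝ) - a) * ((b : ℝ) - x) ≤ D ^ 2) :
    (A.card : ℝ) ≤ 2 * (D + 1) := by
  rcases A.eq_empty_or_nonempty with rfl | hne
  · simp only [card_empty, Nat.cast_zero]
    positivity
  set a := A.min' hne with ha
  set b := A.max' hne with hb
  have haA : a ∈ A := A.min'_mem hne
  have hbA : b ∈ A := A.max'_mem hne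
  have hsub : A ⊆ Icc a (a + ⌊D⌋) ∪ Icc (b - ⌊D⌋) b := by
    intro x hx
    have h1 : a ≤ x := A.min'_le x hx
    have h2 : x ≤ b := A.le_max' x hx
    have hf : 0 ≤ ⌊D⌋ := Int.floor_nonneg.2 hD
    rw [mem_union, mem_Icc, mem_Icc]
    rcases eq_or_lt_of_le h1 with h3 | h3
    · left
      exact ⟨h1, by omega⟩
    rcases eq_or_lt_of_le h2 with h4 | h4
    · right
      exact ⟨by omega, h2⟩
    have h5 := h a haA x hx b hbA h3 h4
    by_cases h6 : (x : ℝ) - a ≤ D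
    · left
      refine ⟨h1, ?_⟩
      have : x - a ≤ ⌊D⌋ := by
        rw [Int.le_floor]
        push_cast
        exact h6
      omega
    · right
      refine ⟨?_, h2⟩
      have h7 : (b : ℝ) - x ≤ D := by
        by_contra h8
        rw [not_le] at h6 h8
        nlinarith
      have : b - x ≤ ⌊D⌋ := by
        rw [Int.le_floor]
        push_cast
        exact h7
      omega
  have hc := (card_le_card hsub).trans (card_union_le _ _)
  rw [Int.card_Icc, Int.card_Icc] at hc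
  have hf : 0 ≤ ⌊D⌋ := Int.floor_nonneg.2 hD
  have hfl : (⌊D⌋ : ℝ) ≤ D := Int.floor_le D
  have hc' : (A.card : ℤ) ≤ 2 * (⌊D⌋ + 1) := by omega
  have hc'' : (A.card : ℝ) ≤ 2 * ((⌊D⌋ : ℝ) + 1) := by exact_mod_cast hc'
  linarith

/-- the case `P.1 > 0` -/
private lemma c3_pos (n κ₁ κ₂ : ℕ) (h₁ : NarS n κ₁) (h₂ : CugS n κ₂) :
    ∀ K S H : ℝ, 2 ≤ K → 1 ≤ S → 1 ≤ H → ∀ (e : ℕ → ℕ → ℤ) (t : ℝ) (r : ℕ), Ct n K S e t → Vr n r S H e t →
    ∀ X : ℝ, K ^ (κ₁ + κ₂ + 5) * H ^ 2 ≤ |Ac n e t r| * X → K ^ (κ₁ + κ₂ + 5) * H ^ 2 ≤ X →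
    ∀ T : Finset (ℤ × ℤ), (∀ P ∈ T, Nq n K H X e t P.1 P.2) →
      (T.card : ℝ) ≤ K ^ (κ₁ + κ₂ + 5) * (1 + Real.sqrt (H / |Ac n e t r|)) := by
  classical
  intro K S H hK hS hH e t r hc hv X hX1 hX2 T hT
  have hK1 : (1 : ℝ) ≤ K := by linarith
  have hK0 : (0 : ℝ) < K := by linarith
  have hH0 : (0 : ℝ) < H := by linarith
  have hHH : H ≤ H ^ 2 := by nlinarith
  have hp : ∀ m, (0 : ℝ) < K ^ m := fun m => pow_pos hK0 m
  have hX0 : 0 < X := lt_of_lt_of_le (by have := hp (κ₁ + κ₂ + 5); positivity) hX2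
  have hX11 : 1 ≤ X := by
    have h3 : (1 : ℝ) ≤ K ^ (κ₁ + κ₂ + 5) := one_le_pow₀ hK1
    have h4 : (1 : ℝ) ≤ H ^ 2 := one_le_pow₀ hH
    have : 1 * 1 ≤ K ^ (κ₁ + κ₂ + 5) * H ^ 2 := mul_le_mul h3 h4 (by norm_num) (by positivity)
    linarith
  set g := |Ac n e t r| with hg
  have hg0 : 0 < g := by
    by_contra hcon
    have h1 : g = 0 := le_antisymm (not_lt.1 hcon) (abs_nonneg _)
    rw [h1, zero_mul] at hX1
    have := hp (κ₁ + κ₂ + 5)
    have h3 : 0 < K ^ (κ₁ + κ₂ + 5) * H ^ 2 := by positivity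
    linarith
  have m1 : K ^ κ₁ ≤ K ^ (κ₁ + κ₂ + 5) := pow_le_pow_right₀ hK1 (by omega)
  have m2 : K ^ κ₂ ≤ K ^ (κ₁ + κ₂ + 5) := pow_le_pow_right₀ hK1 (by omega)
  have m3 : K ^ (κ₁ + 5) ≤ K ^ (κ₁ + κ₂ + 5) := pow_le_pow_right₀ hK1 (by omega)
  have a1 : K ^ κ₁ * H ≤ X :=
    (mul_le_mul m1 hHH hH0.le (hp _).le).trans hX2
  have a2 : K ^ κ₂ * H ^ 2 ≤ g * X := (mul_le_mul_of_nonneg_right m2 (by positivity)).trans hX1
  have a3 : K ^ κ₂ * H ^ 2 ≤ X := (mul_le_mul_of_nonneg_right m2 (by positivity)).trans hX2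
  have a4 : K ^ (κ₁ + 5) * H ≤ X := (mul_le_mul m3 hHH hH0.le (hp _).le).trans hX2
  have b5 : (32 : ℝ) ≤ K ^ 5 := by
    have : (2 : ℝ) ^ 5 ≤ K ^ 5 := pow_le_pow_left₀ (by norm_num) hK 5
    linarith
  -- the points are very close to the asymptote
  set δ := K ^ κ₁ * H / X ^ 2 with hδ
  have hδ0 : 0 < δ := by
    have := hp κ₁
    positivity
  have hXδ : X * δ ≤ 1 / 32 := by
    have e1 : X * δ = K ^ κ₁ * H / X := by
      rw [hδ]
      field_simp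
    rw [e1, div_le_iff₀ hX0]
    have e2 : K ^ (κ₁ + 5) * H = K ^ 5 * (K ^ κ₁ * H) := by rw [pow_add]; ring
    have e3 : 0 < K ^ κ₁ * H := by have := hp κ₁; positivity
    nlinarith
  have hδ1 : δ ≤ 1 / 32 := by nlinarith
  have hσ : ∀ x y : ℝ, Nq n K H X e t x y → |y - t * x - be n e t| ≤ δ := by
    intro x y hN
    have h3 := h₁ K S H hK hS hH e t r hc hv X a1 x y hN
    refine h3.trans ?_
    rw [hδ]
    have h4 : X ^ 2 ≤ X ^ (r - 1) := pow_le_pow_right₀ hX11 (by have := hv.r3; omega)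
    have := hp κ₁
    exact div_le_div_of_nonneg_left (by positivity) (by positivity) h4
  have hinj : Set.InjOn (fun P : ℤ × ℤ => P.1) (T : Set (ℤ × ℤ)) := by
    rintro P hP Q hQ hPQ
    have hPQ' : P.1 = Q.1 := hPQ
    have h3 := hσ _ _ (hT P hP)
    have h4 := hσ _ _ (hT Q hQ)
    rw [hPQ'] at h3
    rw [abs_le] at h3 h4
    have h5 : |(P.2 : ℝ) - Q.2| < 1 := by
      rw [abs_lt]
      constructor <;> linarith
    have h6 : |P.2 - Q.2| < 1 := by exact_mod_cast h5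
    have h7 : P.2 - Q.2 = 0 := Int.abs_lt_one_iff.1 h6
    exact Prod.ext hPQ' (by omega)
  have hcard : T.card = (T.image fun P : ℤ × ℤ => P.1).card := (card_image_of_injOn hinj).symm
  set A := T.image fun P : ℤ × ℤ => P.1 with hA
  have hAm : ∀ x ∈ A, ∃ y : ℤ, Nq n K H X e t x y := by
    intro x hx
    rw [hA, mem_image] at hx
    obtain ⟨P, hP, rfl⟩ := hx
    exact ⟨P.2, hT P hP⟩
  -- three points are collinear
  have hcol : ∀ x₀ x₁ x₂ y₀ y₁ y₂ : ℤ, Nq n K H X e t x₀ y₀ → Nq n K H X e t x₁ y₁ → Nq n K H X e t x₂ y₂ →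
      (x₁ - x₀) * (y₂ - y₀) = (x₂ - x₀) * (y₁ - y₀) := by
    intro x₀ x₁ x₂ y₀ y₁ y₂ c0 c1 c2
    have s0 := hσ _ _ c0
    have s1 := hσ _ _ c1
    have s2 := hσ _ _ c2
    obtain ⟨p0, q0, -, -⟩ := c0
    obtain ⟨p1, q1, -, -⟩ := c1
    obtain ⟨p2, q2, -, -⟩ := c2
    set σ₀ := (y₀ : ℝ) - t * x₀ - be n e t with hs0
    set σ₁ := (y₁ : ℝ) - t * x₁ - be n e t with hs1
    set σ₂ := (y₂ : ℝ) - t * x₂ - be n e t with hs2
    have k1 : |(x₁ : ℝ) - x₀| ≤ X := by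
      rw [abs_le]
      constructor <;> linarith
    have k2 : |(x₂ : ℝ) - x₀| ≤ X := by
      rw [abs_le]
      constructor <;> linarith
    have k3 : |σ₂ - σ₀| ≤ 2 * δ := by
      rw [abs_le] at *
      constructor <;> linarith [s0.1, s0.2, s2.1, s2.2]
    have k4 : |σ₁ - σ₀| ≤ 2 * δ := by
      rw [abs_le] at *
      constructor <;> linarith [s0.1, s0.2, s1.1, s1.2]
    have e1 : ((x₁ : ℝ) - x₀) * ((y₂ : ℝ) - y₀) - ((x₂ : ℝ) - x₀) * ((y₁ : ℝ) - y₀) =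
        ((x₁ : ℝ) - x₀) * (σ₂ - σ₀) - ((x₂ : ℝ) - x₀) * (σ₁ - σ₀) := by
      rw [hs0, hs1, hs2]
      ring
    have k5 : |((x₁ : ℝ) - x₀) * (σ₂ - σ₀)| ≤ X * (2 * δ) := by
      rw [abs_mul]
      exact mul_le_mul k1 k3 (abs_nonneg _) hX0.le
    have k6 : |((x₂ : ℝ) - x₀) * (σ₁ - σ₀)| ≤ X * (2 * δ) := by
      rw [abs_mul]
      exact mul_le_mul k2 k4 (abs_nonneg _) hX0.le
    have k7 : |((x₁ : ℝ) - x₀) * ((y₂ : ℝ) - y₀) - ((x₂ : ℝ) - x₀) * ((y₁ : ℝ) - y₀)| < 1 := by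
      rw [e1]
      refine lt_of_le_of_lt (abs_sub _ _) ?_
      linarith
    have k8 : |(x₁ - x₀) * (y₂ - y₀) - (x₂ - x₀) * (y₁ - y₀)| < 1 := by exact_mod_cast k7
    have k9 := Int.abs_lt_one_iff.1 k8
    linarith
  set D := Real.sqrt (K ^ κ₂ * H / g) with hD
  have hD0 : 0 ≤ D := Real.sqrt_nonneg _
  have hD2 : D ^ 2 = K ^ κ₂ * H / g := Real.sq_sqrt (by have := hp κ₂; positivity)
  have hmain := block_card A D hD0 fun a ha x hx b hb hax hxb => by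
    obtain ⟨ya, ca⟩ := hAm a ha
    obtain ⟨yx, cx⟩ := hAm x hx
    obtain ⟨yb, cb⟩ := hAm b hb
    have col := hcol a x b ya yx yb ca cx cb
    have col' : ((x : ℝ) - a) * ((yb : ℝ) - ya) = ((b : ℝ) - a) * ((yx : ℝ) - ya) := by
      exact_mod_cast col
    have s1 : (1 : ℝ) ≤ (x : ℝ) - a := by
      have : (1 : ℤ) ≤ x - a := by omega
      exact_mod_cast this
    have s2 : (1 : ℝ) ≤ (b : ℝ) - x := by
      have : (1 : ℤ) ≤ b - x := by omega
      exact_mod_cast this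
    have := h₂ K S H hK hS hH e t r hc hv X a2 a3 a x b ya yx yb ca cx cb s1 s2 col'
    rw [hD2, le_div_iff₀ hg0]
    linarith
  rw [hcard]
  have hDle : D ≤ K ^ κ₂ * Real.sqrt (H / g) := by
    have e1 : K ^ κ₂ * H / g = K ^ κ₂ * (H / g) := by ring
    rw [hD, e1, Real.sqrt_mul (hp κ₂).le]
    refine mul_le_mul_of_nonneg_right ?_ (Real.sqrt_nonneg _)
    have h3 : (1 : ℝ) ≤ K ^ κ₂ := one_le_pow₀ hK1
    rw [Real.sqrt_le_left (hp κ₂).le]
    nlinarith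
  have hS0 : 0 ≤ Real.sqrt (H / g) := Real.sqrt_nonneg _
  have hk1 : (1 : ℝ) ≤ K ^ κ₂ := one_le_pow₀ hK1
  have b1 : D + 1 ≤ K ^ κ₂ * (1 + Real.sqrt (H / g)) := by nlinarith
  have m4 : 2 * K ^ κ₂ ≤ K ^ (κ₁ + κ₂ + 5) := by
    have h3 : K ^ κ₂ * K ^ 5 ≤ K ^ (κ₁ + κ₂ + 5) := by
      rw [← pow_add]
      exact pow_le_pow_right₀ hK1 (by omega)
    have h4 := hp κ₂
    nlinarith
  calc (A.card : ℝ) ≤ 2 * (D + 1) := hmain
    _ ≤ 2 * (K ^ κ₂ * (1 + Real.sqrt (H / g))) := by linarith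
    _ = 2 * K ^ κ₂ * (1 + Real.sqrt (H / g)) := by ring
    _ ≤ K ^ (κ₁ + κ₂ + 5) * (1 + Real.sqrt (H / g)) :=
        mul_le_mul_of_nonneg_right m4 (by positivity)

/-- the reflected array -/
private def rf (e : ℕ → ℕ → ℤ) : ℕ → ℕ → ℤ := fun a b => (-1) ^ (a + b) * e a b

private lemma rf_fm (e : ℕ → ℕ → ℤ) (k : ℕ) : fm (rf e) k = C ((-1) ^ k) * fm e k := by
  unfold fm rf
  rw [mul_sum]
  refine sum_congr rfl fun j hj => ?_
  rw [mem_range] at hj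
  have : k - j + j = k := by omega
  rw [this, C_mul_monomial]

private lemma rf_ev (n : ℕ) (e : ℕ → ℕ → ℤ) (x y : ℤ) : ev n (rf e) (-x) (-y) = ev n e x y := by
  unfold ev rf
  refine sum_congr rfl fun k hk => sum_congr rfl fun j hj => ?_
  rw [neg_pow x, neg_pow y]
  have h : ((-1 : ℤ) ^ (k - j + j)) * ((-1) ^ (k - j) * (-1) ^ j) = 1 := by
    rw [← pow_add, ← mul_pow]
    norm_num
  calc (-1) ^ (k - j + j) * e (k - j) j * ((-1) ^ (k - j) * x ^ (k - j) * ((-1) ^ j * y ^ j))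
      = ((-1 : ℤ) ^ (k - j + j)) * ((-1) ^ (k - j) * (-1) ^ j) * (e (k - j) j * (x ^ (k - j) * y ^ j)) := by ring
    _ = e (k - j) j * (x ^ (k - j) * y ^ j) := by rw [h, one_mul]

private lemma rf_hs (e : ℕ → ℕ → ℤ) (t : ℝ) (k m : ℕ) : hs (rf e) t k m = (-1) ^ k * hs e t k m := by
  unfold hs rf
  rw [mul_sum]
  refine sum_congr rfl fun l hl => ?_
  rw [mem_range] at hl
  have : k - l + l = k := by omega
  rw [this]
  push_cast
  ring

private lemma rf_Ac (n : ℕ) (e : ℕ → ℕ → ℤ) (t : ℝ) (hbe : be n (rf e) t = - be n e t) (i : ℕ) (hi : i ≤ n) :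
    Ac n (rf e) t i = (-1) ^ (n - i) * Ac n e t i := by
  unfold Ac pp
  rw [mul_sum]
  refine sum_congr rfl fun a ha => ?_
  rw [rf_hs, hbe]
  have e1 : n + a - i = (n - i) + a := by omega
  rw [e1, Nat.sub_zero, neg_pow (be n e t), pow_add (-1 : ℝ) (n - i) a]
  have h3 : (-1 : ℝ) ^ a * (-1) ^ a = 1 := by
    rw [← mul_pow]
    norm_num
  calc ((a.choose 0 : ℕ) : ℝ) * ((-1) ^ (n - i) * (-1) ^ a * hs e t (n - i + a) a) * ((-1) ^ a * be n e t ^ a)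
      = ((-1 : ℝ) ^ a * (-1) ^ a) * ((-1) ^ (n - i) * (((a.choose 0 : ℕ) : ℝ) * hs e t (n - i + a) a * be n e t ^ a)) := by
        ring
    _ = (-1) ^ (n - i) * (((a.choose 0 : ℕ) : ℝ) * hs e t (n - i + a) a * be n e t ^ a) := by rw [h3, one_mul]

theorem c3g_ex (n κ₁ κ₂ : ℕ) (h₁ : NarS n κ₁) (h₂ : CugS n κ₂) : C3gS n (κ₁ + κ₂ + 6) := by
  classical
  have h := c3_pos n κ₁ κ₂ h₁ h₂
  have hκ : κ₁ + κ₂ + 6 = (κ₁ + κ₂ + 5) + 1 := by omega
  rw [hκ]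
  generalize κ₁ + κ₂ + 5 = κ at h
  intro K S H hK hS hH e t r hc hv X hX1 hX2 T hT
  have hK1 : (1 : ℝ) ≤ K := by linarith
  have hK0 : (0 : ℝ) < K := by linarith
  have hH0 : (0 : ℝ) < H := by linarith
  have hp : ∀ m, (0 : ℝ) < K ^ m := fun m => pow_pos hK0 m
  have m1 : K ^ κ ≤ K ^ (κ + 1) := pow_le_pow_right₀ hK1 (by omega)
  have a1 : K ^ κ * H ^ 2 ≤ |Ac n e t r| * X :=
    (mul_le_mul_of_nonneg_right m1 (by positivity)).trans hX1
  have a2 : K ^ κ * H ^ 2 ≤ X := (mul_le_mul_of_nonneg_right m1 (by positivity)).trans hX2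
  have hX0 : 0 < X := lt_of_lt_of_le (by have := hp κ; positivity) a2
  -- the two halves
  let T1 := T.filter fun P => 0 < P.1
  let T2 := (T.filter fun P => ¬ 0 < P.1).image fun P : ℤ × ℤ => (-P.1, -P.2)
  have hT2c : (T.filter fun P => ¬ 0 < P.1).card = T2.card := by
    refine (card_image_of_injective _ ?_).symm
    rintro ⟨x, y⟩ ⟨x', y'⟩ hxy
    simp only [Prod.mk.injEq, neg_inj] at hxy
    exact Prod.ext hxy.1 hxy.2
  have hcard : T.card = T1.card + T2.card := by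
    rw [← hT2c]
    exact (card_filter_add_card_filter_not _).symm
  -- first half
  have c1 := h K S H hK hS hH e t r hc hv X a1 a2 T1 (by
    intro P hP
    rw [mem_filter] at hP
    obtain ⟨g1, g2, g3, g4⟩ := hT P hP.1
    have hpos : (0 : ℝ) < P.1 := by exact_mod_cast hP.2
    rw [abs_of_pos hpos] at g1 g2
    refine ⟨g1, g2, g3, ?_⟩
    rw [evR_cast]
    exact g4)
  -- second half
  have ab1 : ∀ m : ℕ, |(-1 : ℝ) ^ m| = 1 := fun m => by rw [abs_pow]; norm_num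
  have f0 : ∀ m, aeval t (fm (rf e) m) = (-1) ^ m * aeval t (fm e m) := by
    intro m
    rw [rf_fm, map_mul, aeval_C]
    simp
  have f1 : ∀ m, aeval t (derivative (fm (rf e) m)) = (-1) ^ m * aeval t (derivative (fm e m)) := by
    intro m
    rw [rf_fm, derivative_C_mul, map_mul, aeval_C]
    simp
  have hn6 : 6 ≤ n := by
    have h3 := hv.r3
    have h4 := hv.rn
    omega
  obtain ⟨N, hN⟩ : ∃ N, n = N + 2 := ⟨n - 2, by omega⟩
  have hbe : be n (rf e) t = - be n e t := by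
    unfold be
    rw [f0, f1]
    subst hN
    have e1 : N + 2 - 1 = N + 1 := by omega
    rw [e1, pow_succ (-1 : ℝ) (N + 1)]
    have h3 : (-1 : ℝ) ^ (N + 1) ≠ 0 := pow_ne_zero _ (by norm_num)
    have h4 : (-1 : ℝ) ^ (N + 1) * aeval t (fm e (N + 1)) /
        ((-1) ^ (N + 1) * (-1) * aeval t (derivative (fm e (N + 2)))) =
        - (aeval t (fm e (N + 1)) / aeval t (derivative (fm e (N + 2)))) := by
      rw [mul_assoc, mul_div_mul_left _ _ h3, neg_one_mul, div_neg]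
    rw [h4]
  have hrn : r ≤ n := by
    have h4 := hv.rn
    omega
  have hAc' : |Ac n (rf e) t r| = |Ac n e t r| := by
    rw [rf_Ac n e t hbe r hrn, abs_mul, ab1, one_mul]
  have hv' : Vr n r S H (rf e) t := by
    refine ⟨hv.r3, hv.rn, hv.pw, fun i hi2 hir => ?_⟩
    rw [rf_Ac n e t hbe i (by omega), hv.z i hi2 hir, mul_zero]
  have hc' : Ct n K S (rf e) t := by
    refine ⟨?_, hc.t2, ?_, ?_⟩
    · intro a b hab
      have := hc.bs a b hab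
      unfold rf
      push_cast
      rw [abs_mul, ab1, one_mul]
      exact this
    · rw [f0, hc.rt, mul_zero]
    · rw [f1, abs_mul, ab1, one_mul]
      exact hc.dr
  have c2 := h K S H hK hS hH (rf e) t r hc' hv' X (by rw [hAc']; exact a1) a2 T2 (by
    intro P hP
    rw [mem_image] at hP
    obtain ⟨Q, hQ, rfl⟩ := hP
    rw [mem_filter] at hQ
    obtain ⟨g1, g2, g3, g4⟩ := hT Q hQ.1
    have hneg : (Q.1 : ℝ) ≤ 0 := by
      have : Q.1 ≤ 0 := by omega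
      exact_mod_cast this
    rw [abs_of_nonpos hneg] at g1 g2
    refine ⟨?_, ?_, ?_, ?_⟩
    · push_cast
      exact g1
    · push_cast
      exact g2
    · rw [hbe]
      push_cast
      have : -(Q.2 : ℝ) - t * -(Q.1 : ℝ) - -be n e t = -((Q.2 : ℝ) - t * Q.1 - be n e t) := by ring
      rw [this, abs_neg]
      exact g3
    · rw [evR_cast, rf_ev]
      exact g4)
  rw [hAc'] at c2
  have hS0 : 0 ≤ Real.sqrt (H / |Ac n e t r|) := Real.sqrt_nonneg _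
  have hcR : (T.card : ℝ) = (T1.card : ℝ) + (T2.card : ℝ) := by exact_mod_cast hcard
  rw [hcR, pow_succ]
  have hpk := hp κ
  have h9 : 0 ≤ K ^ κ * (1 + Real.sqrt (H / |Ac n e t r|)) := by positivity
  calc (T1.card : ℝ) + (T2.card : ℝ) ≤ 2 * (K ^ κ * (1 + Real.sqrt (H / |Ac n e t r|))) := by
        linarith
    _ ≤ K * (K ^ κ * (1 + Real.sqrt (H / |Ac n e t r|))) := mul_le_mul_of_nonneg_right hK h9
    _ = K ^ κ * K * (1 + Real.sqrt (H / |Ac n e t r|)) := by ring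

end Pool.Agent.H12.TG
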