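import Pool.Agent.H12.TG.Nar

/-! # [H12 TG CHG] The middle range in one chart if `Ac 2 = 0` (helper12; the fibres as in helper73's `TU.Rgb`)

`T = T₁ ∪ T₂ ∪ T₃`: `|x| ≤ H^(al n)`: `rga`; `|Ac n (ad e c) t (n-j)| < B^(-κ) H^(-1/2)`: `GmgS`; the rest: fibres over the terms of degree `≥ 2`, `FigS` with `g = B^(-k) H^(-1/2)`. -/

namespace Pool.Agent.H12.TG

open Finset Polynomial Pool.Agent.H8.AA Pool.Agent.H88.A2 Pool.Agent.H88.TU

/-- the indices of degree `≤ k` -/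
private def ik {k j : ℕ} (hk : k ≤ j) (p : Ix k) : Ix j := ix p.1.1.val p.1.2.val (p.2.trans hk)

private theorem ik_inj {k j : ℕ} (hk : k ≤ j) : Function.Injective (ik hk) := by
  intro p q h
  have h1 : (ik hk p).1.1.val = (ik hk q).1.1.val := by rw [h]
  have h2 : (ik hk p).1.2.val = (ik hk q).1.2.val := by rw [h]
  exact Subtype.ext (Prod.ext (Fin.ext h1) (Fin.ext h2))

private theorem ik_mem {k j : ℕ} (hk : k ≤ j) (p : Ix j) :
    p ∈ univ.image (ik hk) ↔ p.1.1.val + p.1.2.val ≤ k := by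
  constructor
  · intro h
    obtain ⟨q, _, rfl⟩ := mem_image.1 h
    exact q.2
  · intro h
    exact mem_image.2 ⟨ix p.1.1.val p.1.2.val h, mem_univ _, Subtype.ext (Prod.ext (Fin.ext rfl) (Fin.ext rfl))⟩

/-- `c` with the terms of degree `≤ k` removed -/
private def upk (k : ℕ) {j : ℕ} (c : Ix j → ℤ) : Ix j → ℤ := fun p => if p.1.1.val + p.1.2.val ≤ k then 0 else c p

/-- the terms of degree `≤ k` -/
private def lok {k j : ℕ} (hk : k ≤ j) (c : Ix j → ℤ) : Ix k → ℤ := fun p => c (ik hk p)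

private theorem co_upk (k : ℕ) {j : ℕ} (c : Ix j → ℤ) (a b : ℕ) : co (upk k c) a b = if a + b ≤ k then 0 else co c a b := by
  unfold co
  by_cases h : a + b ≤ j
  · rw [dif_pos h, dif_pos h]
    rfl
  · rw [dif_neg h, dif_neg h]
    split_ifs <;> rfl

private theorem co_lok {k j : ℕ} (hk : k ≤ j) (c : Ix j → ℤ) (a b : ℕ) :
    co (lok hk c) a b = if a + b ≤ k then co c a b else 0 := by
  unfold co
  by_cases h : a + b ≤ k
  · rw [dif_pos h, if_pos h, dif_pos (h.trans hk)]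
    rfl
  · rw [dif_neg h, if_neg h]

private theorem co_splitk {k j : ℕ} (hk : k ≤ j) (c c' : Ix j → ℤ) (h : ∀ p, p ∉ univ.image (ik hk) → c' p = c p) (a b : ℕ) :
    co c' a b = co (upk k c) a b + co (lok hk c') a b := by
  rw [co_upk, co_lok]
  by_cases h3 : a + b ≤ k
  · rw [if_pos h3, if_pos h3, zero_add]
  · rw [if_neg h3, if_neg h3, add_zero]
    unfold co
    by_cases hab : a + b ≤ j
    · rw [dif_pos hab, dif_pos hab]
      apply h
      rw [ik_mem]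
      exact h3
    · rw [dif_neg hab, dif_neg hab]

private theorem ev_addk (n : ℕ) (f g : ℕ → ℕ → ℤ) (x y : ℤ) :
    ev n (fun a b => f a b + g a b) x y = ev n f x y + ev n g x y := by
  unfold ev
  rw [← Finset.sum_add_distrib]
  refine Finset.sum_congr rfl fun m _ => ?_
  rw [← Finset.sum_add_distrib]
  refine Finset.sum_congr rfl fun i _ => ?_
  ring

private theorem ev_cutk {m n : ℕ} (h : m ≤ n) (f : ℕ → ℕ → ℤ) (hf : ∀ a b, m < a + b → f a b = 0) (x y : ℤ) :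
    ev n f x y = ev m f x y := by
  unfold ev
  symm
  refine Finset.sum_subset (Finset.range_subset_range.2 (by omega)) fun k _ hk => ?_
  have h1 : m < k := by
    have := mt Finset.mem_range.2 hk
    omega
  refine Finset.sum_eq_zero fun i hi => ?_
  have := Finset.mem_range.1 hi
  rw [hf _ _ (by omega), zero_mul]

private theorem co_outk {j : ℕ} (c : Ix j → ℤ) {a b : ℕ} (h : j < a + b) : co c a b = 0 := by
  unfold co
  rw [dif_neg (by omega)]

private theorem co_absk {j H : ℕ} (c : Ix j → ℤ) (hc : ∀ p, |c p| ≤ (H : ℤ)) (a b : ℕ) : |co c a b| ≤ (H : ℤ) := by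
  unfold co
  split_ifs with h
  · exact hc _
  · simp

private theorem ev_totk {n k j : ℕ} (hk : k ≤ j) (hjn : j < n) (e : ℕ → ℕ → ℤ) (c c' : Ix j → ℤ)
    (h : ∀ p, p ∉ univ.image (ik hk) → c' p = c p) (x y : ℤ) :
    ev n (ad e (upk k c)) x y + ev k (co (lok hk c')) x y = ev n e x y + ev j (co c') x y := by
  have h1 : ev n (ad e (upk k c)) x y = ev n e x y + ev j (co (upk k c)) x y := by
    rw [← ev_cutk hjn.le (co (upk k c)) (fun a b hab => co_outk _ hab)]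
    exact ev_addk n e (co (upk k c)) x y
  have h2 : ev j (co c') x y = ev j (co (upk k c)) x y + ev k (co (lok hk c')) x y := by
    rw [← ev_cutk hk (co (lok hk c')) (fun a b hab => co_outk _ hab), ← ev_addk]
    congr 1
    funext a b
    exact co_splitk hk c c' h a b
  rw [h1, h2]
  ring

private theorem fm_upk {n j : ℕ} (hjn : j < n) (e : ℕ → ℕ → ℤ) (c : Ix j → ℤ) : fm (ad e c) n = fm e n := by
  unfold fm
  refine Finset.sum_congr rfl fun i hi => ?_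
  have := Finset.mem_range.1 hi
  have e1 : ad e c (n - i) i = e (n - i) i := by
    unfold ad
    rw [co_outk c (by omega), add_zero]
  rw [e1]

private theorem fm_up2 {k m j : ℕ} (hkm : k < m) (e : ℕ → ℕ → ℤ) (c : Ix j → ℤ) : fm (ad e (upk k c)) m = fm (ad e c) m := by
  unfold fm
  refine Finset.sum_congr rfl fun i hi => ?_
  have := Finset.mem_range.1 hi
  have e1 : ad e (upk k c) (m - i) i = ad e c (m - i) i := by
    unfold ad
    rw [co_upk, if_neg (by omega)]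
  rw [e1]

/-- the logarithm -/
private theorem logb (n E B : ℕ) (hn : 1 ≤ n) (hB : 2 ≤ B) (H : ℝ) (hH : 1 ≤ H) :
    1 + Real.log (((B : ℝ) * H) ^ E) ≤ (B : ℝ) ^ (2 * E + n + 5) * H ^ (1 / (4 * (n : ℝ))) := by
  have hB2 : (2 : ℝ) ≤ B := by exact_mod_cast hB
  have hB0 : (0 : ℝ) < B := by linarith
  have hH0 : 0 < H := by linarith
  have hn1 : (1 : ℝ) ≤ n := by exact_mod_cast hn
  obtain ⟨h, hh⟩ : ∃ h : ℝ, h = H ^ (1 / (4 * (n : ℝ))) := ⟨_, rfl⟩
  have h1 : 1 ≤ h := by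
    rw [hh]
    exact Real.one_le_rpow hH (by positivity)
  have h2 : Real.log H ≤ 4 * n * (h - 1) := by
    have h3 := Real.log_le_sub_one_of_pos (by linarith : 0 < h)
    rw [hh, Real.log_rpow hH0, ← hh] at h3
    have h4 : Real.log H = 4 * n * (1 / (4 * (n : ℝ)) * Real.log H) := by
      field_simp
    rw [h4]
    exact mul_le_mul_of_nonneg_left h3 (by positivity)
  have h0 : 0 ≤ Real.log H := Real.log_nonneg hH
  have hlB : Real.log B ≤ B := (Real.log_le_sub_one_of_pos hB0).trans (by linarith)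
  have hlB0 : 0 ≤ Real.log B := Real.log_nonneg (by linarith)
  rw [Real.log_pow, Real.log_mul hB0.ne' hH0.ne', ← hh]
  -- `E ≤ B ^ E`, `n ≤ B ^ n`
  have hE : (E : ℝ) ≤ (B : ℝ) ^ E := by
    have h5 : E ≤ B ^ E := (Nat.lt_two_pow_self).le.trans (Nat.pow_le_pow_left hB E)
    exact_mod_cast h5
  have hN : (n : ℝ) ≤ (B : ℝ) ^ n := by
    have h5 : n ≤ B ^ n := (Nat.lt_two_pow_self).le.trans (Nat.pow_le_pow_left hB n)
    exact_mod_cast h5
  have hE1 : (1 : ℝ) ≤ (B : ℝ) ^ E := one_le_pow₀ (by linarith)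
  have hN1 : (1 : ℝ) ≤ (B : ℝ) ^ n := one_le_pow₀ (by linarith)
  have hE0 : (0 : ℝ) ≤ E := Nat.cast_nonneg _
  -- 1 + E (log B + log H) ≤ (1 + E B) (1 + 4 n E (h - 1))
  have h5 : 1 + (E : ℝ) * (Real.log B + Real.log H) ≤ (1 + E * B) * (1 + 4 * n * E * (h - 1)) := by
    have h6 : (E : ℝ) * Real.log B ≤ E * B := mul_le_mul_of_nonneg_left hlB hE0
    have h7 : (E : ℝ) * Real.log H ≤ 4 * n * E * (h - 1) := by
      have := mul_le_mul_of_nonneg_left h2 hE0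
      linarith
    have h8 : 0 ≤ (E : ℝ) * B * (4 * n * E * (h - 1)) := by
      have : 0 ≤ h - 1 := by linarith
      positivity
    nlinarith
  have h6 : 1 + (E : ℝ) * B ≤ (B : ℝ) ^ (E + 2) := by
    rw [pow_add]
    have h7 : (E : ℝ) * B ≤ (B : ℝ) ^ E * B := mul_le_mul_of_nonneg_right hE hB0.le
    have h8 : 1 + (B : ℝ) ^ E * B ≤ (B : ℝ) ^ E * B ^ 2 := by
      have h9 : 0 ≤ ((B : ℝ) ^ E - 1) * (B ^ 2 - B) := mul_nonneg (by linarith) (by nlinarith)
      nlinarith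
    linarith
  have h7 : 1 + 4 * (n : ℝ) * E * (h - 1) ≤ (B : ℝ) ^ (n + E + 3) * h := by
    have h8 : 1 + 4 * (n : ℝ) * E * (h - 1) ≤ (1 + 4 * n * E) * h := by
      have : 0 ≤ 4 * (n : ℝ) * E := by positivity
      nlinarith
    refine h8.trans (mul_le_mul_of_nonneg_right ?_ (by linarith))
    have h9 : (n : ℝ) * E ≤ (B : ℝ) ^ n * B ^ E := mul_le_mul hN hE hE0 (by positivity)
    have h10 : 1 ≤ (B : ℝ) ^ n * B ^ E := by nlinarith
    have h11 : (5 : ℝ) ≤ (B : ℝ) ^ 3 := by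
      have : (2 : ℝ) ^ 3 ≤ (B : ℝ) ^ 3 := pow_le_pow_left₀ (by norm_num) hB2 3
      linarith
    calc 1 + 4 * (n : ℝ) * E ≤ 5 * ((B : ℝ) ^ n * B ^ E) := by linarith
      _ ≤ (B : ℝ) ^ 3 * ((B : ℝ) ^ n * B ^ E) := mul_le_mul_of_nonneg_right h11 (by positivity)
      _ = (B : ℝ) ^ (n + E + 3) := by
        rw [pow_add, pow_add]
        ring
  have h8 : 0 ≤ 1 + 4 * (n : ℝ) * E * (h - 1) := by
    have : 0 ≤ h - 1 := by linarith
    positivity
  calc 1 + (E : ℝ) * (Real.log B + Real.log H) ≤ (1 + E * B) * (1 + 4 * n * E * (h - 1)) := h5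
    _ ≤ (B : ℝ) ^ (E + 2) * ((B : ℝ) ^ (n + E + 3) * h) := mul_le_mul h6 h7 h8 (by positivity)
    _ = (B : ℝ) ^ (2 * E + n + 5) * h := by
      rw [← mul_assoc, ← pow_add]
      congr 2
      omega

private theorem dl_nonneg (n : ℕ) : 0 ≤ dl n := by
  unfold dl
  positivity

private theorem dl_le (n : ℕ) : dl n ≤ 1 := by
  unfold dl
  rw [div_le_one (by positivity)]
  have : (0 : ℝ) ≤ n := Nat.cast_nonneg _
  linarith

private theorem small (n j B H m κ : ℕ) (hB : 2 ≤ B) (hH : 1 ≤ H) (hM : 1 ≤ Fintype.card (Ix j)) (hs : (H : ℝ) ≤ (B : ℝ) ^ m)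
    (hκ : 2 * m + 2 ≤ κ) (T : Finset (Ix j → ℤ)) (hT : ∀ c ∈ T, ∀ p, |c p| ≤ (H : ℤ)) :
    (T.card : ℝ) ≤ (B : ℝ) ^ κ * (2 * (H : ℝ) + 1) ^ (Fintype.card (Ix j) - 1) * (H : ℝ) ^ (-dl n) := by
  classical
  have hB2 : (2 : ℝ) ≤ B := by exact_mod_cast hB
  have hH1 : (1 : ℝ) ≤ H := by exact_mod_cast hH
  have hH0 : (0 : ℝ) < H := by linarith
  have h1 : T.card ≤ 1 * (2 * H + 1) ^ (Fintype.card (Ix j) - (∅ : Finset (Ix j)).card) := by
    refine fib ∅ H 1 T hT ?_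
    intro c _ T' hT'
    rw [Finset.card_le_one]
    intro a ha b hb
    funext p
    rw [(hT' a ha).2 p (Finset.notMem_empty _), (hT' b hb).2 p (Finset.notMem_empty _)]
  rw [Finset.card_empty, Nat.sub_zero, one_mul] at h1
  have h2 : (T.card : ℝ) ≤ (2 * (H : ℝ) + 1) ^ Fintype.card (Ix j) := by exact_mod_cast h1
  have e1 : (2 * (H : ℝ) + 1) ^ Fintype.card (Ix j) = (2 * (H : ℝ) + 1) ^ (Fintype.card (Ix j) - 1) * (2 * H + 1) := by
    rw [← pow_succ]
    congr 1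
    omega
  have h3 : (2 * (H : ℝ) + 1) ≤ (B : ℝ) ^ κ * (H : ℝ) ^ (-dl n) := by
    have h4 : (H : ℝ) ^ (-(1 : ℝ)) ≤ (H : ℝ) ^ (-dl n) :=
      Real.rpow_le_rpow_of_exponent_le hH1 (by have := dl_le n; linarith)
    rw [Real.rpow_neg_one] at h4
    have h5 : (B : ℝ) ^ (2 * m + 2) ≤ (B : ℝ) ^ κ := pow_le_pow_right₀ (by linarith) hκ
    have h6 : (2 * (H : ℝ) + 1) * H ≤ (B : ℝ) ^ (2 * m + 2) := by
      have h7 : (2 * (H : ℝ) + 1) * H ≤ 4 * (H * H) := by nlinarith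
      have h8 : (H : ℝ) * H ≤ (B : ℝ) ^ m * (B : ℝ) ^ m := mul_le_mul hs hs hH0.le (by positivity)
      have h9 : (4 : ℝ) ≤ (B : ℝ) ^ 2 := by nlinarith
      calc (2 * (H : ℝ) + 1) * H ≤ 4 * (H * H) := h7
        _ ≤ (B : ℝ) ^ 2 * ((B : ℝ) ^ m * (B : ℝ) ^ m) := mul_le_mul h9 h8 (by positivity) (by positivity)
        _ = (B : ℝ) ^ (2 * m + 2) := by
          rw [two_mul, pow_add, pow_add]
          ring
    calc (2 * (H : ℝ) + 1) = (2 * (H : ℝ) + 1) * H * (H : ℝ)⁻¹ := by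
          field_simp
      _ ≤ (B : ℝ) ^ κ * (H : ℝ) ^ (-dl n) :=
          mul_le_mul (h6.trans h5) h4 (by positivity) (by positivity)
  rw [e1] at h2
  calc (T.card : ℝ) ≤ (2 * (H : ℝ) + 1) ^ (Fintype.card (Ix j) - 1) * (2 * H + 1) := h2
    _ ≤ (2 * (H : ℝ) + 1) ^ (Fintype.card (Ix j) - 1) * ((B : ℝ) ^ κ * (H : ℝ) ^ (-dl n)) :=
      mul_le_mul_of_nonneg_left h3 (by positivity)
    _ = _ := by ring

/-- `Ac` uses the terms of degree `≥ n - i` only -/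
private theorem Ac_congr {n i : ℕ} (hi1 : 1 ≤ i) (hin : i ≤ n) {e e' : ℕ → ℕ → ℤ}
    (h : ∀ a b, n - i ≤ a + b → e a b = e' a b) (t : ℝ) : Ac n e t i = Ac n e' t i := by
  have hfm : ∀ k, n - i ≤ k → fm e k = fm e' k := by
    intro k hk
    unfold fm
    refine Finset.sum_congr rfl fun l hl => ?_
    have := Finset.mem_range.1 hl
    rw [h _ _ (by omega)]
  have hbe : be n e t = be n e' t := by
    unfold be
    rw [hfm n (by omega), hfm (n - 1) (by omega)]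
  have hhs : ∀ k m, n - i ≤ k → hs e t k m = hs e' t k m := by
    intro k m hk
    unfold hs
    refine Finset.sum_congr rfl fun l hl => ?_
    have := Finset.mem_range.1 hl
    rw [h _ _ (by omega)]
  unfold Ac pp
  rw [hbe]
  refine Finset.sum_congr rfl fun a ha => ?_
  have := Finset.mem_range.1 ha
  rw [hhs _ _ (by omega)]

private theorem D_bd {n B : ℕ} (hB : 2 ≤ B) {e : ℕ → ℕ → ℤ} (he : Bas n B e) {t : ℝ} (ht : |t| ≤ 2) :
    |aeval t (derivative (fm e n))| ≤ (B : ℝ) ^ (3 * n + 1) := by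
  have hB2 : (2 : ℝ) ≤ B := by exact_mod_cast hB
  rw [fm_daeval]
  refine (Finset.abs_sum_le_sum_abs _ _).trans ?_
  have h1 : ∀ l ∈ range (n + 1), |(e (n - l) l : ℝ) * (l * t ^ (l - 1))| ≤ (B : ℝ) * (n * 2 ^ n) := by
    intro l hl
    have hl' := Finset.mem_range.1 hl
    rw [abs_mul, abs_mul, Nat.abs_cast, abs_pow]
    have h2 : |(e (n - l) l : ℝ)| ≤ B := by
      have := he.bd (n - l) l (by omega)
      have h3 : |e (n - l) l| ≤ (B : ℤ) := by linarith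
      exact_mod_cast h3
    have h3 : (l : ℝ) ≤ n := by exact_mod_cast (by omega : l ≤ n)
    have h4 : |t| ^ (l - 1) ≤ 2 ^ n :=
      (pow_le_pow_left₀ (abs_nonneg _) ht _).trans (pow_le_pow_right₀ (by norm_num) (by omega))
    gcongr
  refine (Finset.sum_le_card_nsmul _ _ _ h1).trans ?_
  rw [Finset.card_range, nsmul_eq_mul]
  push_cast
  have h2 := n_le_pow hB2 n
  have h3 : (n : ℝ) ≤ (B : ℝ) ^ n := by linarith
  have h4 : (2 : ℝ) ^ n ≤ (B : ℝ) ^ n := pow_le_pow_left₀ (by norm_num) hB2 n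
  calc ((n : ℝ) + 1) * (B * (n * 2 ^ n)) ≤ (B : ℝ) ^ n * (B * ((B : ℝ) ^ n * (B : ℝ) ^ n)) := by gcongr
    _ = (B : ℝ) ^ (3 * n + 1) := by ring

/-- the array of a fibre -/
private theorem fc_upk {n j B H : ℕ} {S : ℝ} (hjn : j < n) (hB : 2 ≤ B) (hH : 1 ≤ H) (hS1 : 1 ≤ S) (hS : (H : ℝ) ≤ S ^ (n - j))
    {e : ℕ → ℕ → ℤ} (he : Bas n B e) (c : Ix j → ℤ) (hc : ∀ p, |c p| ≤ (H : ℤ)) : Fc n B S (ad e c) where
  bs := by
    intro a b hab
    have hB2 : (2 : ℝ) ≤ B := by exact_mod_cast hB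
    have h2 : |(e a b : ℝ)| ≤ (B : ℝ) - 1 := by
      have := he.bd a b hab
      have h3 : (|e a b| : ℝ) + 1 ≤ (B : ℝ) := by exact_mod_cast this
      linarith
    have h5 : 1 ≤ S ^ (n - a - b) := one_le_pow₀ hS1
    rcases Nat.lt_or_ge j (a + b) with h | h
    · have h7 : ad e c a b = e a b := by
        unfold ad
        rw [co_outk c h, add_zero]
      rw [h7]
      nlinarith
    · have h3 : |(co c a b : ℝ)| ≤ H := by exact_mod_cast co_absk c hc a b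
      have h4 : (H : ℝ) ≤ S ^ (n - a - b) := hS.trans (pow_le_pow_right₀ hS1 (by omega))
      have h6 : ((ad e c a b : ℤ) : ℝ) = e a b + co c a b := by
        unfold ad
        push_cast
        ring
      rw [h6]
      have h8 := abs_add_le (e a b : ℝ) (co c a b : ℝ)
      nlinarith
  irr := by
    rw [fm_upk hjn e c]
    exact he.irr
  deg := by
    rw [fm_upk hjn e c]
    exact he.deg
  gd := by
    have h := he.gd
    unfold Gd at h ⊢
    rw [fm_upk hjn e c]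
    exact h

/-- the third part: one fibre at a time -/
private theorem third (n j E κd κg κf : ℕ) (hj : 3 ≤ j) (hjn : j + 3 ≤ n) (hd : DicS n κd) (hf : FigS n κf) (B : ℕ) (hB : 2 ≤ B)
    (e : ℕ → ℕ → ℤ) (he : Bas n B e) (h2 : ∀ t : ℝ, aeval t (fm e n) = 0 → Ac n e t 2 = 0) (H : ℕ) (hH : 1 ≤ H)
    (hbig : (B : ℝ) ^ (κf + (κd + (3 * n + 1) * n + κg)) ≤ (H : ℝ) ^ (1 / 2 : ℝ))
    (T : Finset (Ix j → ℤ))
    (hT : ∀ c ∈ T, (∀ p, |c p| ≤ (H : ℤ)) ∧ (∀ t : ℝ, |t| ≤ 2 → aeval t (fm e n) = 0 →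
      1 ≤ |Ac n (ad e c) t (n - j)| * ((B : ℝ) ^ κg * (H : ℝ) ^ (1 / 2 : ℝ))) ∧
      ∃ x y : ℤ, |y| ≤ |x| ∧ (H : ℝ) ^ al n ≤ |(x : ℝ)| ∧ |(x : ℝ)| ≤ ((B * H : ℕ) : ℝ) ^ E ∧
      ev n e x y + ev j (co c) x y = 0) :
    (T.card : ℝ) ≤ (B : ℝ) ^ (κf + (2 * E + n + 5) + ((κd + (3 * n + 1) * n + κg) + 1)) *
      (2 * (H : ℝ) + 1) ^ (Fintype.card (Ix j) - 1) * (H : ℝ) ^ (-dl n) := by
  classical
  obtain ⟨k, hk⟩ : ∃ k : ℕ, k = κd + (3 * n + 1) * n + κg := ⟨_, rfl⟩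
  rw [← hk] at hbig ⊢
  have hB2 : (2 : ℝ) ≤ B := by exact_mod_cast hB
  have hB1 : (1 : ℝ) ≤ B := by linarith
  have hB0 : (0 : ℝ) < B := by linarith
  have hH1 : (1 : ℝ) ≤ H := by exact_mod_cast hH
  have hH0 : (0 : ℝ) < H := by linarith
  have hn6 : (6 : ℝ) ≤ n := by exact_mod_cast (by omega : 6 ≤ n)
  have h1j : 1 ≤ j := by omega
  have hJc : (univ.image (ik h1j)).card = 3 := by
    rw [Finset.card_image_of_injective _ (ik_inj h1j), Finset.card_univ, card_ix]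
  have hM3 : 3 ≤ Fintype.card (Ix j) := by
    rw [← hJc]
    exact Finset.card_le_univ _
  have hal : 3 ≤ al n := by
    unfold al
    rw [if_neg (by omega)]
    have : 0 ≤ 2 / ((n : ℝ) - 1) := div_nonneg (by norm_num) (by linarith)
    linarith
  obtain ⟨q, hq⟩ : ∃ q : ℝ, q = (H : ℝ) ^ (1 / 2 : ℝ) := ⟨_, rfl⟩
  rw [← hq] at hbig
  have hq0 : 0 < q := by rw [hq]; exact Real.rpow_pos_of_pos hH0 _
  have hq1 : 1 ≤ q := by rw [hq]; exact Real.one_le_rpow hH1 (by norm_num)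
  have hqq : q * q = H := by
    rw [hq, ← Real.rpow_add hH0]
    norm_num
  obtain ⟨X, hX⟩ : ∃ X : ℝ, X = (H : ℝ) ^ al n := ⟨_, rfl⟩
  obtain ⟨X₂, hX₂⟩ : ∃ X₂ : ℝ, X₂ = ((B : ℝ) * H) ^ E := ⟨_, rfl⟩
  have hXge : (H : ℝ) ^ 3 ≤ X := by
    rw [hX, ← Real.rpow_natCast]
    exact Real.rpow_le_rpow_of_exponent_le hH1 (by push_cast; linarith)
  have hX0 : 0 < X := lt_of_lt_of_le (by positivity) hXge
  obtain ⟨g, hg⟩ : ∃ g : ℝ, g = 1 / ((B : ℝ) ^ k * q) := ⟨_, rfl⟩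
  have hg0 : 0 < g := by rw [hg]; positivity
  obtain ⟨S, hS⟩ : ∃ S : ℝ, S = (H : ℝ) ^ (1 / ((n - j : ℕ) : ℝ)) := ⟨_, rfl⟩
  have hnj : (0 : ℝ) < ((n - j : ℕ) : ℝ) := by exact_mod_cast (by omega : 0 < n - j)
  have hS1 : 1 ≤ S := by rw [hS]; exact Real.one_le_rpow hH1 (by positivity)
  have hSp : S ^ (n - j) = H := by
    rw [hS, ← Real.rpow_natCast, ← Real.rpow_mul hH0.le, one_div, inv_mul_cancel₀ hnj.ne', Real.rpow_one]
  have hSH : S ≤ H := by
    rw [← hSp]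
    exact le_self_pow₀ hS1 (by omega)
  have hHS : (H : ℝ) ≤ S ^ (n - 1) := by
    rw [← hSp]
    exact pow_le_pow_right₀ hS1 (by omega)
  -- the two conditions
  have hBf : (B : ℝ) ^ κf * (B : ℝ) ^ k ≤ q := by rw [← pow_add]; exact hbig
  have hBk1 : (1 : ℝ) ≤ (B : ℝ) ^ k := one_le_pow₀ hB1
  have hBf1 : (1 : ℝ) ≤ (B : ℝ) ^ κf := one_le_pow₀ hB1
  have hBfq : (B : ℝ) ^ κf ≤ q := by
    refine le_trans ?_ hBf
    exact le_mul_of_one_le_right (by positivity) hBk1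
  have c2 : (B : ℝ) ^ κf * (H : ℝ) ^ 2 ≤ X := by
    refine le_trans ?_ hXge
    have h3 : q ≤ H := by nlinarith
    calc (B : ℝ) ^ κf * (H : ℝ) ^ 2 ≤ H * (H : ℝ) ^ 2 := by gcongr; linarith
      _ = (H : ℝ) ^ 3 := by ring
  have c1 : (B : ℝ) ^ κf * (H : ℝ) ^ 2 ≤ g * X := by
    rw [hg, one_div, inv_mul_eq_div, le_div_iff₀ (by positivity)]
    refine le_trans ?_ hXge
    calc (B : ℝ) ^ κf * (H : ℝ) ^ 2 * ((B : ℝ) ^ k * q) = ((B : ℝ) ^ κf * (B : ℝ) ^ k) * q * (H : ℝ) ^ 2 := by ring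
      _ ≤ q * q * (H : ℝ) ^ 2 := by gcongr
      _ = (H : ℝ) ^ 3 := by rw [hqq]; ring
  by_cases hXX : X ≤ X₂
  swap
  · have hTe : T = ∅ := by
      rw [Finset.eq_empty_iff_forall_notMem]
      intro c hc
      obtain ⟨-, -, x, y, -, hx1, hx2, -⟩ := hT c hc
      apply hXX
      rw [hX, hX₂]
      refine hx1.trans (hx2.trans (le_of_eq ?_))
      push_cast
      rfl
    rw [hTe, Finset.card_empty, Nat.cast_zero]
    have := Real.rpow_nonneg hH0.le (-dl n)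
    positivity
  have hX1 : 1 ≤ X := le_trans (one_le_pow₀ hH1) hXge
  have hL : 0 ≤ 1 + Real.log X₂ := by
    have := Real.log_nonneg (hX1.trans hXX)
    linarith
  obtain ⟨F, hF⟩ : ∃ F : ℝ, F = (B : ℝ) ^ κf * (1 + Real.log X₂) * (1 + Real.sqrt (H / g)) * (2 * (H : ℝ) + 1) := ⟨_, rfl⟩
  have hF0 : 0 ≤ F := by
    rw [hF]
    have := Real.sqrt_nonneg ((H : ℝ) / g)
    exact mul_nonneg (mul_nonneg (mul_nonneg (by positivity) hL) (by linarith)) (by positivity)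
  have hfib : T.card ≤ ⌊F⌋₊ * (2 * H + 1) ^ (Fintype.card (Ix j) - (univ.image (ik h1j)).card) := by
    refine fib (univ.image (ik h1j)) H ⌊F⌋₊ T (fun c hc => (hT c hc).1) ?_
    intro c hcT T' hT'
    apply Nat.le_floor
    have hinj : Set.InjOn (lok h1j) (T' : Set (Ix j → ℤ)) := by
      intro a ha b hb hab
      funext p
      by_cases hp : p ∈ univ.image (ik h1j)
      · obtain ⟨q, _, rfl⟩ := mem_image.1 hp
        exact congrFun hab q
      · rw [(hT' a ha).2 p hp, (hT' b hb).2 p hp]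
    have hup : ∀ p, |upk 1 c p| ≤ (H : ℤ) := by
      intro p
      unfold upk
      split_ifs
      · simp
      · exact (hT c hcT).1 p
    -- the index `r`
    have hr : ∀ t : ℝ, |t| ≤ 2 → aeval t (fm (ad e (upk 1 c)) n) = 0 →
        ∃ r : ℕ, Vr n r S H (ad e (upk 1 c)) t ∧ g ≤ |Ac n (ad e (upk 1 c)) t r| := by
      intro t ht2 ht
      rw [fm_upk (by omega)] at ht
      have hAe : ∀ i, 1 ≤ i → i < n - j → Ac n (ad e (upk 1 c)) t i = Ac n e t i := by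
        intro i hi1 hi
        refine Ac_congr hi1 (by omega) ?_ t
        intro a b hab
        unfold ad
        rw [co_outk (upk 1 c) (by omega), add_zero]
      by_cases hex : ∃ i, (2 ≤ i ∧ i < n - j) ∧ Ac n e t i ≠ 0
      · obtain ⟨⟨hr2, hrj⟩, hr0⟩ := Nat.find_spec hex
        obtain ⟨r, hrd⟩ : ∃ r : ℕ, r = Nat.find hex := ⟨_, rfl⟩
        rw [← hrd] at hr2 hrj hr0
        have hmin : ∀ i, 2 ≤ i → i < r → Ac n e t i = 0 := by
          intro i hi2 hi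
          by_contra hne
          exact Nat.find_min hex (hrd ▸ hi) ⟨⟨hi2, by omega⟩, hne⟩
        have hr3 : 3 ≤ r := by
          rcases Nat.eq_or_lt_of_le hr2 with h | h
          · exact absurd (h ▸ h2 t ht) hr0
          · exact h
        refine ⟨r, ⟨hr3, by omega, ?_, ?_⟩, ?_⟩
        · calc S ^ r ≤ S ^ (n - j) := pow_le_pow_right₀ hS1 (by omega)
            _ = H := hSp
        · intro i hi2 hi
          rw [hAe i (by omega) (by omega)]
          exact hmin i hi2 hi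
        · rw [hAe r (by omega) hrj]
          rcases hd B hB e he r (by omega) with h | h
          · exact absurd (h t ht) hr0
          · have h3 := h t ht
            rw [abs_mul, abs_pow] at h3
            have h4 : |aeval t (derivative (fm e n))| ^ r ≤ (B : ℝ) ^ ((3 * n + 1) * n) := by
              calc |aeval t (derivative (fm e n))| ^ r ≤ ((B : ℝ) ^ (3 * n + 1)) ^ r :=
                    pow_le_pow_left₀ (abs_nonneg _) (D_bd hB he ht2) r
                _ = (B : ℝ) ^ ((3 * n + 1) * r) := by rw [← pow_mul]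
                _ ≤ _ := pow_le_pow_right₀ hB1 (Nat.mul_le_mul_left _ (by omega))
            rw [hg, div_le_iff₀ (by positivity)]
            calc (1 : ℝ) ≤ (B : ℝ) ^ κd * (|aeval t (derivative (fm e n))| ^ r * |Ac n e t r|) := h3
              _ ≤ (B : ℝ) ^ κd * ((B : ℝ) ^ ((3 * n + 1) * n) * |Ac n e t r|) := by gcongr
              _ = |Ac n e t r| * (B : ℝ) ^ (κd + (3 * n + 1) * n) := by rw [pow_add]; ring
              _ ≤ |Ac n e t r| * ((B : ℝ) ^ k * q) := by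
                  refine mul_le_mul_of_nonneg_left ?_ (abs_nonneg _)
                  calc (B : ℝ) ^ (κd + (3 * n + 1) * n) ≤ (B : ℝ) ^ k := pow_le_pow_right₀ hB1 (by omega)
                    _ ≤ (B : ℝ) ^ k * q := le_mul_of_one_le_right (by positivity) hq1
      · push Not at hex
        refine ⟨n - j, ⟨by omega, by omega, hSp.le, ?_⟩, ?_⟩
        · intro i hi2 hi
          rw [hAe i (by omega) hi]
          exact hex i ⟨hi2, hi⟩
        · have h3 : Ac n (ad e (upk 1 c)) t (n - j) = Ac n (ad e c) t (n - j) := by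
            refine Ac_congr (by omega) (by omega) ?_ t
            intro a b hab
            unfold ad
            rw [co_upk, if_neg (by omega)]
          rw [h3]
          have h4 := (hT c hcT).2.1 t ht2 ht
          rw [← hq] at h4
          rw [hg, div_le_iff₀ (by positivity)]
          refine h4.trans (mul_le_mul_of_nonneg_left ?_ (abs_nonneg _))
          refine mul_le_mul_of_nonneg_right (pow_le_pow_right₀ hB1 (by omega)) hq0.le
    have h1 := hf B H hB hH S hS1 hSH hHS (ad e (upk 1 c)) (fc_upk (by omega) hB hH hS1 hSp.ge he _ hup) g X X₂ hg0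
      hr c1 c2 hXX (T'.image (lok h1j)) (by
        intro u hu
        obtain ⟨c', hc', rfl⟩ := mem_image.1 hu
        obtain ⟨h2, -, x, y, hxy, hx1, hx2, hx3⟩ := hT c' (hT' c' hc').1
        refine ⟨fun p => h2 _, x, y, hxy, ?_, ?_, ?_⟩
        · rw [hX]
          exact hx1
        · rw [hX₂]
          refine hx2.trans (le_of_eq ?_)
          push_cast
          rfl
        · rw [ev_totk h1j (by omega) e c c' (hT' c' hc').2]
          exact hx3)
    rw [Finset.card_image_of_injOn hinj, ← hF] at h1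
    exact h1
  rw [hJc] at hfib
  have h1 : (T.card : ℝ) ≤ F * (2 * (H : ℝ) + 1) ^ (Fintype.card (Ix j) - 3) := by
    have h2 : (T.card : ℝ) ≤ (⌊F⌋₊ : ℝ) * (2 * (H : ℝ) + 1) ^ (Fintype.card (Ix j) - 3) := by
      exact_mod_cast hfib
    exact h2.trans (mul_le_mul_of_nonneg_right (Nat.floor_le hF0) (by positivity))
  refine h1.trans ?_
  -- the square root
  obtain ⟨w, hw⟩ : ∃ w : ℝ, w = (H : ℝ) ^ (3 / 4 : ℝ) := ⟨_, rfl⟩
  have hw1 : 1 ≤ w := by rw [hw]; exact Real.one_le_rpow hH1 (by norm_num)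
  have hww : w * w = H * q := by
    rw [hw, hq, ← Real.rpow_add hH0]
    nth_rewrite 2 [← Real.rpow_one (H : ℝ)]
    rw [← Real.rpow_add hH0]
    norm_num
  have hsq : Real.sqrt (H / g) ≤ (B : ℝ) ^ k * w := by
    have h3 : (H : ℝ) / g = (B : ℝ) ^ k * (w * w) := by
      rw [hww, hg]
      field_simp
    rw [h3]
    refine Real.sqrt_le_iff.2 ⟨by positivity, ?_⟩
    have h4 : 0 ≤ w * w := by positivity
    nlinarith
  have hsq1 : 1 + Real.sqrt (H / g) ≤ (B : ℝ) ^ (k + 1) * w := by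
    have h3 : 1 ≤ (B : ℝ) ^ k * w := by nlinarith
    rw [pow_succ]
    nlinarith
  have hlog := logb n E B (by omega) hB H hH1
  rw [← hX₂] at hlog
  obtain ⟨W, hW⟩ : ∃ W : ℝ, W = 2 * (H : ℝ) + 1 := ⟨_, rfl⟩
  have hW1 : (H : ℝ) ≤ W := by
    rw [hW]
    linarith
  have hW0 : 0 < W := by linarith
  have e1 : W ^ (Fintype.card (Ix j) - 1) = W ^ (Fintype.card (Ix j) - 3) * W * W := by
    rw [mul_assoc, ← pow_two, ← pow_add]
    congr 1
    omega
  rw [← hW]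
  rw [← hW] at hF
  have hd0 : 0 ≤ (H : ℝ) ^ (-dl n) := Real.rpow_nonneg hH0.le _
  have hexp : (H : ℝ) ^ (1 / (4 * (n : ℝ))) * w ≤ W * (H : ℝ) ^ (-dl n) := by
    have h3 : (H : ℝ) ^ (1 / (4 * (n : ℝ))) * w ≤ (H : ℝ) ^ (1 + -dl n) := by
      rw [hw, ← Real.rpow_add hH0]
      refine Real.rpow_le_rpow_of_exponent_le hH1 ?_
      have h8 : 1 / (4 * (n : ℝ)) ≤ 1 / 24 := one_div_le_one_div_of_le (by norm_num) (by linarith)
      have h9 : dl n ≤ 1 / 16 := by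
        unfold dl
        exact one_div_le_one_div_of_le (by norm_num) (by linarith)
      linarith
    rw [Real.rpow_add hH0, Real.rpow_one] at h3
    exact h3.trans (mul_le_mul_of_nonneg_right hW1 hd0)
  have hV : 0 ≤ W ^ (Fintype.card (Ix j) - 3) := by positivity
  have hr4 : 0 ≤ (H : ℝ) ^ (1 / (4 * (n : ℝ))) := Real.rpow_nonneg hH0.le _
  calc F * W ^ (Fintype.card (Ix j) - 3)
      ≤ ((B : ℝ) ^ κf * ((B : ℝ) ^ (2 * E + n + 5) * (H : ℝ) ^ (1 / (4 * (n : ℝ)))) * ((B : ℝ) ^ (k + 1) * w) * W) *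
          W ^ (Fintype.card (Ix j) - 3) := by
        rw [hF]
        have := Real.sqrt_nonneg ((H : ℝ) / g)
        gcongr
    _ = ((B : ℝ) ^ κf * (B : ℝ) ^ (2 * E + n + 5) * (B : ℝ) ^ (k + 1)) * (W ^ (Fintype.card (Ix j) - 3) * W) *
          ((H : ℝ) ^ (1 / (4 * (n : ℝ))) * w) := by ring
    _ ≤ ((B : ℝ) ^ κf * (B : ℝ) ^ (2 * E + n + 5) * (B : ℝ) ^ (k + 1)) * (W ^ (Fintype.card (Ix j) - 3) * W) *
          (W * (H : ℝ) ^ (-dl n)) := by gcongr
    _ = (B : ℝ) ^ (κf + (2 * E + n + 5) + (k + 1)) * W ^ (Fintype.card (Ix j) - 1) * (H : ℝ) ^ (-dl n) := by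
        rw [e1, pow_add (B : ℝ) (κf + (2 * E + n + 5)), pow_add (B : ℝ) κf]
        ring

theorem chg_ex (n j E κa κd κg κf : ℕ) (hj : 3 ≤ j) (hjn : j + 3 ≤ n) (ha : RgaS n j κa) (hd : DicS n κd)
    (hg : GmgS n j κg) (hf : FigS n κf) :
    ChgS n j E (κa + κg + (4 * (κf + (κd + (3 * n + 1) * n + κg)) + 2) +
      (κf + (2 * E + n + 5) + ((κd + (3 * n + 1) * n + κg) + 1)) + 2) := by
  classical
  obtain ⟨k, hk⟩ : ∃ k : ℕ, k = κd + (3 * n + 1) * n + κg := ⟨_, rfl⟩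
  rw [← hk]
  intro B hB e he h2 H hH T hT
  have hB2 : (2 : ℝ) ≤ B := by exact_mod_cast hB
  have hB1 : (1 : ℝ) ≤ B := by linarith
  have hH1 : (1 : ℝ) ≤ H := by exact_mod_cast hH
  have hH0 : (0 : ℝ) < H := by linarith
  have hn6 : (6 : ℝ) ≤ n := by exact_mod_cast (by omega : 6 ≤ n)
  have hM1 : 1 ≤ Fintype.card (Ix j) := by
    rw [card_ix]
    have : 2 ≤ (j + 1) * (j + 2) := by nlinarith
    omega
  by_cases hs : (H : ℝ) ^ (1 / 2 : ℝ) < (B : ℝ) ^ (κf + k)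
  · refine small n j B H (2 * (κf + k)) _ hB hH hM1 ?_ (by omega) T (fun c hc => (hT c hc).1)
    have h1 : ((H : ℝ) ^ (1 / 2 : ℝ)) ^ 2 ≤ ((B : ℝ) ^ (κf + k)) ^ 2 :=
      pow_le_pow_left₀ (Real.rpow_nonneg hH0.le _) hs.le _
    rw [← Real.rpow_natCast, ← Real.rpow_mul hH0.le, ← pow_mul] at h1
    norm_num at h1
    rwa [mul_comm 2]
  rw [not_lt] at hs
  obtain ⟨P, hP⟩ : ∃ P : (Ix j → ℤ) → Prop, P = fun c => ∃ x y : ℤ, |y| ≤ |x| ∧
      (B : ℝ) ^ κa * H ≤ |(x : ℝ)| ∧ |(x : ℝ)| ≤ (H : ℝ) ^ al n ∧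
      ev n e x y + ev j (co c) x y = 0 := ⟨_, rfl⟩
  obtain ⟨h, hh⟩ : ∃ h : ℝ, h = (H : ℝ) ^ (1 / (2 * ((n : ℝ) - 1))) := ⟨_, rfl⟩
  have hn1 : (0 : ℝ) < (n : ℝ) - 1 := by linarith
  have h1 : 1 ≤ h := by
    rw [hh]
    exact Real.one_le_rpow hH1 (by positivity)
  have h3 : h ^ (n - 1) = (H : ℝ) ^ (1 / 2 : ℝ) := by
    rw [hh, ← Real.rpow_natCast, ← Real.rpow_mul hH0.le]
    congr 1
    rw [Nat.cast_sub (by omega), Nat.cast_one]
    field_simp
  have hhH : h ≤ H := by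
    rw [hh]
    have h21 : 1 / (2 * ((n : ℝ) - 1)) ≤ 1 := by
      rw [div_le_one (by positivity)]
      linarith
    calc (H : ℝ) ^ (1 / (2 * ((n : ℝ) - 1))) ≤ (H : ℝ) ^ (1 : ℝ) :=
          Real.rpow_le_rpow_of_exponent_le hH1 h21
      _ = H := Real.rpow_one _
  have h4 : (H : ℝ) ^ dl n ≤ h ^ j := by
    rw [hh, ← Real.rpow_natCast, ← Real.rpow_mul hH0.le]
    apply Real.rpow_le_rpow_of_exponent_le hH1
    have hj3 : (3 : ℝ) ≤ j := by exact_mod_cast hj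
    unfold dl
    rw [div_mul_eq_mul_div, one_mul, div_le_div_iff₀ (by linarith) (by positivity)]
    nlinarith
  obtain ⟨Q, hQ⟩ : ∃ Q : (Ix j → ℤ) → Prop, Q = fun c => ∃ t : ℝ, |t| ≤ 2 ∧
      aeval t (fm e n) = 0 ∧ |Ac n (ad e c) t (n - j)| * ((B : ℝ) ^ κg * h ^ (n - 1)) ≤ 1 := ⟨_, rfl⟩
  have t1 := ha B hB e he H hH (T.filter P) (by
    intro c hc
    rw [Finset.mem_filter, hP] at hc
    exact ⟨(hT c hc.1).1, hc.2⟩)
  have t2 := hg B hB e he H h hH h1 hhH (T.filter Q) (by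
    intro c hc
    rw [Finset.mem_filter, hQ] at hc
    exact ⟨(hT c hc.1).1, hc.2⟩)
  have t3 := third n j E κd κg κf hj hjn hd hf B hB e he h2 H hH (by rw [← hk]; exact hs) (T.filter fun c => ¬ P c ∧ ¬ Q c) (by
    intro c hc
    rw [Finset.mem_filter] at hc
    obtain ⟨hcT, hcP, hcQ⟩ := hc
    obtain ⟨hc1, x, y, hxy, hx1, hx2, hx3⟩ := hT c hcT
    refine ⟨hc1, ?_, x, y, hxy, ?_, hx2, hx3⟩
    · intro t ht hr
      by_contra hcon
      push Not at hcon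
      apply hcQ
      rw [hQ]
      refine ⟨t, ht, hr, ?_⟩
      rw [h3]
      exact hcon.le
    · by_contra hcon
      push Not at hcon
      apply hcP
      rw [hP]
      refine ⟨x, y, hxy, ?_, hcon.le, hx3⟩
      refine le_trans ?_ hx1
      apply mul_le_mul_of_nonneg_right _ hH0.le
      exact pow_le_pow_right₀ hB1 (by omega))
  rw [← hk] at t3
  have hcov : T ⊆ (T.filter P ∪ T.filter Q) ∪ T.filter fun c => ¬ P c ∧ ¬ Q c := by
    intro c hc
    simp only [Finset.mem_union, Finset.mem_filter]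
    tauto
  have hcard : (T.card : ℝ) ≤ (T.filter P).card + (T.filter Q).card +
      (T.filter fun c => ¬ P c ∧ ¬ Q c).card := by
    have h4 := (Finset.card_le_card hcov).trans
      ((Finset.card_union_le _ _).trans (Nat.add_le_add_right (Finset.card_union_le _ _) _))
    exact_mod_cast h4
  have t2' : ((T.filter Q).card : ℝ) ≤ (B : ℝ) ^ κg * (2 * (H : ℝ) + 1) ^ (Fintype.card (Ix j) - 1) * (H : ℝ) ^ (-dl n) := by
    refine t2.trans ?_
    rw [Real.rpow_neg hH0.le, ← div_eq_mul_inv]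
    have h7 : 0 < (H : ℝ) ^ dl n := Real.rpow_pos_of_pos hH0 _
    exact div_le_div_of_nonneg_left (by positivity) h7 h4
  obtain ⟨W, hW⟩ : ∃ W : ℝ, W = (2 * (H : ℝ) + 1) ^ (Fintype.card (Ix j) - 1) *
      (H : ℝ) ^ (-dl n) := ⟨_, rfl⟩
  have hW0 : 0 ≤ W := by
    rw [hW]
    have := Real.rpow_pos_of_pos hH0 (-dl n)
    positivity
  rw [mul_assoc, ← hW] at t1 t2' t3 ⊢
  obtain ⟨m, hm⟩ : ∃ m : ℕ, m = κa + κg + (4 * (κf + k) + 2) + (κf + (2 * E + n + 5) + (k + 1)) := ⟨_, rfl⟩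
  rw [← hm]
  have hpw : ∀ z : ℕ, z ≤ m → (B : ℝ) ^ z ≤ (B : ℝ) ^ m := fun z hz => pow_le_pow_right₀ hB1 hz
  have e1 := mul_le_mul_of_nonneg_right (hpw κa (by omega)) hW0
  have e2 := mul_le_mul_of_nonneg_right (hpw κg (by omega)) hW0
  have e3 := mul_le_mul_of_nonneg_right (hpw (κf + (2 * E + n + 5) + (k + 1)) (by omega)) hW0
  have e4 : (3 : ℝ) ≤ (B : ℝ) ^ 2 := by nlinarith
  have e5 : 0 ≤ (B : ℝ) ^ m * W := by positivity
  calc (T.card : ℝ) ≤ 3 * ((B : ℝ) ^ m * W) := by linarith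
    _ ≤ (B : ℝ) ^ 2 * ((B : ℝ) ^ m * W) := mul_le_mul_of_nonneg_right e4 e5
    _ = (B : ℝ) ^ (m + 2) * W := by ring

end Pool.Agent.H12.TG
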