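import Pool.Agent.H12.TG.Nar

/-! # [H12 TG CUG] Three collinear points near an asymptote (helper12)

`σ(x) = s₀ + τ (x - x₀)`, `ψ(x) = F(x, t x + β + σ(x)) / x^(n-1)`; the mean value theorem bounds `τ`, Rolle twice gives `ψ''` at a point; the main term of `ψ''` is `r (r-1) A_r x^(-r-1)`. -/

namespace Pool.Agent.H12.TG

open Finset Polynomial Pool.Agent.H8.AA Pool.Agent.H88.A2 Pool.Agent.H88.TU

/-- Rolle twice (helper88's team, `TU.Cu1`) -/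
private theorem dd2 {f f1 f2 : ℝ → ℝ} {x₀ x₁ x₂ : ℝ} (h01 : x₀ < x₁) (h12 : x₁ < x₂)
    (hf : ∀ x ∈ Set.Icc x₀ x₂, HasDerivAt f (f1 x) x) (hf1 : ∀ x ∈ Set.Icc x₀ x₂, HasDerivAt f1 (f2 x) x) :
    ∃ ξ ∈ Set.Icc x₀ x₂, f2 ξ * ((x₁ - x₀) * (x₂ - x₁) * (x₂ - x₀)) =
      2 * (f x₀ * (x₂ - x₁) - f x₁ * (x₂ - x₀) + f x₂ * (x₁ - x₀)) := by
  have d01 : 0 < x₁ - x₀ := sub_pos.2 h01
  have d12 : 0 < x₂ - x₁ := sub_pos.2 h12
  have d02 : 0 < x₂ - x₀ := by linarith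
  obtain ⟨L, hL⟩ : ∃ L : ℝ, L * ((x₁ - x₀) * (x₂ - x₁) * (x₂ - x₀)) =
      f x₀ * (x₂ - x₁) - f x₁ * (x₂ - x₀) + f x₂ * (x₁ - x₀) :=
    ⟨_, div_mul_cancel₀ _ (by positivity)⟩
  obtain ⟨c, hc⟩ : ∃ c : ℝ, c * (x₁ - x₀) = f x₁ - f x₀ := ⟨_, div_mul_cancel₀ _ d01.ne'⟩
  have hg : ∀ x ∈ Set.Icc x₀ x₂, HasDerivAt (fun x => f x - L * x ^ 2 - (c - L * (x₀ + x₁)) * x)
      (f1 x - 2 * L * x - (c - L * (x₀ + x₁))) x := by
    intro x hx
    refine (((hf x hx).sub ((hasDerivAt_pow 2 x).const_mul L)).sub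
      ((hasDerivAt_id x).const_mul (c - L * (x₀ + x₁)))).congr_deriv ?_
    push_cast
    ring
  have hg1 : ∀ x ∈ Set.Icc x₀ x₂, HasDerivAt (fun x => f1 x - 2 * L * x - (c - L * (x₀ + x₁))) (f2 x - 2 * L) x := by
    intro x hx
    refine (((hf1 x hx).sub ((hasDerivAt_id x).const_mul (2 * L))).sub_const (c - L * (x₀ + x₁))).congr_deriv ?_
    ring
  have e01 : f x₀ - L * x₀ ^ 2 - (c - L * (x₀ + x₁)) * x₀ = f x₁ - L * x₁ ^ 2 - (c - L * (x₀ + x₁)) * x₁ := by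
    linear_combination hc
  have e12 : f x₁ - L * x₁ ^ 2 - (c - L * (x₀ + x₁)) * x₁ = f x₂ - L * x₂ ^ 2 - (c - L * (x₀ + x₁)) * x₂ := by
    have h : (x₁ - x₀) * (f x₁ - L * x₁ ^ 2 - (c - L * (x₀ + x₁)) * x₁) =
        (x₁ - x₀) * (f x₂ - L * x₂ ^ 2 - (c - L * (x₀ + x₁)) * x₂) := by
      linear_combination hL + (x₂ - x₁) * hc
    exact mul_left_cancel₀ d01.ne' h
  obtain ⟨a, ⟨ha0, ha1⟩, ha⟩ := exists_hasDerivAt_eq_zero h01
    (fun x hx => (hg x ⟨hx.1, hx.2.trans h12.le⟩).continuousAt.continuousWithinAt) e01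
    (fun x hx => hg x ⟨hx.1.le, (hx.2.trans h12).le⟩)
  obtain ⟨b, ⟨hb0, hb1⟩, hb⟩ := exists_hasDerivAt_eq_zero h12
    (fun x hx => (hg x ⟨h01.le.trans hx.1, hx.2⟩).continuousAt.continuousWithinAt) e12
    (fun x hx => hg x ⟨(h01.trans hx.1).le, hx.2.le⟩)
  have hab : a < b := ha1.trans hb0
  obtain ⟨ξ, ⟨hx0, hx1⟩, hξ⟩ := exists_hasDerivAt_eq_zero hab
    (fun x hx => (hg1 x ⟨ha0.le.trans hx.1, hx.2.trans hb1.le⟩).continuousAt.continuousWithinAt)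
    (ha.trans hb.symm) (fun x hx => hg1 x ⟨(ha0.trans hx.1).le, (hx.2.trans hb1).le⟩)
  refine ⟨ξ, ⟨(ha0.trans hx0).le, (hx1.trans hb1).le⟩, ?_⟩
  linear_combination ((x₁ - x₀) * (x₂ - x₁) * (x₂ - x₀)) * hξ + 2 * hL

/-- `s^m x^(-l)` -/
private noncomputable def T (s : ℝ → ℝ) (m l : ℕ) (x : ℝ) : ℝ := s x ^ m * (x ^ l)⁻¹

private theorem T_deriv {s : ℝ → ℝ} {τ x : ℝ} (hs : HasDerivAt s τ x) (hx : x ≠ 0) (m l : ℕ) :
    HasDerivAt (T s m l) (m * τ * T s (m - 1) l x - l * T s m (l + 1) x) x := by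
  unfold T
  refine ((hs.pow m).mul ((hasDerivAt_pow l x).inv (pow_ne_zero l hx))).congr_deriv ?_
  rcases l with _ | l
  · simp
    ring
  · simp only [Pi.inv_apply, Pi.pow_apply]
    push_cast
    field_simp
    ring

private theorem T_bd {s : ℝ → ℝ} {b v X x : ℝ} (hX : 0 < X) (hv : v = X⁻¹) (hx : X ≤ x) (hs : |s x| ≤ b) (m l : ℕ) :
    |T s m l x| ≤ b ^ m * v ^ l := by
  have hx0 : 0 < x := hX.trans_le hx
  unfold T
  rw [abs_mul, abs_pow, abs_of_pos (inv_pos.2 (pow_pos hx0 l)), hv, inv_pow]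
  exact mul_le_mul (pow_le_pow_left₀ (abs_nonneg _) hs m) (inv_anti₀ (pow_pos hX l) (pow_le_pow_left₀ hX.le hx l))
    (inv_pos.2 (pow_pos hx0 l)).le (pow_nonneg ((abs_nonneg _).trans hs) m)

private noncomputable def ps (p : ℕ → ℕ → ℝ) (n : ℕ) (D : ℝ) (s : ℝ → ℝ) (x : ℝ) : ℝ :=
  D * s x + ∑ i ∈ Ico 2 (n + 1), ∑ m ∈ range (i + 1), p i m * T s m (i - 1) x

private noncomputable def ps1 (p : ℕ → ℕ → ℝ) (n : ℕ) (D : ℝ) (s : ℝ → ℝ) (τ x : ℝ) : ℝ :=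
  D * τ + ∑ i ∈ Ico 2 (n + 1), ∑ m ∈ range (i + 1),
    p i m * (m * τ * T s (m - 1) (i - 1) x - ((i - 1 : ℕ) : ℝ) * T s m (i - 1 + 1) x)

private noncomputable def ps2 (p : ℕ → ℕ → ℝ) (n : ℕ) (s : ℝ → ℝ) (τ x : ℝ) : ℝ :=
  ∑ i ∈ Ico 2 (n + 1), ∑ m ∈ range (i + 1),
    p i m * (m * τ * (((m - 1 : ℕ) : ℝ) * τ * T s (m - 1 - 1) (i - 1) x - ((i - 1 : ℕ) : ℝ) * T s (m - 1) (i - 1 + 1) x) -
      ((i - 1 : ℕ) : ℝ) * (m * τ * T s (m - 1) (i - 1 + 1) x - ((i - 1 + 1 : ℕ) : ℝ) * T s m (i - 1 + 1 + 1) x))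

private theorem ps_deriv {p : ℕ → ℕ → ℝ} {n : ℕ} {D : ℝ} {s : ℝ → ℝ} {τ x : ℝ} (hs : HasDerivAt s τ x) (hx : x ≠ 0) :
    HasDerivAt (ps p n D s) (ps1 p n D s τ x) x := by
  unfold ps ps1
  refine HasDerivAt.add (hs.const_mul D) ?_
  refine HasDerivAt.fun_sum fun i _ => HasDerivAt.fun_sum fun m _ => ?_
  exact (T_deriv hs hx m (i - 1)).const_mul _

private theorem ps1_deriv {p : ℕ → ℕ → ℝ} {n : ℕ} {D : ℝ} {s : ℝ → ℝ} {τ x : ℝ} (hs : HasDerivAt s τ x) (hx : x ≠ 0) :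
    HasDerivAt (ps1 p n D s τ) (ps2 p n s τ x) x := by
  unfold ps1 ps2
  refine HasDerivAt.const_add _ ?_
  refine HasDerivAt.fun_sum fun i _ => HasDerivAt.fun_sum fun m _ => ?_
  exact (((T_deriv hs hx (m - 1) (i - 1)).const_mul (m * τ)).sub
    ((T_deriv hs hx m (i - 1 + 1)).const_mul ((i - 1 : ℕ) : ℝ))).const_mul _

private theorem ev_eq {p : ℕ → ℕ → ℝ} {n : ℕ} {D : ℝ} {s : ℝ → ℝ} {x : ℝ} (hn : 2 ≤ n) (hx : x ≠ 0) (h00 : p 0 0 = 0)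
    (h10 : p 1 0 = 0) (h11 : p 1 1 = D) :
    ∑ i ∈ range (n + 1), ∑ m ∈ range (i + 1), p i m * s x ^ m * x ^ (n - i) = x ^ (n - 1) * ps p n D s x := by
  rw [split2 hn (fun i m => p i m * s x ^ m * x ^ (n - i)) (by simp [h00]) (by simp [h10])]
  unfold ps
  rw [mul_add, mul_sum]
  congr 1
  · rw [h11, pow_one]
    ring
  · refine sum_congr rfl fun i hi => ?_
    rw [mem_Ico] at hi
    rw [mul_sum]
    refine sum_congr rfl fun m _ => ?_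
    unfold T
    have h3 : x ^ (n - 1) = x ^ (n - i) * x ^ (i - 1) := by
      rw [← pow_add]
      congr 1
      omega
    rw [h3]
    have h4 : x ^ (i - 1) ≠ 0 := pow_ne_zero _ hx
    field_simp

/-- `(S v)^a ≤ (S v)^b` -/
private theorem sv_pow {S v : ℝ} (hS : 0 ≤ S) (hv : 0 ≤ v) (h : S * v ≤ 1) {a b : ℕ} (hab : b ≤ a) :
    S ^ a * v ^ a ≤ S ^ b * v ^ b := by
  rw [← mul_pow, ← mul_pow]
  exact pow_le_pow_of_le_one (mul_nonneg hS hv) h hab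

private theorem La {S v b : ℝ} (hS : 1 ≤ S) (hv : 0 ≤ v) (h : S * v ≤ 1) (hb0 : 0 ≤ b) (hb : b ≤ 1) {i m : ℕ}
    (hi : 2 ≤ i) (hm : 1 ≤ m) : S ^ (i - m) * b ^ (m - 1) * v ^ (i - 1) ≤ S * v := by
  have h1 : S ^ (i - m) ≤ S ^ (i - 1) := pow_le_pow_right₀ hS (by omega)
  have h2 : b ^ (m - 1) ≤ 1 := pow_le_one₀ hb0 hb
  have h3 := sv_pow (by linarith : 0 ≤ S) hv h (a := i - 1) (b := 1) (by omega)
  rw [pow_one, pow_one] at h3
  calc S ^ (i - m) * b ^ (m - 1) * v ^ (i - 1) ≤ S ^ (i - 1) * 1 * v ^ (i - 1) := by gcongr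
    _ = S ^ (i - 1) * v ^ (i - 1) := by ring
    _ ≤ _ := h3

private theorem Lc {S v b : ℝ} (hS : 1 ≤ S) (hv : 0 ≤ v) (h : S * v ≤ 1) (hb0 : 0 ≤ b) (hb : b ≤ 1) {i m : ℕ}
    (hi : 2 ≤ i) (hm : 2 ≤ m) : S ^ (i - m) * b ^ (m - 1 - 1) * v ^ (i - 1) ≤ v := by
  have h1 : S ^ (i - m) ≤ S ^ (i - 2) := pow_le_pow_right₀ hS (by omega)
  have h2 : b ^ (m - 1 - 1) ≤ 1 := pow_le_one₀ hb0 hb
  have h3 := sv_pow (by linarith : 0 ≤ S) hv h (a := i - 2) (b := 0) (by omega)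
  rw [pow_zero, pow_zero, mul_one] at h3
  have h4 : v ^ (i - 1) = v ^ (i - 2) * v := by rw [← pow_succ]; congr 1; omega
  calc S ^ (i - m) * b ^ (m - 1 - 1) * v ^ (i - 1) ≤ S ^ (i - 2) * 1 * v ^ (i - 1) := by gcongr
    _ = (S ^ (i - 2) * v ^ (i - 2)) * v := by rw [h4]; ring
    _ ≤ 1 * v := mul_le_mul_of_nonneg_right h3 hv
    _ = v := one_mul v

section bounds

variable {A S H X v b u x τ D : ℝ} {s : ℝ → ℝ} {p : ℕ → ℕ → ℝ} {n r : ℕ}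

/-- the first derivative -/
private theorem b1 (hA : 0 ≤ A) (hS : 1 ≤ S) (hX : 0 < X) (hv : v = X⁻¹) (hSv : S * v ≤ 1) (hb : b ≤ 1)
    (hx : X ≤ x) (hs : |s x| ≤ b) (hu : u = b * v) (hHu : H * v ^ r ≤ u) (hpw : S ^ r ≤ H)
    (hp : ∀ i m, m ≤ i → i ≤ n → |p i m| ≤ A * S ^ (i - m)) (hz : ∀ i, 2 ≤ i → i < r → p i 0 = 0) :
    |ps1 p n D s τ x - D * τ| ≤ ((n : ℝ) + 1) ^ 2 * (n * A * (|τ| * (S * v) + u)) := by
  have hv0 : 0 ≤ v := by rw [hv]; positivity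
  have hb0 : 0 ≤ b := (abs_nonneg _).trans hs
  have hu0 : 0 ≤ u := by rw [hu]; positivity
  have hn0 : (0 : ℝ) ≤ n := Nat.cast_nonneg n
  have hS0 : 0 ≤ S := by linarith
  have h2 : ps1 p n D s τ x - D * τ = ∑ i ∈ Ico 2 (n + 1), ∑ m ∈ range (i + 1),
      p i m * (m * τ * T s (m - 1) (i - 1) x - ((i - 1 : ℕ) : ℝ) * T s m (i - 1 + 1) x) := by
    unfold ps1
    ring
  rw [h2]
  refine dsum2 (by positivity) ?_
  intro i m hi2 hi hm
  have hii : i - 1 + 1 = i := by omega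
  rw [hii]
  have hin : ((i - 1 : ℕ) : ℝ) ≤ n := by exact_mod_cast (by omega : i - 1 ≤ n)
  have hmn : (m : ℝ) ≤ n := by exact_mod_cast (by omega : m ≤ n)
  have hp1 := hp i m hm hi
  rcases Nat.eq_zero_or_pos m with rfl | hm1
  · rcases Nat.lt_or_ge i r with hir | hir
    · rw [hz i hi2 hir, zero_mul, abs_zero]
      positivity
    · have e1 := T_bd hX hv hx hs 0 i
      rw [pow_zero, one_mul] at e1
      have e2 : p i 0 * (((0 : ℕ) : ℝ) * τ * T s (0 - 1) (i - 1) x - ((i - 1 : ℕ) : ℝ) * T s 0 i x) =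
          -(((i - 1 : ℕ) : ℝ) * (p i 0 * T s 0 i x)) := by push_cast; ring
      rw [e2, abs_neg, abs_mul, abs_mul, Nat.abs_cast]
      rw [Nat.sub_zero] at hp1
      have e3 : |p i 0| * |T s 0 i x| ≤ A * u := by
        calc |p i 0| * |T s 0 i x| ≤ (A * S ^ i) * v ^ i := mul_le_mul hp1 e1 (abs_nonneg _) (by positivity)
          _ = A * (S ^ i * v ^ i) := by ring
          _ ≤ A * (S ^ r * v ^ r) := mul_le_mul_of_nonneg_left (sv_pow hS0 hv0 hSv hir) hA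
          _ ≤ A * (H * v ^ r) := by gcongr
          _ ≤ A * u := mul_le_mul_of_nonneg_left hHu hA
      calc ((i - 1 : ℕ) : ℝ) * (|p i 0| * |T s 0 i x|) ≤ n * (A * u) :=
            mul_le_mul hin e3 (by positivity) hn0
        _ = n * A * (0 + u) := by ring
        _ ≤ n * A * (|τ| * (S * v) + u) := by
            have : 0 ≤ |τ| * (S * v) := by positivity
            gcongr
  · have e1 := T_bd hX hv hx hs (m - 1) (i - 1)
    have e2 := T_bd hX hv hx hs m i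
    have e3 : |p i m| * |T s (m - 1) (i - 1) x| ≤ A * (S * v) := by
      calc |p i m| * |T s (m - 1) (i - 1) x| ≤ (A * S ^ (i - m)) * (b ^ (m - 1) * v ^ (i - 1)) :=
            mul_le_mul hp1 e1 (abs_nonneg _) (by positivity)
        _ = A * (S ^ (i - m) * b ^ (m - 1) * v ^ (i - 1)) := by ring
        _ ≤ _ := mul_le_mul_of_nonneg_left (La hS hv0 hSv hb0 hb hi2 hm1) hA
    have e4 : |p i m| * |T s m i x| ≤ A * u := by
      have f1 : b ^ m = b ^ (m - 1) * b := by rw [← pow_succ]; congr 1; omega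
      have f2 : v ^ i = v ^ (i - 1) * v := by rw [← pow_succ]; congr 1; omega
      calc |p i m| * |T s m i x| ≤ (A * S ^ (i - m)) * (b ^ m * v ^ i) :=
            mul_le_mul hp1 e2 (abs_nonneg _) (by positivity)
        _ = A * ((S ^ (i - m) * b ^ (m - 1) * v ^ (i - 1)) * (b * v)) := by rw [f1, f2]; ring
        _ ≤ A * ((S * v) * (b * v)) := by
            have := La hS hv0 hSv hb0 hb hi2 hm1
            gcongr
        _ ≤ A * (1 * (b * v)) := by gcongr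
        _ = A * u := by rw [hu]; ring
    have e5 : p i m * (m * τ * T s (m - 1) (i - 1) x - ((i - 1 : ℕ) : ℝ) * T s m i x) =
        (m * τ) * (p i m * T s (m - 1) (i - 1) x) - ((i - 1 : ℕ) : ℝ) * (p i m * T s m i x) := by ring
    rw [e5]
    refine (abs_sub _ _).trans ?_
    rw [abs_mul, abs_mul, abs_mul (((i - 1 : ℕ) : ℝ)), Nat.abs_cast, Nat.abs_cast, abs_mul, abs_mul]
    calc (m : ℝ) * |τ| * (|p i m| * |T s (m - 1) (i - 1) x|) + ((i - 1 : ℕ) : ℝ) * (|p i m| * |T s m i x|)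
        ≤ n * |τ| * (A * (S * v)) + n * (A * u) := by gcongr
      _ = _ := by ring

/-- the second derivative -/
private theorem b2 (hA : 0 ≤ A) (hS : 1 ≤ S) (hX : 0 < X) (hv : v = X⁻¹) (hSv : S * v ≤ 1) (hb : b ≤ 1)
    (hx : X ≤ x) (hs : |s x| ≤ b) (hu : u = b * v) (hHu : H * v ^ r ≤ u) (hpw : S ^ r ≤ H) (hr2 : 2 ≤ r) (hrn : r ≤ n)
    (hp : ∀ i m, m ≤ i → i ≤ n → |p i m| ≤ A * S ^ (i - m)) (hz : ∀ i, 2 ≤ i → i < r → p i 0 = 0) :
    |ps2 p n s τ x - ((r - 1 : ℕ) : ℝ) * r * p r 0 * (x ^ (r + 1))⁻¹| ≤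
      ((n : ℝ) + 1) ^ 2 * (n ^ 2 * A * (((S * v) * u + 2 * |τ| * (S * v) + τ ^ 2) * v)) := by
  have hv0 : 0 ≤ v := by rw [hv]; positivity
  have hb0 : 0 ≤ b := (abs_nonneg _).trans hs
  have hu0 : 0 ≤ u := by rw [hu]; positivity
  have hn0 : (0 : ℝ) ≤ n := Nat.cast_nonneg n
  have hS0 : 0 ≤ S := by linarith
  obtain ⟨U, hU⟩ : ∃ U : ℕ → ℕ → ℝ, U = fun i m =>
    p i m * (m * τ * (((m - 1 : ℕ) : ℝ) * τ * T s (m - 1 - 1) (i - 1) x - ((i - 1 : ℕ) : ℝ) * T s (m - 1) (i - 1 + 1) x) -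
      ((i - 1 : ℕ) : ℝ) * (m * τ * T s (m - 1) (i - 1 + 1) x - ((i - 1 + 1 : ℕ) : ℝ) * T s m (i - 1 + 1 + 1) x)) := ⟨_, rfl⟩
  obtain ⟨V, hV⟩ : ∃ V : ℕ → ℕ → ℝ, V = fun i m =>
    if i = r ∧ m = 0 then ((r - 1 : ℕ) : ℝ) * r * p r 0 * (x ^ (r + 1))⁻¹ else 0 := ⟨_, rfl⟩
  have h0 : ∑ i ∈ Ico 2 (n + 1), ∑ m ∈ range (i + 1), V i m = ((r - 1 : ℕ) : ℝ) * r * p r 0 * (x ^ (r + 1))⁻¹ := by
    rw [sum_eq_single r, sum_eq_single 0]
    · rw [hV]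
      simp
    · intro m _ hm
      rw [hV]
      simp [hm]
    · intro h
      exact absurd (mem_range.2 (by omega)) h
    · intro i _ hi
      refine sum_eq_zero fun m _ => ?_
      rw [hV]
      simp [hi]
    · intro h
      exact absurd (mem_Ico.2 ⟨hr2, by omega⟩) h
  have h1 : ps2 p n s τ x - ((r - 1 : ℕ) : ℝ) * r * p r 0 * (x ^ (r + 1))⁻¹ =
      ∑ i ∈ Ico 2 (n + 1), ∑ m ∈ range (i + 1), (U i m - V i m) := by
    rw [← h0]
    unfold ps2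
    rw [← sum_sub_distrib]
    refine sum_congr rfl fun i _ => ?_
    rw [← sum_sub_distrib, hU]
  rw [h1]
  refine dsum2 (by positivity) ?_
  intro i m hi2 hi hm
  have hii : i - 1 + 1 = i := by omega
  have hin : ((i - 1 : ℕ) : ℝ) ≤ n := by exact_mod_cast (by omega : i - 1 ≤ n)
  have hin' : (i : ℝ) ≤ n := by exact_mod_cast hi
  have hmn : (m : ℝ) ≤ n := by exact_mod_cast (by omega : m ≤ n)
  have hmn' : ((m - 1 : ℕ) : ℝ) ≤ n := by exact_mod_cast (by omega : m - 1 ≤ n)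
  have hp1 := hp i m hm hi
  rcases Nat.eq_zero_or_pos m with rfl | hm1
  · rcases Nat.lt_trichotomy i r with hir | hir | hir
    · have e1 : U i 0 = 0 := by rw [hU]; simp only [hz i hi2 hir, zero_mul]
      have e2 : V i 0 = 0 := by rw [hV]; simp [hir.ne]
      rw [e1, e2, sub_zero, abs_zero]
      positivity
    · have e1 : U i 0 = V i 0 := by
        rw [hU, hV]
        simp only [hir, true_and, if_true, T]
        have : r - 1 + 1 = r := by omega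
        rw [this]
        push_cast
        ring
      rw [e1, sub_self, abs_zero]
      positivity
    · have e2 : V i 0 = 0 := by rw [hV]; simp [hir.ne']
      have e1 : U i 0 = (((i - 1 : ℕ) : ℝ) * i) * (p i 0 * T s 0 (i + 1) x) := by
        rw [hU]
        simp only [hii]
        push_cast
        ring
      rw [e1, e2, sub_zero, abs_mul, abs_mul, abs_mul, Nat.abs_cast, Nat.abs_cast]
      have e3 := T_bd hX hv hx hs 0 (i + 1)
      rw [pow_zero, one_mul] at e3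
      rw [Nat.sub_zero] at hp1
      have e4 : |p i 0| * |T s 0 (i + 1) x| ≤ A * ((S * v) * u * v) := by
        have f1 := sv_pow hS0 hv0 hSv (a := i) (b := r + 1) (by omega)
        calc |p i 0| * |T s 0 (i + 1) x| ≤ (A * S ^ i) * v ^ (i + 1) := mul_le_mul hp1 e3 (abs_nonneg _) (by positivity)
          _ = A * ((S ^ i * v ^ i) * v) := by rw [pow_succ]; ring
          _ ≤ A * ((S ^ (r + 1) * v ^ (r + 1)) * v) := by gcongr
          _ = A * ((S * v) * (S ^ r * v ^ r) * v) := by rw [pow_succ, pow_succ]; ring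
          _ ≤ A * ((S * v) * (H * v ^ r) * v) := by gcongr
          _ ≤ A * ((S * v) * u * v) := by gcongr
      calc ((i - 1 : ℕ) : ℝ) * i * (|p i 0| * |T s 0 (i + 1) x|) ≤ (n * n) * (A * ((S * v) * u * v)) := by
            gcongr
        _ = n ^ 2 * A * (((S * v) * u + 0 + 0) * v) := by ring
        _ ≤ n ^ 2 * A * (((S * v) * u + 2 * |τ| * (S * v) + τ ^ 2) * v) := by gcongr <;> positivity
  · have e2 : V i m = 0 := by rw [hV]; simp [Nat.pos_iff_ne_zero.1 hm1]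
    rw [e2, sub_zero]
    have e1 : U i m = τ ^ 2 * (m * ((m - 1 : ℕ) : ℝ)) * (p i m * T s (m - 1 - 1) (i - 1) x) -
        (2 * τ * (m * ((i - 1 : ℕ) : ℝ))) * (p i m * T s (m - 1) i x) +
        (((i - 1 : ℕ) : ℝ) * i) * (p i m * T s m (i + 1) x) := by
      rw [hU]
      simp only [hii]
      ring
    rw [e1]
    have g1 : |τ ^ 2 * (m * ((m - 1 : ℕ) : ℝ)) * (p i m * T s (m - 1 - 1) (i - 1) x)| ≤ n ^ 2 * A * (τ ^ 2 * v) := by
      rcases Nat.lt_or_ge m 2 with hm2 | hm2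
      · have : m = 1 := by omega
        rw [this]
        simp only [Nat.sub_self, Nat.cast_zero, mul_zero, zero_mul, abs_zero]
        positivity
      · have f1 := T_bd hX hv hx hs (m - 1 - 1) (i - 1)
        have f2 : |p i m| * |T s (m - 1 - 1) (i - 1) x| ≤ A * v := by
          calc |p i m| * |T s (m - 1 - 1) (i - 1) x| ≤ (A * S ^ (i - m)) * (b ^ (m - 1 - 1) * v ^ (i - 1)) :=
                mul_le_mul hp1 f1 (abs_nonneg _) (by positivity)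
            _ = A * (S ^ (i - m) * b ^ (m - 1 - 1) * v ^ (i - 1)) := by ring
            _ ≤ _ := mul_le_mul_of_nonneg_left (Lc hS hv0 hSv hb0 hb hi2 hm2) hA
        rw [abs_mul, abs_mul, abs_mul, abs_mul, Nat.abs_cast, Nat.abs_cast, abs_pow, sq_abs]
        calc τ ^ 2 * (m * ((m - 1 : ℕ) : ℝ)) * (|p i m| * |T s (m - 1 - 1) (i - 1) x|) ≤ τ ^ 2 * (n * n) * (A * v) := by
              gcongr
          _ = _ := by ring
    have g2 : |(2 * τ * (m * ((i - 1 : ℕ) : ℝ))) * (p i m * T s (m - 1) i x)| ≤ n ^ 2 * A * (2 * |τ| * (S * v) * v) := by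
      have f1 := T_bd hX hv hx hs (m - 1) i
      have f3 : v ^ i = v ^ (i - 1) * v := by rw [← pow_succ]; congr 1; omega
      have f2 : |p i m| * |T s (m - 1) i x| ≤ A * (S * v * v) := by
        calc |p i m| * |T s (m - 1) i x| ≤ (A * S ^ (i - m)) * (b ^ (m - 1) * v ^ i) :=
              mul_le_mul hp1 f1 (abs_nonneg _) (by positivity)
          _ = A * ((S ^ (i - m) * b ^ (m - 1) * v ^ (i - 1)) * v) := by rw [f3]; ring
          _ ≤ _ := by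
              have := La hS hv0 hSv hb0 hb hi2 hm1
              gcongr
      rw [abs_mul, abs_mul, abs_mul, abs_mul, abs_mul, Nat.abs_cast, Nat.abs_cast, abs_two]
      calc 2 * |τ| * (m * ((i - 1 : ℕ) : ℝ)) * (|p i m| * |T s (m - 1) i x|) ≤ 2 * |τ| * (n * n) * (A * (S * v * v)) := by
            gcongr
        _ = _ := by ring
    have g3 : |(((i - 1 : ℕ) : ℝ) * i) * (p i m * T s m (i + 1) x)| ≤ n ^ 2 * A * ((S * v) * u * v) := by
      have f1 := T_bd hX hv hx hs m (i + 1)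
      have f3 : v ^ (i + 1) = v ^ (i - 1) * v * v := by
        rw [mul_assoc, ← pow_two, ← pow_add]; congr 1; omega
      have f4 : b ^ m = b ^ (m - 1) * b := by rw [← pow_succ]; congr 1; omega
      have f2 : |p i m| * |T s m (i + 1) x| ≤ A * ((S * v) * u * v) := by
        calc |p i m| * |T s m (i + 1) x| ≤ (A * S ^ (i - m)) * (b ^ m * v ^ (i + 1)) :=
              mul_le_mul hp1 f1 (abs_nonneg _) (by positivity)
          _ = A * ((S ^ (i - m) * b ^ (m - 1) * v ^ (i - 1)) * (b * v) * v) := by rw [f3, f4]; ring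
          _ ≤ A * ((S * v) * (b * v) * v) := by
              have := La hS hv0 hSv hb0 hb hi2 hm1
              gcongr
          _ = _ := by rw [hu]
      rw [abs_mul, abs_mul, abs_mul, Nat.abs_cast, Nat.abs_cast]
      calc ((i - 1 : ℕ) : ℝ) * i * (|p i m| * |T s m (i + 1) x|) ≤ (n * n) * (A * ((S * v) * u * v)) := by
            gcongr
        _ = _ := by ring
    refine (abs_add_le _ _).trans ?_
    have g4 := (abs_sub (τ ^ 2 * (m * ((m - 1 : ℕ) : ℝ)) * (p i m * T s (m - 1 - 1) (i - 1) x))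
      ((2 * τ * (m * ((i - 1 : ℕ) : ℝ))) * (p i m * T s (m - 1) i x)))
    calc _ ≤ n ^ 2 * A * (τ ^ 2 * v) + n ^ 2 * A * (2 * |τ| * (S * v) * v) + n ^ 2 * A * ((S * v) * u * v) := by
          linarith
      _ = _ := by ring

end bounds

private theorem step1 {K W D τ u z : ℝ} (hK : 2 ≤ K) (hW : 0 ≤ W) (hu : 0 ≤ u) (hD : 1 ≤ K * |D|)
    (h : |D| * |τ| ≤ 2 * K * u + W * (|τ| * z + u)) (hs : 2 * K * W * z ≤ 1) :
    |τ| ≤ 2 * K * (2 * K + W) * u := by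
  have h0 := abs_nonneg τ
  have h1 : |τ| ≤ K * (|D| * |τ|) := by
    calc |τ| = 1 * |τ| := (one_mul _).symm
      _ ≤ (K * |D|) * |τ| := mul_le_mul_of_nonneg_right hD h0
      _ = _ := by ring
  have h2 : K * (|D| * |τ|) ≤ K * (2 * K * u + W * (|τ| * z + u)) :=
    mul_le_mul_of_nonneg_left h (by linarith)
  have h3 : (2 * K * W * z) * |τ| ≤ 1 * |τ| := mul_le_mul_of_nonneg_right hs h0
  nlinarith

/-- the main term wins -/
private theorem step2 {r : ℕ} {a P X x v Z M Er : ℝ} (hX : 0 < X) (hv : v = X⁻¹) (hx : X ≤ x) (hx2 : x ≤ 2 * X) (hr : 3 ≤ r)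
    (hP : |P - ((r - 1 : ℕ) : ℝ) * r * a * (x ^ (r + 1))⁻¹| ≤ Er) (hEr : 2 ^ (r + 1) * Er ≤ |a| * v ^ (r + 1))
    (hZ : 0 ≤ Z) (hPM : |P| * Z ≤ M) : |a| * v ^ (r + 1) * Z ≤ 2 ^ (r + 1) * M := by
  have hx0 : 0 < x := hX.trans_le hx
  have hv0 : 0 < v := by rw [hv]; positivity
  have h2 : (0 : ℝ) < 2 ^ (r + 1) := by positivity
  have e1 : v ^ (r + 1) ≤ 2 ^ (r + 1) * (x ^ (r + 1))⁻¹ := by
    rw [hv, inv_pow, ← div_eq_mul_inv, inv_eq_one_div, div_le_div_iff₀ (by positivity) (by positivity), one_mul, ← mul_pow]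
    exact pow_le_pow_left₀ hx0.le hx2 _
  have e2 : (6 : ℝ) ≤ ((r - 1 : ℕ) : ℝ) * r := by
    have f1 : (2 : ℝ) ≤ ((r - 1 : ℕ) : ℝ) := by exact_mod_cast (by omega : 2 ≤ r - 1)
    have f2 : (3 : ℝ) ≤ r := by exact_mod_cast hr
    nlinarith
  have e3 : |((r - 1 : ℕ) : ℝ) * r * a * (x ^ (r + 1))⁻¹| = ((r - 1 : ℕ) : ℝ) * r * (|a| * (x ^ (r + 1))⁻¹) := by
    rw [abs_mul, abs_mul, abs_mul, Nat.abs_cast, Nat.abs_cast, abs_of_pos (inv_pos.2 (pow_pos hx0 _))]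
    ring
  have e4 : 6 * (|a| * (x ^ (r + 1))⁻¹) ≤ |P| + Er := by
    have f1 : |((r - 1 : ℕ) : ℝ) * r * a * (x ^ (r + 1))⁻¹| ≤ |P| + Er := by
      have := abs_sub_abs_le_abs_sub (((r - 1 : ℕ) : ℝ) * r * a * (x ^ (r + 1))⁻¹) P
      rw [abs_sub_comm] at this
      linarith
    rw [e3] at f1
    refine le_trans ?_ f1
    exact mul_le_mul_of_nonneg_right e2 (by positivity)
  have e5 : |a| * v ^ (r + 1) ≤ 2 ^ (r + 1) * (|a| * (x ^ (r + 1))⁻¹) := by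
    have := mul_le_mul_of_nonneg_left e1 (abs_nonneg a)
    linarith
  have e6 : |a| * v ^ (r + 1) ≤ 2 ^ (r + 1) * |P| := by
    have f1 : 6 * (|a| * v ^ (r + 1)) ≤ 2 ^ (r + 1) * (6 * (|a| * (x ^ (r + 1))⁻¹)) := by linarith
    have f2 : 2 ^ (r + 1) * (6 * (|a| * (x ^ (r + 1))⁻¹)) ≤ 2 ^ (r + 1) * (|P| + Er) :=
      mul_le_mul_of_nonneg_left e4 h2.le
    have f3 : 0 ≤ |a| * v ^ (r + 1) := by positivity
    nlinarith
  calc |a| * v ^ (r + 1) * Z ≤ 2 ^ (r + 1) * |P| * Z := mul_le_mul_of_nonneg_right e6 hZ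
    _ = 2 ^ (r + 1) * (|P| * Z) := by ring
    _ ≤ _ := mul_le_mul_of_nonneg_left hPM h2.le

/-- convexity -/
private theorem conv {s : ℝ → ℝ} {τ b c x₀ x₂ x : ℝ} (hs : ∀ x, s x = c + τ * (x - x₀)) (d02 : 0 < x₂ - x₀)
    (e0 : |s x₀| ≤ b) (e2 : |s x₂| ≤ b) (hx : x ∈ Set.Icc x₀ x₂) : |s x| ≤ b := by
  have key : (x₂ - x₀) * s x = (x₂ - x) * s x₀ + (x - x₀) * s x₂ := by
    rw [hs x, hs x₀, hs x₂]
    ring
  have h1 : 0 ≤ x₂ - x := sub_nonneg.2 hx.2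
  have h2 : 0 ≤ x - x₀ := sub_nonneg.2 hx.1
  have h3 : (x₂ - x₀) * |s x| ≤ (x₂ - x₀) * b := by
    calc (x₂ - x₀) * |s x| = |(x₂ - x₀) * s x| := by rw [abs_mul, abs_of_pos d02]
      _ ≤ |(x₂ - x) * s x₀| + |(x - x₀) * s x₂| := by rw [key]; exact abs_add_le _ _
      _ = (x₂ - x) * |s x₀| + (x - x₀) * |s x₂| := by
        rw [abs_mul, abs_mul, abs_of_nonneg h1, abs_of_nonneg h2]
      _ ≤ (x₂ - x) * b + (x - x₀) * b :=
        add_le_add (mul_le_mul_of_nonneg_left e0 h1) (mul_le_mul_of_nonneg_left e2 h2)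
      _ = _ := by ring
  exact le_of_mul_le_mul_left h3 d02

/-- the constants -/
private theorem consts {K : ℝ} (hK : 2 ≤ K) (n κ₀ κ₁ r : ℕ) (hrn : r + 3 ≤ n) {W C A Q : ℝ} (hA : A = K ^ κ₀) (hQ : Q = K ^ κ₁)
    (hW : W = ((n : ℝ) + 1) ^ 2 * (n * A)) (hC : C = 2 * K * (2 * K + W)) :
    2 * K * W ≤ K ^ (11 * n + 3 * κ₀ + 2 * κ₁ + 14) ∧ Q ≤ K ^ (11 * n + 3 * κ₀ + 2 * κ₁ + 14) ∧
    2 ^ (r + 1) * (((n : ℝ) + 1) ^ 2 * (n ^ 2 * A * ((C + 1) ^ 2 * (2 * Q ^ 2)))) ≤ K ^ (11 * n + 3 * κ₀ + 2 * κ₁ + 14) ∧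
    2 ^ (r + 1) * (4 * K) ≤ K ^ (11 * n + 3 * κ₀ + 2 * κ₁ + 14) := by
  have hK1 : 1 ≤ K := by linarith
  have hK0 : 0 < K := by linarith
  have hmono : ∀ {x y : ℕ}, x ≤ y → K ^ x ≤ K ^ y := fun h => pow_le_pow_right₀ hK1 h
  have hn1 := n_le_pow hK n
  have hn0 : (0 : ℝ) ≤ n := Nat.cast_nonneg n
  have hnn : (n : ℝ) ≤ K ^ n := by linarith
  have h2r : (2 : ℝ) ^ (r + 1) ≤ K ^ n :=
    (pow_le_pow_left₀ (by norm_num) hK _).trans (hmono (by omega))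
  have hA0 : 0 < A := by rw [hA]; positivity
  have hQ0 : 0 < Q := by rw [hQ]; positivity
  have h4 : (4 : ℝ) ≤ K ^ 2 := by nlinarith
  have h8 : (8 : ℝ) ≤ K ^ 3 := by nlinarith [pow_pos hK0 2]
  have hWb : W ≤ K ^ (3 * n + κ₀) := by
    rw [hW, hA]
    calc ((n : ℝ) + 1) ^ 2 * (n * K ^ κ₀) ≤ (K ^ n) ^ 2 * (K ^ n * K ^ κ₀) := by gcongr
      _ = K ^ (3 * n + κ₀) := by ring
  have hW0 : 0 ≤ W := by rw [hW]; positivity
  have hCb : C + 1 ≤ K ^ (3 * n + κ₀ + 6) := by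
    have e1 : 2 * K + W ≤ 2 * K ^ (3 * n + κ₀ + 2) := by
      have f1 : 2 * K ≤ K ^ 2 := by nlinarith
      have f2 : K ^ 2 ≤ K ^ (3 * n + κ₀ + 2) := hmono (by omega)
      have f3 : K ^ (3 * n + κ₀) ≤ K ^ (3 * n + κ₀ + 2) := hmono (by omega)
      linarith
    have e2 : C ≤ 4 * K ^ (3 * n + κ₀ + 3) := by
      rw [hC]
      calc 2 * K * (2 * K + W) ≤ 2 * K * (2 * K ^ (3 * n + κ₀ + 2)) := by gcongr
        _ = 4 * K ^ (3 * n + κ₀ + 3) := by ring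
    have e3 : (1 : ℝ) ≤ K ^ (3 * n + κ₀ + 3) := one_le_pow₀ hK1
    calc C + 1 ≤ 5 * K ^ (3 * n + κ₀ + 3) := by linarith
      _ ≤ K ^ 3 * K ^ (3 * n + κ₀ + 3) := by
          have : (5 : ℝ) ≤ K ^ 3 := by linarith
          gcongr
      _ = _ := by ring
  have hC0 : 0 ≤ C := by rw [hC]; positivity
  refine ⟨?_, ?_, ?_, ?_⟩
  · calc 2 * K * W ≤ K * K * K ^ (3 * n + κ₀) := by gcongr
      _ = K ^ (3 * n + κ₀ + 2) := by ring
      _ ≤ _ := hmono (by omega)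
  · rw [hQ]
    exact hmono (by omega)
  · calc 2 ^ (r + 1) * (((n : ℝ) + 1) ^ 2 * (n ^ 2 * A * ((C + 1) ^ 2 * (2 * Q ^ 2))))
        ≤ K ^ n * ((K ^ n) ^ 2 * ((K ^ n) ^ 2 * K ^ κ₀ * ((K ^ (3 * n + κ₀ + 6)) ^ 2 * (K * (K ^ κ₁) ^ 2)))) := by
          rw [hA, hQ]
          gcongr
      _ = K ^ (11 * n + 3 * κ₀ + 2 * κ₁ + 13) := by
          rw [← pow_mul, ← pow_mul, ← pow_mul]
          ring
      _ ≤ _ := hmono (by omega)
  · calc 2 ^ (r + 1) * (4 * K) ≤ K ^ n * (K ^ 2 * K) := by gcongr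
      _ = K ^ (n + 3) := by ring
      _ ≤ _ := hmono (by omega)

theorem cug_ex (n κ₀ κ₁ : ℕ) (h₀ : ExgS n κ₀) (h₁ : NarS n κ₁) : CugS n (11 * n + 3 * κ₀ + 2 * κ₁ + 14) := by
  intro K S H hK hS hH e t r hC hV X hX1 hX2 x₀ x₁ x₂ y₀ y₁ y₂ N0 N1 N2 d01 d12 hcol
  obtain ⟨hq, -, h00, h10, h11, hexp⟩ := h₀ K S hK hS e t hC
  have hK1 : 1 ≤ K := by linarith
  have hK0 : 0 < K := by linarith
  have hSH := vr_SH hS hV
  have hr3 := hV.r3
  have hrn := hV.rn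
  obtain ⟨A, hA⟩ : ∃ A : ℝ, A = K ^ κ₀ := ⟨_, rfl⟩
  obtain ⟨Q, hQ⟩ : ∃ Q : ℝ, Q = K ^ κ₁ := ⟨_, rfl⟩
  obtain ⟨W, hW⟩ : ∃ W : ℝ, W = ((n : ℝ) + 1) ^ 2 * (n * A) := ⟨_, rfl⟩
  obtain ⟨C, hCd⟩ : ∃ C : ℝ, C = 2 * K * (2 * K + W) := ⟨_, rfl⟩
  obtain ⟨c1, c2, c3, c4⟩ := consts hK n κ₀ κ₁ r hrn hA hQ hW hCd
  obtain ⟨L, hL⟩ : ∃ L : ℝ, L = K ^ (11 * n + 3 * κ₀ + 2 * κ₁ + 14) := ⟨_, rfl⟩
  rw [← hL] at c1 c2 c3 c4 hX1 hX2 ⊢
  have hA1 : 1 ≤ A := by rw [hA]; exact one_le_pow₀ hK1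
  have hQ1 : 1 ≤ Q := by rw [hQ]; exact one_le_pow₀ hK1
  have hW0 : 0 ≤ W := by rw [hW]; positivity
  have hC0 : 0 ≤ C := by rw [hCd]; positivity
  have hL1 : 1 ≤ L := hQ1.trans c2
  have hH2 : H ≤ H ^ 2 := le_self_pow₀ hH (by norm_num)
  have hX0 : 0 < X := lt_of_lt_of_le (by positivity) hX2
  have hXH : L * H ≤ X := (mul_le_mul_of_nonneg_left hH2 (by linarith)).trans hX2
  have hX1' : 1 ≤ X := by
    refine le_trans ?_ hXH
    nlinarith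
  have hQX : Q * H ≤ X := (mul_le_mul_of_nonneg_right c2 (by linarith)).trans hXH
  have hSX : S ≤ X := by
    refine le_trans ?_ hXH
    nlinarith
  obtain ⟨v, hv⟩ : ∃ v : ℝ, v = X⁻¹ := ⟨_, rfl⟩
  have hv0 : 0 < v := by rw [hv]; positivity
  have hXv : X * v = 1 := by rw [hv]; exact mul_inv_cancel₀ hX0.ne'
  have hv1 : v ≤ 1 := by
    rw [hv]
    exact inv_le_one_of_one_le₀ hX1'
  have hSv : S * v ≤ 1 := by
    rw [← hXv]
    exact mul_le_mul_of_nonneg_right hSX hv0.le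
  -- the function `σ`
  have n0 := h₁ K S H hK hS hH e t r hC hV X (by rw [← hQ]; exact hQX) x₀ y₀ N0
  have n2 := h₁ K S H hK hS hH e t r hC hV X (by rw [← hQ]; exact hQX) x₂ y₂ N2
  rw [← hQ] at n0 n2
  obtain ⟨b, hb⟩ : ∃ b : ℝ, b = Q * H * v ^ (r - 1) := ⟨_, rfl⟩
  have hbe : Q * H / X ^ (r - 1) = b := by rw [hb, hv, inv_pow, div_eq_mul_inv]
  rw [hbe] at n0 n2
  have hb0 : 0 ≤ b := by rw [hb]; positivity
  have hb1 : b ≤ 1 := by
    have e1 : v ^ (r - 1) ≤ v := pow_le_of_le_one hv0.le hv1 (by omega)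
    calc b = Q * H * v ^ (r - 1) := hb
      _ ≤ X * v := mul_le_mul hQX e1 (by positivity) hX0.le
      _ = 1 := hXv
  obtain ⟨u, hu⟩ : ∃ u : ℝ, u = b * v := ⟨_, rfl⟩
  have hu0 : 0 ≤ u := by rw [hu]; positivity
  have hur : u = Q * H * v ^ r := by
    rw [hu, hb, mul_assoc, ← pow_succ]
    congr 2
    omega
  have hHu : H * v ^ r ≤ u := by
    rw [hur]
    have : H ≤ Q * H := by nlinarith
    gcongr
  have d02 : 0 < x₂ - x₀ := by linarith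
  obtain ⟨τ, hτ⟩ : ∃ τ : ℝ, τ * (x₂ - x₀) = (y₂ - t * x₂ - be n e t) - (y₀ - t * x₀ - be n e t) :=
    ⟨_, div_mul_cancel₀ _ d02.ne'⟩
  obtain ⟨s, hs⟩ : ∃ s : ℝ → ℝ, ∀ x, s x = (y₀ - t * x₀ - be n e t) + τ * (x - x₀) := ⟨fun x => _, fun x => rfl⟩
  have s0 : s x₀ = y₀ - t * x₀ - be n e t := by rw [hs]; ring
  have s2 : s x₂ = y₂ - t * x₂ - be n e t := by rw [hs]; linarith
  have s1 : s x₁ = y₁ - t * x₁ - be n e t := by
    rw [hs]
    have e1 : (x₂ - x₀) * (τ * (x₁ - x₀)) = (x₂ - x₀) * ((y₁ - t * x₁ - be n e t) - (y₀ - t * x₀ - be n e t)) := by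
      calc (x₂ - x₀) * (τ * (x₁ - x₀)) = (τ * (x₂ - x₀)) * (x₁ - x₀) := by ring
        _ = ((y₂ - t * x₂ - be n e t) - (y₀ - t * x₀ - be n e t)) * (x₁ - x₀) := by rw [hτ]
        _ = _ := by linear_combination hcol
    have e2 := mul_left_cancel₀ d02.ne' e1
    linarith
  rw [← s0] at n0
  rw [← s2] at n2
  have hsd : ∀ x, HasDerivAt s τ x := by
    intro x
    have e1 : s = fun x => (y₀ - t * x₀ - be n e t) + τ * (x - x₀) := funext hs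
    rw [e1]
    refine ((((hasDerivAt_id x).sub_const x₀).const_mul τ).const_add _).congr_deriv ?_
    ring
  have hin : ∀ x ∈ Set.Icc x₀ x₂, X ≤ x ∧ x ≤ 2 * X := fun x hx => ⟨N0.1.trans hx.1, hx.2.trans N2.2.1⟩
  have hsb : ∀ x ∈ Set.Icc x₀ x₂, |s x| ≤ b := fun x hx => conv hs d02 n0 n2 hx
  obtain ⟨D, hD⟩ : ∃ D : ℝ, D = aeval t (derivative (fm e n)) := ⟨_, rfl⟩
  rw [← hD] at h11
  have hDr := hC.dr
  rw [← hD] at hDr
  have hKD : 1 ≤ K * |D| := by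
    have := mul_le_mul_of_nonneg_left hDr hK0.le
    rwa [mul_one_div_cancel hK0.ne'] at this
  have hn2 : 2 ≤ n := by omega
  have hne : ∀ x ∈ Set.Icc x₀ x₂, x ≠ 0 := fun x hx => by have := (hin x hx).1; linarith
  have hp : ∀ i m, m ≤ i → i ≤ n → |pp n e t i m| ≤ A * S ^ (i - m) := by rw [hA]; exact hq
  have hz : ∀ i, 2 ≤ i → i < r → pp n e t i 0 = 0 := hV.z
  -- values of `ψ`
  obtain ⟨M, hM⟩ : ∃ M : ℝ, M = K * H * v ^ (n - 2) := ⟨_, rfl⟩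
  have hM0 : 0 ≤ M := by rw [hM]; positivity
  have hpsv : ∀ x y, Nq n K H X e t x y → s x = y - t * x - be n e t → |ps (pp n e t) n D s x| ≤ M := by
    intro x y hN hsx
    obtain ⟨g1, g2, -, g4⟩ := hN
    have hx0 : 0 < x := hX0.trans_le g1
    have e1 := hexp x (s x)
    rw [ev_eq hn2 hx0.ne' h00 h10 h11] at e1
    have e2 : t * x + be n e t + s x = y := by rw [hsx]; ring
    rw [e2] at e1
    rw [e1, abs_mul, abs_of_pos (pow_pos hx0 _)] at g4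
    have e3 : X ^ (n - 1) ≤ x ^ (n - 1) := pow_le_pow_left₀ hX0.le g1 _
    have e4 : X ^ (n - 1) * |ps (pp n e t) n D s x| ≤ K * H * X :=
      (mul_le_mul_of_nonneg_right e3 (abs_nonneg _)).trans g4
    have e5 : X ^ (n - 1) * M = K * H * X := by
      have f1 : X ^ (n - 1) = X * X ^ (n - 2) := by rw [← pow_succ']; congr 1; omega
      have f2 : X ^ (n - 2) * v ^ (n - 2) = 1 := by rw [← mul_pow, hXv, one_pow]
      rw [hM, f1]
      calc X * X ^ (n - 2) * (K * H * v ^ (n - 2)) = K * H * X * (X ^ (n - 2) * v ^ (n - 2)) := by ring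
        _ = K * H * X := by rw [f2, mul_one]
    rw [← e5] at e4
    exact le_of_mul_le_mul_left e4 (pow_pos hX0 _)
  have m0 := hpsv x₀ y₀ N0 s0
  have m1 := hpsv x₁ y₁ N1 s1
  have m2 := hpsv x₂ y₂ N2 s2
  have hMu : M ≤ K * u := by
    rw [hM, hur]
    have e1 : v ^ (n - 2) ≤ v ^ r := pow_le_pow_of_le_one hv0.le hv1 (by omega)
    calc K * H * v ^ (n - 2) ≤ K * H * v ^ r := by gcongr
      _ = K * (1 * H * v ^ r) := by ring
      _ ≤ K * (Q * H * v ^ r) := by gcongr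
  -- the derivative
  obtain ⟨ξ, hξ, hξe⟩ := exists_hasDerivAt_eq_slope (ps (pp n e t) n D s) (ps1 (pp n e t) n D s τ) (a := x₀) (b := x₂) (by linarith)
    (fun x hx => (ps_deriv (hsd x) (hne x hx)).continuousAt.continuousWithinAt)
    (fun x hx => ps_deriv (hsd x) (hne x ⟨hx.1.le, hx.2.le⟩))
  have hξ' : ξ ∈ Set.Icc x₀ x₂ := ⟨hξ.1.le, hξ.2.le⟩
  have k1 : |ps1 (pp n e t) n D s τ ξ| ≤ 2 * K * u := by
    rw [hξe, abs_div, abs_of_pos d02, div_le_iff₀ d02]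
    have e1 := abs_sub (ps (pp n e t) n D s x₂) (ps (pp n e t) n D s x₀)
    have e2 : 1 ≤ x₂ - x₀ := by linarith
    have e3 : 0 ≤ 2 * K * u := by positivity
    nlinarith
  have k2 := b1 (r := r) (H := H) (D := D) (τ := τ) (by linarith : 0 ≤ A) hS hX0 hv hSv hb1 (hin ξ hξ').1 (hsb ξ hξ') hu hHu hV.pw hp hz
  have k3 : |D| * |τ| ≤ 2 * K * u + W * (|τ| * (S * v) + u) := by
    rw [← abs_mul]
    have e1 : D * τ = ps1 (pp n e t) n D s τ ξ - (ps1 (pp n e t) n D s τ ξ - D * τ) := by ring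
    have e2 : ((n : ℝ) + 1) ^ 2 * (n * A * (|τ| * (S * v) + u)) = W * (|τ| * (S * v) + u) := by rw [hW]; ring
    rw [e2] at k2
    rw [e1]
    exact (abs_sub _ _).trans (add_le_add k1 k2)
  have k4 : 2 * K * W * (S * v) ≤ 1 := by
    calc 2 * K * W * (S * v) ≤ L * (H * v) := by gcongr
      _ = (L * H) * v := by ring
      _ ≤ X * v := by gcongr
      _ = 1 := hXv
  have hτb := step1 hK hW0 hu0 hKD k3 k4
  rw [← hCd] at hτb
  -- the second derivative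
  obtain ⟨ζ, hζ, hζe⟩ := dd2 (f := ps (pp n e t) n D s) (f1 := ps1 (pp n e t) n D s τ) (f2 := ps2 (pp n e t) n s τ)
    (by linarith : x₀ < x₁) (by linarith : x₁ < x₂) (fun x hx => ps_deriv (hsd x) (hne x hx))
    (fun x hx => ps1_deriv (hsd x) (hne x hx))
  have k5 := b2 (r := r) (H := H) (τ := τ) (by linarith : 0 ≤ A) hS hX0 hv hSv hb1 (hin ζ hζ).1 (hsb ζ hζ) hu hHu hV.pw
    (by omega) (by omega) hp hz
  obtain ⟨Er, hEr⟩ : ∃ Er : ℝ, Er = ((n : ℝ) + 1) ^ 2 * (n ^ 2 * A * (((S * v) * u + 2 * |τ| * (S * v) + τ ^ 2) * v)) := ⟨_, rfl⟩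
  rw [← hEr] at k5
  have k6 : Er ≤ ((n : ℝ) + 1) ^ 2 * (n ^ 2 * A * ((C + 1) ^ 2 * (2 * Q ^ 2))) * (H ^ 2 * v ^ (r + 2)) := by
    have e1 : (S * v) * u + 2 * |τ| * (S * v) + τ ^ 2 ≤ (C + 1) ^ 2 * ((S * v) * u + u ^ 2) := by
      have f1 : τ ^ 2 ≤ (C * u) ^ 2 := by
        rw [← sq_abs]
        exact pow_le_pow_left₀ (abs_nonneg _) hτb 2
      have f2 : 2 * |τ| * (S * v) ≤ 2 * (C * u) * (S * v) := by gcongr
      have f3 : 0 ≤ (S * v) * u := by positivity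
      have f4 : 0 ≤ u ^ 2 := by positivity
      nlinarith [mul_nonneg (mul_nonneg hC0 hC0) f3, mul_nonneg hC0 f4]
    have e2 : (S * v) * u + u ^ 2 ≤ 2 * Q ^ 2 * (H ^ 2 * v ^ (r + 1)) := by
      have f1 : (S * v) * u ≤ Q ^ 2 * (H ^ 2 * v ^ (r + 1)) := by
        rw [hur]
        have g1 : Q ≤ Q ^ 2 := le_self_pow₀ hQ1 (by norm_num)
        calc (S * v) * (Q * H * v ^ r) ≤ (H * v) * (Q ^ 2 * H * v ^ r) := by gcongr
          _ = _ := by ring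
      have f2 : u ^ 2 ≤ Q ^ 2 * (H ^ 2 * v ^ (r + 1)) := by
        rw [hur]
        have g1 : v ^ (r * 2) ≤ v ^ (r + 1) := pow_le_pow_of_le_one hv0.le hv1 (by omega)
        calc (Q * H * v ^ r) ^ 2 = Q ^ 2 * (H ^ 2 * v ^ (r * 2)) := by rw [pow_mul]; ring
          _ ≤ _ := by gcongr
      linarith
    rw [hEr]
    calc ((n : ℝ) + 1) ^ 2 * (n ^ 2 * A * (((S * v) * u + 2 * |τ| * (S * v) + τ ^ 2) * v))
        ≤ ((n : ℝ) + 1) ^ 2 * (n ^ 2 * A * (((C + 1) ^ 2 * (2 * Q ^ 2 * (H ^ 2 * v ^ (r + 1)))) * v)) := by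
          have f1 : (S * v) * u + 2 * |τ| * (S * v) + τ ^ 2 ≤ (C + 1) ^ 2 * (2 * Q ^ 2 * (H ^ 2 * v ^ (r + 1))) :=
            e1.trans (mul_le_mul_of_nonneg_left e2 (by positivity))
          gcongr
      _ = _ := by ring
  have k7 : 2 ^ (r + 1) * Er ≤ |pp n e t r 0| * v ^ (r + 1) := by
    calc 2 ^ (r + 1) * Er ≤ 2 ^ (r + 1) * (((n : ℝ) + 1) ^ 2 * (n ^ 2 * A * ((C + 1) ^ 2 * (2 * Q ^ 2))) * (H ^ 2 * v ^ (r + 2))) := by
          gcongr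
      _ = (2 ^ (r + 1) * (((n : ℝ) + 1) ^ 2 * (n ^ 2 * A * ((C + 1) ^ 2 * (2 * Q ^ 2))))) * (H ^ 2 * v ^ (r + 2)) := by ring
      _ ≤ L * (H ^ 2 * v ^ (r + 2)) := by gcongr
      _ = (L * H ^ 2) * (v * v ^ (r + 1)) := by ring
      _ ≤ (|Ac n e t r| * X) * (v * v ^ (r + 1)) := by gcongr
      _ = |Ac n e t r| * (X * v) * v ^ (r + 1) := by ring
      _ = _ := by rw [hXv, mul_one]; rfl
  have d10 : 0 < x₁ - x₀ := by linarith
  have d21 : 0 < x₂ - x₁ := by linarith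
  have k8 : |ps2 (pp n e t) n s τ ζ| * ((x₁ - x₀) * (x₂ - x₁)) ≤ 4 * M := by
    have e1 : |ps2 (pp n e t) n s τ ζ * ((x₁ - x₀) * (x₂ - x₁) * (x₂ - x₀))| ≤ 4 * M * (x₂ - x₀) := by
      rw [hζe, abs_mul, abs_two]
      have f1 : |ps (pp n e t) n D s x₀ * (x₂ - x₁)| ≤ M * (x₂ - x₁) := by
        rw [abs_mul, abs_of_pos d21]
        exact mul_le_mul_of_nonneg_right m0 d21.le
      have f2 : |ps (pp n e t) n D s x₁ * (x₂ - x₀)| ≤ M * (x₂ - x₀) := by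
        rw [abs_mul, abs_of_pos d02]
        exact mul_le_mul_of_nonneg_right m1 d02.le
      have f3 : |ps (pp n e t) n D s x₂ * (x₁ - x₀)| ≤ M * (x₁ - x₀) := by
        rw [abs_mul, abs_of_pos d10]
        exact mul_le_mul_of_nonneg_right m2 d10.le
      have f4 := abs_add_le (ps (pp n e t) n D s x₀ * (x₂ - x₁) - ps (pp n e t) n D s x₁ * (x₂ - x₀)) (ps (pp n e t) n D s x₂ * (x₁ - x₀))
      have f5 := abs_sub (ps (pp n e t) n D s x₀ * (x₂ - x₁)) (ps (pp n e t) n D s x₁ * (x₂ - x₀))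
      linarith
    rw [abs_mul, abs_of_pos (by positivity : 0 < (x₁ - x₀) * (x₂ - x₁) * (x₂ - x₀))] at e1
    have e2 : (|ps2 (pp n e t) n s τ ζ| * ((x₁ - x₀) * (x₂ - x₁))) * (x₂ - x₀) ≤ 4 * M * (x₂ - x₀) := by
      calc _ = |ps2 (pp n e t) n s τ ζ| * ((x₁ - x₀) * (x₂ - x₁) * (x₂ - x₀)) := by ring
        _ ≤ _ := e1
    exact le_of_mul_le_mul_right e2 d02
  have k9 := step2 hX0 hv (hin ζ hζ).1 (hin ζ hζ).2 hr3 k5 k7 (by positivity : 0 ≤ (x₁ - x₀) * (x₂ - x₁)) k8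
  -- conclusion
  have hvr : 0 < v ^ (r + 1) := pow_pos hv0 _
  have e1 : v ^ (r + 1) * (|Ac n e t r| * ((x₁ - x₀) * (x₂ - x₁))) ≤ v ^ (r + 1) * (L * H) := by
    calc v ^ (r + 1) * (|Ac n e t r| * ((x₁ - x₀) * (x₂ - x₁))) = |pp n e t r 0| * v ^ (r + 1) * ((x₁ - x₀) * (x₂ - x₁)) := by
          unfold Ac
          ring
      _ ≤ 2 ^ (r + 1) * (4 * M) := k9
      _ = (2 ^ (r + 1) * (4 * K)) * (H * v ^ (n - 2)) := by rw [hM]; ring
      _ ≤ L * (H * v ^ (r + 1)) := by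
          have f1 : v ^ (n - 2) ≤ v ^ (r + 1) := pow_le_pow_of_le_one hv0.le hv1 (by omega)
          gcongr
      _ = _ := by ring
  exact le_of_mul_le_mul_left e1 hvr

end Pool.Agent.H12.TG
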