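import Pool.Agent.H88.TU.Sta
import Pool.Agent.H12.TU.Hy4

/-! # [H12 TG DEF] TSU without the condition on contact at infinity (helper12)

`j ≤ n - 3`, so `n ≥ 6`. `F(x, t x + β + s) = ∑_(i ≤ n) ∑_(m ≤ i) pp n e t i m s^m x^(n-i)`, `β = be n e t`, `Ac n e t i = pp n e t i 0`.
`r` = the first `i ≥ 2` with `Ac n e t i ≠ 0`; `r = 2`: `TU.chr`. Here `r ≥ 3`: all points of all curves of the family at one scale near one asymptote are on ONE line,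
and a fibre over the terms of degree `≥ 2` has `O(1 + (H/|Ac r|)^(1/2))` points at one scale.
`S`: real, `S^r ≤ H`, the size of the coefficients of degree `n - 1` (`Bs n K S e`; in the application `S = H^(1/(n-j))`). -/

namespace Pool.Agent.H12.TG

open Finset Polynomial Pool.Agent.H8.AA Pool.Agent.H88.A2 Pool.Agent.H88.TU

/-- the coefficient of `u^m` in `φ_k(t + u)` -/
noncomputable def hs (e : ℕ → ℕ → ℤ) (t : ℝ) (k m : ℕ) : ℝ :=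
  ∑ l ∈ range (k + 1), (e (k - l) l : ℝ) * (l.choose m : ℝ) * t ^ (l - m)

/-- the coefficient of `s^m x^(n-i)` in `F(x, t x + be + s)` -/
noncomputable def pp (n : ℕ) (e : ℕ → ℕ → ℤ) (t : ℝ) (i m : ℕ) : ℝ :=
  ∑ a ∈ range (i + 1), (a.choose m : ℝ) * hs e t (n + a - i) a * be n e t ^ (a - m)

/-- the coefficient of `x^(n-i)` in `F(x, t x + be)` -/
noncomputable def Ac (n : ℕ) (e : ℕ → ℕ → ℤ) (t : ℝ) (i : ℕ) : ℝ := pp n e t i 0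

/-- `Ac` vanishes below `r` -/
structure Vr (n r : ℕ) (S H : ℝ) (e : ℕ → ℕ → ℤ) (t : ℝ) : Prop where
  r3 : 3 ≤ r
  rn : r + 3 ≤ n
  pw : S ^ r ≤ H
  z : ∀ i, 2 ≤ i → i < r → Ac n e t i = 0

/-- a point near the asymptote where the polynomial is `O(H X)` -/
def Nq (n : ℕ) (K H X : ℝ) (e : ℕ → ℕ → ℤ) (t x y : ℝ) : Prop :=
  X ≤ x ∧ x ≤ 2 * X ∧ |y - t * x - be n e t| ≤ 1 ∧ |evR n e x y| ≤ K * H * X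

/-- EXG: the expansion -/
def ExgS (n κ : ℕ) : Prop :=
    ∀ K S : ℝ, 2 ≤ K → 1 ≤ S → ∀ (e : ℕ → ℕ → ℤ) (t : ℝ), Ct n K S e t →
    (∀ i m, m ≤ i → i ≤ n → |pp n e t i m| ≤ K ^ κ * S ^ (i - m)) ∧ |be n e t| ≤ K ^ κ * S ∧
      pp n e t 0 0 = 0 ∧ pp n e t 1 0 = 0 ∧ pp n e t 1 1 = aeval t (derivative (fm e n)) ∧
      (∀ x s : ℝ, evR n e x (t * x + be n e t + s) =
        ∑ i ∈ range (n + 1), ∑ m ∈ range (i + 1), pp n e t i m * s ^ m * x ^ (n - i))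

/-- NAR: the points are within `O(H X^(1-r))` of the asymptote -/
def NarS (n κ : ℕ) : Prop :=
    ∀ K S H : ℝ, 2 ≤ K → 1 ≤ S → 1 ≤ H → ∀ (e : ℕ → ℕ → ℤ) (t : ℝ) (r : ℕ), Ct n K S e t → Vr n r S H e t →
    ∀ X : ℝ, K ^ κ * H ≤ X → ∀ x y : ℝ, Nq n K H X e t x y → |y - t * x - be n e t| ≤ K ^ κ * H / X ^ (r - 1)

/-- CUG: three collinear points -/
def CugS (n κ : ℕ) : Prop :=
    ∀ K S H : ℝ, 2 ≤ K → 1 ≤ S → 1 ≤ H → ∀ (e : ℕ → ℕ → ℤ) (t : ℝ) (r : ℕ), Ct n K S e t → Vr n r S H e t →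
    ∀ X : ℝ, K ^ κ * H ^ 2 ≤ |Ac n e t r| * X → K ^ κ * H ^ 2 ≤ X → ∀ x₀ x₁ x₂ y₀ y₁ y₂ : ℝ,
      Nq n K H X e t x₀ y₀ → Nq n K H X e t x₁ y₁ → Nq n K H X e t x₂ y₂ → 1 ≤ x₁ - x₀ → 1 ≤ x₂ - x₁ →
      (x₁ - x₀) * (y₂ - y₀) = (x₂ - x₀) * (y₁ - y₀) →
      |Ac n e t r| * ((x₁ - x₀) * (x₂ - x₁)) ≤ K ^ κ * H

/-- C3G: number of integer points at one scale near one asymptote -/
def C3gS (n κ : ℕ) : Prop :=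
    ∀ K S H : ℝ, 2 ≤ K → 1 ≤ S → 1 ≤ H → ∀ (e : ℕ → ℕ → ℤ) (t : ℝ) (r : ℕ), Ct n K S e t → Vr n r S H e t →
    ∀ X : ℝ, K ^ κ * H ^ 2 ≤ |Ac n e t r| * X → K ^ κ * H ^ 2 ≤ X → ∀ T : Finset (ℤ × ℤ),
      (∀ P ∈ T, X ≤ |(P.1 : ℝ)| ∧ |(P.1 : ℝ)| ≤ 2 * X ∧ |(P.2 : ℝ) - t * P.1 - be n e t| ≤ 1 ∧
        |(ev n e P.1 P.2 : ℝ)| ≤ K * H * X) →
      (T.card : ℝ) ≤ K ^ κ * (1 + Real.sqrt (H / |Ac n e t r|))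

/-- the array of a fibre (`G` and the terms of degree `≥ 2` of `L`) -/
structure Fc (n B : ℕ) (S : ℝ) (e : ℕ → ℕ → ℤ) : Prop where
  bs : Bs n B S e
  irr : Irreducible ((fm e n).map (Int.castRingHom ℚ))
  deg : (fm e n).natDegree = n
  gd : Gd n (1 / (B : ℝ)) e

/-- FIG: one fibre -/
def FigS (n κ : ℕ) : Prop :=
    ∀ B H : ℕ, 2 ≤ B → 1 ≤ H → ∀ S : ℝ, 1 ≤ S → S ≤ H → (H : ℝ) ≤ S ^ (n - 1) → ∀ e : ℕ → ℕ → ℤ, Fc n B S e →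
    ∀ g X₁ X₂ : ℝ, 0 < g →
    (∀ t : ℝ, |t| ≤ 2 → aeval t (fm e n) = 0 → ∃ r : ℕ, Vr n r S H e t ∧ g ≤ |Ac n e t r|) →
    (B : ℝ) ^ κ * (H : ℝ) ^ 2 ≤ g * X₁ → (B : ℝ) ^ κ * (H : ℝ) ^ 2 ≤ X₁ → X₁ ≤ X₂ → ∀ T : Finset (Ix 1 → ℤ),
    (∀ c ∈ T, (∀ p, |c p| ≤ (H : ℤ)) ∧ ∃ x y : ℤ, |y| ≤ |x| ∧ X₁ ≤ |(x : ℝ)| ∧ |(x : ℝ)| ≤ X₂ ∧ ev n e x y + ev 1 (co c) x y = 0) →
    (T.card : ℝ) ≤ (B : ℝ) ^ κ * (1 + Real.log X₂) * (1 + Real.sqrt (H / g)) * (2 * (H : ℝ) + 1)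

/-- DIC: a coefficient of `G(x, t x + be)` vanishes for all zeros `t` or is bounded below for all (`D` = `φ_n'(t)`) -/
def DicS (n κ : ℕ) : Prop :=
    ∀ B : ℕ, 2 ≤ B → ∀ e : ℕ → ℕ → ℤ, Bas n B e → ∀ i, i ≤ n →
    (∀ t : ℝ, aeval t (fm e n) = 0 → Ac n e t i = 0) ∨
    (∀ t : ℝ, aeval t (fm e n) = 0 → 1 ≤ (B : ℝ) ^ κ * |aeval t (derivative (fm e n)) ^ i * Ac n e t i|)

/-- GMG: few `c` with a small coefficient of `x^j` at an asymptote -/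
def GmgS (n j κ : ℕ) : Prop :=
    ∀ B : ℕ, 2 ≤ B → ∀ e : ℕ → ℕ → ℤ, Bas n B e →
    ∀ (H : ℕ) (h : ℝ), 1 ≤ H → 1 ≤ h → h ≤ H → ∀ T : Finset (Ix j → ℤ),
    (∀ c ∈ T, (∀ p, |c p| ≤ (H : ℤ)) ∧ ∃ t : ℝ, |t| ≤ 2 ∧ aeval t (fm e n) = 0 ∧
      |Ac n (ad e c) t (n - j)| * ((B : ℝ) ^ κ * h ^ (n - 1)) ≤ 1) →
    (T.card : ℝ) ≤ (B : ℝ) ^ κ * (2 * (H : ℝ) + 1) ^ (Fintype.card (Ix j) - 1) / h ^ j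

/-- CHG: the middle range in one chart if `Ac 2 = 0` -/
def ChgS (n j E κ : ℕ) : Prop :=
    ∀ B : ℕ, 2 ≤ B → ∀ e : ℕ → ℕ → ℤ, Bas n B e →
    (∀ t : ℝ, aeval t (fm e n) = 0 → Ac n e t 2 = 0) →
    ∀ H : ℕ, 1 ≤ H → ∀ T : Finset (Ix j → ℤ),
    (∀ c ∈ T, (∀ p, |c p| ≤ (H : ℤ)) ∧ ∃ x y : ℤ, |y| ≤ |x| ∧ (B : ℝ) ^ κ * H ≤ |(x : ℝ)| ∧ |(x : ℝ)| ≤ ((B * H : ℕ) : ℝ) ^ E ∧
      ev n e x y + ev j (co c) x y = 0) →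
    (T.card : ℝ) ≤ (B : ℝ) ^ κ * (2 * (H : ℝ) + 1) ^ (Fintype.card (Ix j) - 1) * (H : ℝ) ^ (-dl n)

/-- the middle range for every `G` with irreducible leading form (`MixS` with `Hy4` for `Hy`) -/
def MixG (n j E κ : ℕ) : Prop :=
    ∀ B : ℕ, 2 ≤ B → ∀ G : MvPolynomial (Fin 2) ℤ,
    Pool.Agent.H12.TU.Hy4 n j G → (∀ m, |G.coeff m| + 1 ≤ (B : ℤ)) → ∀ H : ℕ, 1 ≤ H → ∀ T : Finset (Ix j → ℤ),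
      (∀ c ∈ T, (∀ p, |c p| ≤ (H : ℤ)) ∧ ∃ P : Fin 2 → ℤ, MvPolynomial.eval P (G + pol c) = 0 ∧
        (B : ℝ) ^ κ * H ≤ max |(P 0 : ℝ)| |(P 1 : ℝ)| ∧ max |(P 0 : ℝ)| |(P 1 : ℝ)| ≤ ((B * H : ℕ) : ℝ) ^ E) →
      (T.card : ℝ) ≤ (B : ℝ) ^ κ * (2 * (H : ℝ) + 1) ^ (Fintype.card (Ix j) - 1) * (H : ℝ) ^ (-dl n)

end Pool.Agent.H12.TG
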