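import Pool.Agent.H12.TG.Def
import Pool.Agent.H88.TU.Lio

/-! # [H12 TG DIC] A coefficient at the asymptotes vanishes at all of them or is bounded below

PROOF. `D = φ_n'(t) ≠ 0` (irreducible over `ℚ`, so separable), `D β = -φ_(n-1)(t)`: `D^i Ac n e t i = aeval t P`,
`P = ∑_(a ≤ i) hasseDeriv a (fm e (n+a-i)) * ((-fm e (n-1))^a * (derivative (fm e n))^(i-a)) ∈ ℤ[X]`
(`hs e t k a = aeval t (hasseDeriv a (fm e k))`). `natDegree P ≤ n (n+1)`; the coefficients of `P` are at most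
`(n+1)^2 2^n B ((n+1) n B)^n ≤ B^c`, `c = n + (2 n + 1) (n + 1)`. If `aeval t P = 0` for one real zero `t` of `fm e n`
then for all (`fm e n` over `ℚ` is irreducible, so it divides `P` over `ℚ`), so `Ac = 0` for all; else `LioS` with
`h = B^c`: `1 ≤ B^κ h^(n-1) |aeval t P|`. -/

namespace Pool.Agent.H12.TG

open Finset Polynomial Pool.Agent.H8.AA Pool.Agent.H88.A2 Pool.Agent.H88.TU

/-- `Bas` without the gap condition -/
structure Bw (n B : ℕ) (e : ℕ → ℕ → ℤ) : Prop where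
  bd : ∀ a b, a + b ≤ n → |e a b| + 1 ≤ (B : ℤ)
  irr : Irreducible ((fm e n).map (Int.castRingHom ℚ))
  deg : (fm e n).natDegree = n

/-- `DicS` for `Bw` -/
def DicW (n κ : ℕ) : Prop :=
    ∀ B : ℕ, 2 ≤ B → ∀ e : ℕ → ℕ → ℤ, Bw n B e → ∀ i, i ≤ n →
    (∀ t : ℝ, aeval t (fm e n) = 0 → Ac n e t i = 0) ∨
    (∀ t : ℝ, aeval t (fm e n) = 0 → 1 ≤ (B : ℝ) ^ κ * |aeval t (derivative (fm e n)) ^ i * Ac n e t i|)

private theorem hs_eq (e : ℕ → ℕ → ℤ) (t : ℝ) (k m : ℕ) : hs e t k m = aeval t (hasseDeriv m (fm e k)) := by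
  unfold hs fm
  rw [map_sum, map_sum]
  refine Finset.sum_congr rfl fun l _ => ?_
  rw [hasseDeriv_monomial, aeval_monomial]
  simp only [algebraMap_int_eq, eq_intCast]
  push_cast
  ring

private theorem mul_bd {p q : ℤ[X]} {d : ℕ} {P Q : ℤ} (hd : p.natDegree ≤ d) (hP : ∀ i, |p.coeff i| ≤ P)
    (hQ : ∀ i, |q.coeff i| ≤ Q) (i : ℕ) : |(p * q).coeff i| ≤ (d + 1) * P * Q := by
  have hP0 : 0 ≤ P := (abs_nonneg _).trans (hP 0)
  have hQ0 : 0 ≤ Q := (abs_nonneg _).trans (hQ 0)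
  rw [p.as_sum_range' (d + 1) (by omega), Finset.sum_mul, finsetSum_coeff]
  refine (Finset.abs_sum_le_sum_abs _ _).trans ?_
  have h1 : ∀ a ∈ range (d + 1), |(monomial a (p.coeff a) * q).coeff i| ≤ P * Q := by
    intro a _
    rw [← C_mul_X_pow_eq_monomial, mul_assoc, coeff_C_mul, coeff_X_pow_mul', abs_mul]
    refine mul_le_mul (hP a) ?_ (abs_nonneg _) hP0
    split_ifs
    · exact hQ _
    · simpa using hQ0
  refine (Finset.sum_le_sum h1).trans ?_
  rw [Finset.sum_const, Finset.card_range, nsmul_eq_mul]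
  push_cast
  exact (mul_assoc _ _ _).symm.le

private theorem der_bd {p : ℤ[X]} {d : ℕ} {P : ℤ} (hd : p.natDegree ≤ d) (hP : ∀ i, |p.coeff i| ≤ P) (i : ℕ) :
    |(derivative p).coeff i| ≤ P * d := by
  have hP0 : 0 ≤ P := (abs_nonneg _).trans (hP 0)
  rw [coeff_derivative]
  rcases Nat.lt_or_ge i d with h | h
  · rw [abs_mul]
    refine mul_le_mul (hP _) ?_ (abs_nonneg _) hP0
    rw [abs_of_nonneg (by positivity)]
    exact_mod_cast h
  · rw [coeff_eq_zero_of_natDegree_lt (by omega), zero_mul, abs_zero]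
    positivity

private theorem hasse_bd {p : ℤ[X]} {d : ℕ} {P : ℤ} (hd : p.natDegree ≤ d) (hP : ∀ i, |p.coeff i| ≤ P) (a i : ℕ) :
    |(hasseDeriv a p).coeff i| ≤ 2 ^ d * P := by
  have hP0 : 0 ≤ P := (abs_nonneg _).trans (hP 0)
  rw [hasseDeriv_coeff]
  rcases Nat.lt_or_ge d (i + a) with h | h
  · rw [coeff_eq_zero_of_natDegree_lt (by omega), mul_zero, abs_zero]
    positivity
  · rw [abs_mul]
    refine mul_le_mul ?_ (hP _) (abs_nonneg _) (by positivity)
    rw [Nat.abs_cast]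
    have h1 : (i + a).choose a ≤ 2 ^ d := (Nat.choose_le_two_pow _ _).trans (Nat.pow_le_pow_right (by norm_num) h)
    exact_mod_cast h1

private theorem pow_bd {u w : ℤ[X]} {d : ℕ} {Q W : ℤ} (hd : u.natDegree ≤ d) (hu : ∀ i, |u.coeff i| ≤ Q)
    (hw : ∀ i, |w.coeff i| ≤ W) (a : ℕ) : ∀ i, |(u ^ a * w).coeff i| ≤ ((d + 1) * Q) ^ a * W := by
  induction a with
  | zero =>
    intro i
    simpa using hw i
  | succ a ih =>
    intro i
    rw [pow_succ', mul_assoc]
    refine (mul_bd hd hu ih i).trans (le_of_eq ?_)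
    ring

private theorem fm_bd {n B : ℕ} {e : ℕ → ℕ → ℤ} (he : Bw n B e) (k : ℕ) (hk : k ≤ n) (i : ℕ) :
    |(fm e k).coeff i| ≤ (B : ℤ) := by
  rw [fm_coeff]
  split_ifs with h
  · have := he.bd (k - i) i (by omega)
    omega
  · simp

/-- the integer polynomial -/
private noncomputable def Pi (n : ℕ) (e : ℕ → ℕ → ℤ) (i : ℕ) : ℤ[X] :=
  ∑ a ∈ range (i + 1), hasseDeriv a (fm e (n + a - i)) * ((-fm e (n - 1)) ^ a * (derivative (fm e n)) ^ (i - a))

private theorem Pi_val (n : ℕ) (e : ℕ → ℕ → ℤ) (i : ℕ) (t : ℝ) (hD : aeval t (derivative (fm e n)) ≠ 0) :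
    aeval t (Pi n e i) = aeval t (derivative (fm e n)) ^ i * Ac n e t i := by
  unfold Pi Ac pp
  rw [map_sum, Finset.mul_sum]
  refine Finset.sum_congr rfl fun a ha => ?_
  have ha' : a ≤ i := by
    have := Finset.mem_range.1 ha
    omega
  rw [hs_eq, map_mul, map_mul, map_pow, map_pow, map_neg]
  unfold be
  obtain ⟨b, rfl⟩ : ∃ b, i = a + b := ⟨i - a, by omega⟩
  have e1 : a + b - a = b := by omega
  rw [e1, Nat.choose_zero_right, Nat.sub_zero, pow_add]
  have e2 : (-aeval t (fm e (n - 1))) ^ a =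
      aeval t (derivative (fm e n)) ^ a * (-(aeval t (fm e (n - 1)) / aeval t (derivative (fm e n)))) ^ a := by
    rw [← mul_pow]
    congr 1
    field_simp
  rw [e2]
  push_cast
  ring

private theorem Pi_deg (n : ℕ) (e : ℕ → ℕ → ℤ) (i : ℕ) (hi : i ≤ n) : (Pi n e i).natDegree ≤ n * (n + 1) := by
  unfold Pi
  refine natDegree_sum_le_of_forall_le _ _ fun a ha => ?_
  have ha' : a ≤ i := by
    have := Finset.mem_range.1 ha
    omega
  have h1 : (hasseDeriv a (fm e (n + a - i))).natDegree ≤ n := by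
    refine (natDegree_hasseDeriv_le _ _).trans ?_
    have := fm_deg e (n + a - i)
    omega
  have h2 : ((-fm e (n - 1)) ^ a).natDegree ≤ a * n := by
    refine natDegree_pow_le.trans (Nat.mul_le_mul_left _ ?_)
    rw [natDegree_neg]
    exact (fm_deg _ _).trans (by omega)
  have h3 : ((derivative (fm e n)) ^ (i - a)).natDegree ≤ (i - a) * n := by
    refine natDegree_pow_le.trans (Nat.mul_le_mul_left _ ?_)
    exact (natDegree_derivative_le _).trans ((Nat.sub_le _ _).trans (fm_deg _ _))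
  refine natDegree_mul_le.trans ?_
  have h4 := natDegree_mul_le (p := (-fm e (n - 1)) ^ a) (q := (derivative (fm e n)) ^ (i - a))
  obtain ⟨b, rfl⟩ : ∃ b, i = a + b := ⟨i - a, by omega⟩
  have e1 : a + b - a = b := by omega
  rw [e1] at h3 h4 ⊢
  nlinarith

private theorem Pi_bd {n B : ℕ} (hn : 1 ≤ n) (hB : 2 ≤ B) {e : ℕ → ℕ → ℤ} (he : Bw n B e) (i : ℕ) (hi : i ≤ n) (m : ℕ) :
    |(Pi n e i).coeff m| ≤ (B : ℤ) ^ (n + (2 * n + 1) * (n + 1)) := by
  have hB0 : (0 : ℤ) ≤ (B : ℤ) := by positivity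
  have hB1 : (2 : ℤ) ≤ (B : ℤ) := by exact_mod_cast hB
  have hn1 : (1 : ℤ) ≤ (n : ℤ) := by exact_mod_cast hn
  have hBn : (B : ℤ) ≤ B * n := by nlinarith
  have hterm : ∀ a ∈ range (i + 1), |(hasseDeriv a (fm e (n + a - i)) * ((-fm e (n - 1)) ^ a *
      (derivative (fm e n)) ^ (i - a))).coeff m| ≤ ((n : ℤ) + 1) * (2 ^ n * B) * (((n : ℤ) + 1) * (B * n)) ^ n := by
    intro a ha
    have ha' : a ≤ i := by
      have := Finset.mem_range.1 ha
      omega
    have h1 : ∀ j, |(derivative (fm e n)).coeff j| ≤ (B : ℤ) * n := der_bd (fm_deg _ _) (fm_bd he n le_rfl)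
    have h2 : ∀ j, |(-fm e (n - 1)).coeff j| ≤ (B : ℤ) * n := by
      intro j
      rw [coeff_neg, abs_neg]
      exact (fm_bd he (n - 1) (by omega) j).trans hBn
    have h3 : ∀ j, |((derivative (fm e n)) ^ (i - a) * 1).coeff j| ≤ (((n : ℤ) + 1) * (B * n)) ^ (i - a) * 1 :=
      pow_bd ((natDegree_derivative_le _).trans ((Nat.sub_le _ _).trans (fm_deg _ _))) h1 (by
        intro j
        rw [coeff_one]
        split_ifs <;> simp) (i - a)
    rw [mul_one, mul_one] at h3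
    have h4 := pow_bd (u := -fm e (n - 1)) (d := n) (by rw [natDegree_neg]; exact (fm_deg _ _).trans (by omega)) h2 h3 a
    have h5 : ∀ j, |(hasseDeriv a (fm e (n + a - i))).coeff j| ≤ 2 ^ n * (B : ℤ) :=
      hasse_bd ((fm_deg _ _).trans (by omega)) (fm_bd he _ (by omega)) a
    have h6 := mul_bd (d := n) (by
      refine (natDegree_hasseDeriv_le _ _).trans ?_
      have := fm_deg e (n + a - i)
      omega) h5 h4 m
    refine h6.trans ?_
    refine mul_le_mul_of_nonneg_left ?_ (by positivity)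
    rw [← pow_add]
    exact pow_le_pow_right₀ (by nlinarith) (by omega)
  unfold Pi
  rw [finsetSum_coeff]
  refine (Finset.abs_sum_le_sum_abs _ _).trans ((Finset.sum_le_sum hterm).trans ?_)
  rw [Finset.sum_const, Finset.card_range, nsmul_eq_mul]
  have k1 : ((i + 1 : ℕ) : ℤ) ≤ 2 ^ n := by
    have : n + 1 ≤ 2 ^ n := Nat.lt_two_pow_self (n := n)
    have h : i + 1 ≤ 2 ^ n := by omega
    exact_mod_cast h
  have k2 : ((n : ℤ) + 1) ≤ 2 ^ n := by
    have : n + 1 ≤ 2 ^ n := Nat.lt_two_pow_self (n := n)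
    exact_mod_cast this
  have k3 : (2 : ℤ) ^ n ≤ (B : ℤ) ^ n := pow_le_pow_left₀ (by norm_num) hB1 n
  have k4 : ((n : ℤ) + 1) * (B * n) ≤ (B : ℤ) ^ (2 * n + 1) := by
    have h1 : (n : ℤ) ≤ (B : ℤ) ^ n := by linarith
    have h2 : (n : ℤ) + 1 ≤ (B : ℤ) ^ n := by linarith
    calc ((n : ℤ) + 1) * (B * n) ≤ (B : ℤ) ^ n * (B * (B : ℤ) ^ n) :=
          mul_le_mul h2 (mul_le_mul_of_nonneg_left h1 hB0) (by positivity) (by positivity)
      _ = (B : ℤ) ^ (2 * n + 1) := by ring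
  calc ((i + 1 : ℕ) : ℤ) * (((n : ℤ) + 1) * (2 ^ n * B) * (((n : ℤ) + 1) * (B * n)) ^ n)
      ≤ (B : ℤ) ^ n * ((B : ℤ) ^ n * ((B : ℤ) ^ n * B) * ((B : ℤ) ^ (2 * n + 1)) ^ n) := by
        refine mul_le_mul (k1.trans k3) ?_ (by positivity) (by positivity)
        refine mul_le_mul ?_ (pow_le_pow_left₀ (by positivity) k4 n) (by positivity) (by positivity)
        exact mul_le_mul (k2.trans k3) (mul_le_mul_of_nonneg_right k3 hB0) (by positivity) (by positivity)
    _ = (B : ℤ) ^ (n + (2 * n + 1) * (n + 1)) := by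
        rw [← pow_mul, ← pow_succ, ← pow_add, ← pow_add, ← pow_add]
        congr 1
        ring

private theorem drv_ne {n B : ℕ} {e : ℕ → ℕ → ℤ} (he : Bw n B e) {t : ℝ} (ht : aeval t (fm e n) = 0) :
    aeval t (derivative (fm e n)) ≠ 0 := by
  have h1 := he.irr.separable
  have h2 : aeval t ((fm e n).map (Int.castRingHom ℚ)) = 0 := by
    rw [← ht]
    exact aeval_map_algebraMap ℚ t (fm e n)
  have h3 := h1.aeval_derivative_ne_zero h2
  rw [derivative_map] at h3
  have h4 : aeval t ((derivative (fm e n)).map (Int.castRingHom ℚ)) = aeval t (derivative (fm e n)) :=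
    aeval_map_algebraMap ℚ t _
  rwa [h4] at h3

theorem dicw_ex (n κ : ℕ) (hn : 6 ≤ n) (h : LioS n (n * (n + 1)) κ) : DicW n (κ + (n + (2 * n + 1) * (n + 1)) * (n - 1)) := by
  intro B hB e he i hi
  by_cases hex : ∃ t : ℝ, aeval t (fm e n) = 0 ∧ aeval t (Pi n e i) = 0
  · left
    obtain ⟨s, hs1, hs2⟩ := hex
    intro t ht
    have hdvd : (fm e n).map (Int.castRingHom ℚ) ∣ (Pi n e i).map (Int.castRingHom ℚ) := by
      by_contra hnd
      obtain ⟨u, v, huv⟩ := (he.irr.coprime_iff_not_dvd).2 hnd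
      have h3 := congrArg (aeval s) huv
      have h4 : aeval s ((fm e n).map (Int.castRingHom ℚ)) = aeval s (fm e n) := aeval_map_algebraMap ℚ s _
      have h5 : aeval s ((Pi n e i).map (Int.castRingHom ℚ)) = aeval s (Pi n e i) := aeval_map_algebraMap ℚ s _
      rw [map_add, map_mul, map_mul, h4, h5, hs1, hs2] at h3
      simp at h3
    have hz : aeval t (Pi n e i) = 0 := by
      obtain ⟨c, hc⟩ := hdvd
      have h4 : aeval t ((fm e n).map (Int.castRingHom ℚ)) = aeval t (fm e n) := aeval_map_algebraMap ℚ t _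
      have h5 : aeval t ((Pi n e i).map (Int.castRingHom ℚ)) = aeval t (Pi n e i) := aeval_map_algebraMap ℚ t _
      rw [← h5, hc, map_mul, h4, ht, zero_mul]
    have hD := drv_ne he ht
    rw [Pi_val n e i t hD] at hz
    exact (mul_eq_zero.1 hz).resolve_left (pow_ne_zero _ hD)
  · right
    intro t ht
    have hne : aeval t (Pi n e i) ≠ 0 := fun h0 => hex ⟨t, ht, h0⟩
    have hBR : (1 : ℝ) ≤ (B : ℝ) := by
      have : 1 ≤ B := by omega
      exact_mod_cast this
    have hmain := h B hB (fm e n) he.deg (fm_bd he n le_rfl) he.irr t ht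
      ((B : ℝ) ^ (n + (2 * n + 1) * (n + 1))) (one_le_pow₀ hBR) (Pi n e i) (Pi_deg n e i hi) (fun m => by
        have h1 := Pi_bd (by omega) hB he i hi m
        have h2 : |((Pi n e i).coeff m : ℝ)| = ((|(Pi n e i).coeff m| : ℤ) : ℝ) := by simp
        rw [h2]
        exact_mod_cast h1) hne
    rw [Pi_val n e i t (drv_ne he ht)] at hmain
    refine hmain.trans (le_of_eq ?_)
    rw [← pow_mul, ← pow_add]

theorem dic_ex (n κ : ℕ) (hn : 6 ≤ n) (h : LioS n (n * (n + 1)) κ) : DicS n (κ + (n + (2 * n + 1) * (n + 1)) * (n - 1)) :=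
  fun B hB e he i hi => dicw_ex n κ hn h B hB e ⟨he.bd, he.irr, he.deg⟩ i hi

private theorem ddaeval (e : ℕ → ℕ → ℤ) (k : ℕ) (t : ℝ) :
    aeval t (derivative (derivative (fm e k))) / 2 = aeval t (hasseDeriv 2 (fm e k)) := by
  have h1 : derivative (derivative (fm e k)) = (2 : ℤ) • hasseDeriv 2 (fm e k) := by
    have h2 := hasseDeriv_comp (R := ℤ) 1 1
    have h3 := congrArg (fun L => L (fm e k)) h2
    simp only [LinearMap.comp_apply, LinearMap.smul_apply, hasseDeriv_one] at h3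
    rw [h3]
    norm_num
  rw [h1, map_zsmul]
  simp

theorem gm_Ac (n : ℕ) (hn : 6 ≤ n) (e : ℕ → ℕ → ℤ) (t : ℝ) (hD : aeval t (derivative (fm e n)) ≠ 0) :
    gm n e t = aeval t (derivative (fm e n)) ^ 2 * Ac n e t 2 := by
  rw [← Pi_val n e 2 t hD]
  unfold Pi gm
  rw [Finset.sum_range_succ, Finset.sum_range_succ, Finset.sum_range_succ, Finset.sum_range_zero]
  have e0 : n + 0 - 2 = n - 2 := by omega
  have e1 : n + 1 - 2 = n - 1 := by omega
  have e2 : n + 2 - 2 = n := by omega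
  rw [e0, e1, e2, ddaeval]
  simp only [map_add, map_mul, map_pow, map_neg, hasseDeriv_zero, hasseDeriv_one, zero_add, pow_zero, one_mul,
    pow_one, Nat.sub_self, Nat.sub_zero, LinearMap.id_apply, mul_one]
  ring

end Pool.Agent.H12.TG
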