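import Pool.Agent.H12.TG.Def
import Pool.Agent.H88.TU.Exp

/-! # [H12 TG EXG] The expansion at an asymptote

PROOF. `F(x, t x + b) = ∑_k ∑_l e(k-l,l) x^(k-l) (t x + b)^l = ∑_k ∑_(a ≤ k) hs e t k a b^a x^(k-a)` (binomial theorem), `i = n - k + a` (so `k = n + a - i`, `a ≤ i ≤ n`):
`= ∑_(i ≤ n) ∑_(a ≤ i) hs e t (n+a-i) a b^a x^(n-i)`; `b = β + s`: `b^a = ∑_m C(a,m) s^m β^(a-m)`.
`pp 0 0 = hs n 0 = φ_n(t) = 0` (`Ct.rt`); `pp 1 0 = hs (n-1) 0 + hs n 1 β = φ_(n-1)(t) + φ_n'(t) β = 0`; `pp 1 1 = hs n 1 = φ_n'(t)` (`fm_aeval`, `fm_daeval` of `A2`; see also the private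
lemmas in `H88/TU/Exp.lean`, `H88/TU/Fgm.lean`).
Bounds: `|β| ≤ K ∑_(l<n) K S 2^l ≤ K^(n+2) S`; `|hs e t (n+a-i) a| ≤ ∑_l K S^(i-a) 2^l 2^l ≤ K^(2n+4) S^(i-a)`; `|pp i m| ≤ (n+1) 2^n K^(2n+4) S^(i-a) (K^(n+2) S)^(a-m)`. -/

namespace Pool.Agent.H12.TG

open Finset Polynomial Pool.Agent.H8.AA Pool.Agent.H88.A2 Pool.Agent.H88.TU

private theorem hs_expc (e : ℕ → ℕ → ℤ) (t : ℝ) (k m : ℕ) : hs e t k m = expc e t k m := by
  unfold hs expc
  refine sum_congr rfl fun l _ => ?_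
  ring

private theorem hs_zero (e : ℕ → ℕ → ℤ) (t : ℝ) (k : ℕ) : hs e t k 0 = aeval t (fm e k) := by
  rw [exp_fm]
  unfold hs
  refine sum_congr rfl fun l _ => ?_
  simp

private theorem hs_one (e : ℕ → ℕ → ℤ) (t : ℝ) (k : ℕ) : hs e t k 1 = aeval t (derivative (fm e k)) := by
  rw [exp_fm1]
  unfold hs
  refine sum_congr rfl fun l _ => ?_
  rw [Nat.choose_one_right]
  ring

/-- a geometric sum -/
private theorem geo_le (q : ℝ) (hq : 2 ≤ q) (m : ℕ) : ∑ l ∈ range m, q ^ l ≤ q ^ m := by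
  induction m with
  | zero => simp
  | succ m ih =>
    rw [sum_range_succ, pow_succ]
    have : (0 : ℝ) ≤ q ^ m := by positivity
    nlinarith

private theorem be_le {n : ℕ} (hn : 1 ≤ n) {K S : ℝ} (hK : 2 ≤ K) (hS : 1 ≤ S) {e : ℕ → ℕ → ℤ} {t : ℝ} (h : Ct n K S e t) :
    |be n e t| ≤ K ^ (n + 2) * S := by
  have hK0 : (0 : ℝ) < K := by linarith
  have hS0 : (0 : ℝ) < S := by linarith
  have h1 : |aeval t (fm e (n - 1))| ≤ K ^ (n + 1) * S := by
    rw [exp_fm, show n - 1 + 1 = n by omega]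
    have h2 : ∀ j ∈ range n, |(e (n - 1 - j) j : ℝ) * t ^ j| ≤ K * S * 2 ^ j := by
      intro j hj
      have hj' := mem_range.mp hj
      rw [abs_mul, abs_pow]
      have h3 := h.bs (n - 1 - j) j (by omega)
      rw [show n - (n - 1 - j) - j = 1 by omega, pow_one] at h3
      exact mul_le_mul h3 (pow_le_pow_left₀ (abs_nonneg _) h.t2 _) (by positivity) (by positivity)
    calc |∑ j ∈ range n, (e (n - 1 - j) j : ℝ) * t ^ j| ≤ ∑ j ∈ range n, |(e (n - 1 - j) j : ℝ) * t ^ j| :=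
          abs_sum_le_sum_abs _ _
      _ ≤ ∑ j ∈ range n, K * S * 2 ^ j := sum_le_sum h2
      _ = K * S * ∑ j ∈ range n, (2 : ℝ) ^ j := by rw [mul_sum]
      _ ≤ K * S * 2 ^ n := by gcongr; exact geo_le 2 le_rfl n
      _ ≤ K * S * K ^ n := by gcongr
      _ = K ^ (n + 1) * S := by ring
  have hd : 0 < |aeval t (derivative (fm e n))| := lt_of_lt_of_le (by positivity) h.dr
  unfold be
  rw [abs_neg, abs_div, div_le_iff₀ hd]
  have h4 : 1 ≤ K * |aeval t (derivative (fm e n))| := by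
    have := h.dr
    rw [div_le_iff₀ hK0] at this
    linarith
  calc |aeval t (fm e (n - 1))| ≤ K ^ (n + 1) * S := h1
    _ = K ^ (n + 1) * S * 1 := by ring
    _ ≤ K ^ (n + 1) * S * (K * |aeval t (derivative (fm e n))|) := by gcongr
    _ = K ^ (n + 2) * S * |aeval t (derivative (fm e n))| := by ring

private theorem hs_le {n : ℕ} {K S : ℝ} (hK : 2 ≤ K) (hS : 1 ≤ S) {e : ℕ → ℕ → ℤ} {t : ℝ} (h : Ct n K S e t) {i a : ℕ}
    (ha : a ≤ i) (hi : i ≤ n) : |hs e t (n + a - i) a| ≤ K ^ (2 * n + 4) * S ^ (i - a) := by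
  have hK0 : (0 : ℝ) < K := by linarith
  have hS0 : (0 : ℝ) < S := by linarith
  unfold hs
  have h1 : ∀ l ∈ range (n + a - i + 1), |(e (n + a - i - l) l : ℝ) * (l.choose a : ℝ) * t ^ (l - a)| ≤
      K * S ^ (i - a) * 4 ^ l := by
    intro l hl
    have hl' := mem_range.mp hl
    rw [abs_mul, abs_mul, abs_pow]
    have h2 := h.bs (n + a - i - l) l (by omega)
    rw [show n - (n + a - i - l) - l = i - a by omega] at h2
    have h3 : |((l.choose a : ℕ) : ℝ)| ≤ 2 ^ l := by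
      rw [abs_of_nonneg (Nat.cast_nonneg _)]
      exact_mod_cast Nat.choose_le_two_pow l a
    have h4 : |t| ^ (l - a) ≤ 2 ^ l := by
      calc |t| ^ (l - a) ≤ (2 : ℝ) ^ (l - a) := pow_le_pow_left₀ (abs_nonneg _) h.t2 _
        _ ≤ (2 : ℝ) ^ l := pow_le_pow_right₀ (by norm_num) (by omega)
    calc |(e (n + a - i - l) l : ℝ)| * |((l.choose a : ℕ) : ℝ)| * |t| ^ (l - a)
        ≤ (K * S ^ (i - a)) * 2 ^ l * 2 ^ l := by gcongr
      _ = K * S ^ (i - a) * 4 ^ l := by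
          rw [mul_assoc, ← mul_pow]
          norm_num
  calc |∑ l ∈ range (n + a - i + 1), (e (n + a - i - l) l : ℝ) * (l.choose a : ℝ) * t ^ (l - a)|
      ≤ ∑ l ∈ range (n + a - i + 1), |(e (n + a - i - l) l : ℝ) * (l.choose a : ℝ) * t ^ (l - a)| :=
        abs_sum_le_sum_abs _ _
    _ ≤ ∑ l ∈ range (n + a - i + 1), K * S ^ (i - a) * 4 ^ l := sum_le_sum h1
    _ = K * S ^ (i - a) * ∑ l ∈ range (n + a - i + 1), (4 : ℝ) ^ l := by rw [mul_sum]
    _ ≤ K * S ^ (i - a) * 4 ^ (n + a - i + 1) := by gcongr; exact geo_le 4 (by norm_num) _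
    _ ≤ K * S ^ (i - a) * 4 ^ (n + 1) := by
        have h9 : (4 : ℝ) ^ (n + a - i + 1) ≤ 4 ^ (n + 1) := pow_le_pow_right₀ (by norm_num) (by omega)
        gcongr
    _ = K * S ^ (i - a) * (2 ^ (2 * n + 2)) := by
        rw [show (4 : ℝ) = 2 ^ 2 by norm_num, ← pow_mul, show 2 * (n + 1) = 2 * n + 2 by ring]
    _ ≤ K * S ^ (i - a) * (K ^ (2 * n + 2)) := by gcongr
    _ = K ^ (2 * n + 3) * S ^ (i - a) := by ring
    _ ≤ K ^ (2 * n + 4) * S ^ (i - a) := by
        have h9 : K ^ (2 * n + 3) ≤ K ^ (2 * n + 4) := pow_le_pow_right₀ (by linarith) (by omega)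
        gcongr

private theorem pp_le {n : ℕ} (hn : 1 ≤ n) {K S : ℝ} (hK : 2 ≤ K) (hS : 1 ≤ S) {e : ℕ → ℕ → ℤ} {t : ℝ} (h : Ct n K S e t)
    {i m : ℕ} (hm : m ≤ i) (hi : i ≤ n) : |pp n e t i m| ≤ K ^ (n ^ 2 + 6 * n + 6) * S ^ (i - m) := by
  have hK0 : (0 : ℝ) < K := by linarith
  have hK1 : (1 : ℝ) ≤ K := by linarith
  have hS0 : (0 : ℝ) < S := by linarith
  unfold pp
  have h1 : ∀ a ∈ range (i + 1), |(a.choose m : ℝ) * hs e t (n + a - i) a * be n e t ^ (a - m)| ≤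
      K ^ n * K ^ (2 * n + 4) * K ^ ((n + 2) * n) * S ^ (i - m) := by
    intro a ha
    have ha' := mem_range.mp ha
    by_cases hma : m ≤ a
    · rw [abs_mul, abs_mul, abs_pow]
      have h2 : |((a.choose m : ℕ) : ℝ)| ≤ K ^ n := by
        rw [abs_of_nonneg (Nat.cast_nonneg _)]
        calc ((a.choose m : ℕ) : ℝ) ≤ 2 ^ a := by exact_mod_cast Nat.choose_le_two_pow a m
          _ ≤ 2 ^ n := pow_le_pow_right₀ (by norm_num) (by omega)
          _ ≤ K ^ n := by gcongr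
      have h3 := hs_le hK hS h (show a ≤ i by omega) hi
      have h4 : |be n e t| ^ (a - m) ≤ K ^ ((n + 2) * n) * S ^ (a - m) := by
        calc |be n e t| ^ (a - m) ≤ (K ^ (n + 2) * S) ^ (a - m) :=
              pow_le_pow_left₀ (abs_nonneg _) (be_le hn hK hS h) _
          _ = K ^ ((n + 2) * (a - m)) * S ^ (a - m) := by rw [mul_pow, ← pow_mul]
          _ ≤ K ^ ((n + 2) * n) * S ^ (a - m) := by
              have h9 : K ^ ((n + 2) * (a - m)) ≤ K ^ ((n + 2) * n) :=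
                pow_le_pow_right₀ hK1 (Nat.mul_le_mul_left _ (by omega))
              gcongr
      calc |((a.choose m : ℕ) : ℝ)| * |hs e t (n + a - i) a| * |be n e t| ^ (a - m)
          ≤ K ^ n * (K ^ (2 * n + 4) * S ^ (i - a)) * (K ^ ((n + 2) * n) * S ^ (a - m)) := by gcongr
        _ = K ^ n * K ^ (2 * n + 4) * K ^ ((n + 2) * n) * (S ^ (i - a) * S ^ (a - m)) := by ring
        _ = K ^ n * K ^ (2 * n + 4) * K ^ ((n + 2) * n) * S ^ (i - m) := by
            rw [← pow_add S, show i - a + (a - m) = i - m by omega]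
    · rw [Nat.choose_eq_zero_of_lt (by omega)]
      simp only [Nat.cast_zero, zero_mul, abs_zero]
      positivity
  have h5 : ((i + 1 : ℕ) : ℝ) ≤ K ^ n := by
    have h6 : i + 1 ≤ 2 ^ n := by
      have : n < 2 ^ n := Nat.lt_two_pow_self
      omega
    calc ((i + 1 : ℕ) : ℝ) ≤ ((2 ^ n : ℕ) : ℝ) := Nat.cast_le.mpr h6
      _ = (2 : ℝ) ^ n := by push_cast; rfl
      _ ≤ K ^ n := by gcongr
  calc |∑ a ∈ range (i + 1), (a.choose m : ℝ) * hs e t (n + a - i) a * be n e t ^ (a - m)|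
      ≤ ∑ a ∈ range (i + 1), |(a.choose m : ℝ) * hs e t (n + a - i) a * be n e t ^ (a - m)| :=
        abs_sum_le_sum_abs _ _
    _ ≤ ∑ _a ∈ range (i + 1), K ^ n * K ^ (2 * n + 4) * K ^ ((n + 2) * n) * S ^ (i - m) := sum_le_sum h1
    _ = ((i + 1 : ℕ) : ℝ) * (K ^ n * K ^ (2 * n + 4) * K ^ ((n + 2) * n) * S ^ (i - m)) := by
        rw [sum_const, card_range, nsmul_eq_mul]
    _ ≤ K ^ n * (K ^ n * K ^ (2 * n + 4) * K ^ ((n + 2) * n) * S ^ (i - m)) := by gcongr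
    _ = K ^ (n ^ 2 + 6 * n + 4) * S ^ (i - m) := by ring
    _ ≤ K ^ (n ^ 2 + 6 * n + 6) * S ^ (i - m) := by
        have h9 : K ^ (n ^ 2 + 6 * n + 4) ≤ K ^ (n ^ 2 + 6 * n + 6) := pow_le_pow_right₀ hK1 (by omega)
        gcongr

private theorem layer (n : ℕ) (e : ℕ → ℕ → ℤ) (t s : ℝ) (i : ℕ) :
    ∑ a ∈ range (i + 1), expc e t (n + a - i) a * (be n e t + s) ^ a = ∑ m ∈ range (i + 1), pp n e t i m * s ^ m := by
  have h1 : ∀ m ∈ range (i + 1), pp n e t i m * s ^ m =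
      ∑ a ∈ range (i + 1), (a.choose m : ℝ) * hs e t (n + a - i) a * be n e t ^ (a - m) * s ^ m := by
    intro m _
    unfold pp
    rw [sum_mul]
  rw [sum_congr rfl h1, sum_comm]
  refine sum_congr rfl fun a ha => ?_
  have ha' := mem_range.mp ha
  have h2 : (be n e t + s) ^ a = ∑ m ∈ range (i + 1), be n e t ^ (a - m) * s ^ m * (a.choose m : ℝ) := by
    rw [add_comm (be n e t) s, add_pow]
    have hsub : range (a + 1) ⊆ range (i + 1) := range_subset_range.mpr (by omega)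
    rw [← sum_subset hsub]
    · refine sum_congr rfl fun m _ => ?_
      ring
    · intro m _ hm
      have : a < m := by
        rw [mem_range, not_lt] at hm
        omega
      rw [Nat.choose_eq_zero_of_lt this]
      simp
  rw [h2, mul_sum]
  refine sum_congr rfl fun m _ => ?_
  rw [hs_expc]
  ring

theorem exg (n : ℕ) (hn : 6 ≤ n) : ExgS n (n ^ 2 + 6 * n + 6) := by
  intro K S hK hS e t h
  have hK1 : (1 : ℝ) ≤ K := by linarith
  have hS0 : (0 : ℝ) < S := by linarith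
  have hK0 : (0 : ℝ) < K := by linarith
  refine ⟨fun i m hm hi => pp_le (by omega) hK hS h hm hi, ?_, ?_, ?_, ?_, ?_⟩
  · refine (be_le (by omega) hK hS h).trans ?_
    have h9 : K ^ (n + 2) ≤ K ^ (n ^ 2 + 6 * n + 6) := pow_le_pow_right₀ hK1 (by nlinarith)
    gcongr
  · unfold pp
    simp only [zero_add, sum_range_one, Nat.choose_self, Nat.cast_one, one_mul, Nat.sub_zero, pow_zero, mul_one,
      Nat.add_zero]
    rw [hs_zero]
    exact h.rt
  · unfold pp
    have hd : aeval t (derivative (fm e n)) ≠ 0 := by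
      intro h0
      have h1 := h.dr
      rw [h0, abs_zero] at h1
      have h2 : (0 : ℝ) < 1 / K := by positivity
      linarith
    rw [sum_range_succ, sum_range_one, show n + 0 - 1 = n - 1 by omega, show n + 1 - 1 = n by omega, hs_zero, hs_one]
    unfold be
    simp only [Nat.choose_zero_right, Nat.cast_one, one_mul, Nat.sub_zero, pow_zero, mul_one, pow_one]
    field_simp
    ring
  · unfold pp
    rw [sum_range_succ, sum_range_one, show n + 1 - 1 = n by omega, hs_one]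
    simp
  · intro x s
    unfold evR
    have h1 : ∀ k ∈ range (n + 1), ∑ j ∈ range (k + 1), (e (k - j) j : ℝ) * (x ^ (k - j) * (t * x + be n e t + s) ^ j) =
        ∑ m ∈ range (k + 1), expc e t k m * (be n e t + s) ^ m * x ^ (k - m) := by
      intro k _
      rw [← exp_layer]
      refine sum_congr rfl fun j _ => ?_
      rw [add_assoc]
    rw [sum_congr rfl h1, exp_reindex n (fun k m => expc e t k m) x (be n e t + s)]
    refine sum_congr rfl fun i _ => ?_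
    rw [← sum_mul, ← sum_mul, layer]

end Pool.Agent.H12.TG
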