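import Pool.Agent.H12.TG.Def

/-! # [H12 TG FIG] One fibre over the terms of degree `≥ 2`

PROOF (adapt `H88/TU/Fik.lean`; here `k = 1`, no `h`, no `dgh`). For `c ∈ T` the array `ad e c` has `Bs n (2B) S` (`H ≤ S^(n-1)`: `|e a b + c| ≤ B S^(n-a-b) + H ≤ 2 B S^(n-a-b)` for `a + b ≤ 1`),
`Gd n (1/(2B))`; `nex` (`NexS`) with `2B`, `S`: a zero `t` with `Ct n ((2B)^κ₁) S (ad e c) t`, so `Ct n (B^a) S e t` (`a = 2κ₁ + 3`: `fm`, `be` do not change, `n ≥ 6`), and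
`|y - t x - be n e t| ≤ (2B)^κ₁ S²/|x| ≤ 1` (`S ≤ H`, `|x| ≥ X₁ ≥ B^κ H²`). `|ev n e x y| = |ev 1 (co c) x y| ≤ 3 H |x| ≤ B^a H (X₁ 2^i)` (`|x| ≤ 2 X₁ 2^i`).
Scales `X₁ 2^i ≤ |x| ≤ 2 X₁ 2^i`, `i < ⌊2 log X₂⌋₊ + 1` (`scl`); at most `n` zeros; for each `(t, i)` at most `B^(a κ₃) (1 + (H/|Ac|)^(1/2)) ≤ B^(a κ₃) (1 + (H/g)^(1/2))` points (`C3gS` with `K = B^a`; `r` depends on `t`);
for each point at most `2H + 1` vectors: `c₀₀ + c₁₀ x + c₀₁ y = N`: `c₀₁` determines `c` as `|x| > 2H`. -/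

namespace Pool.Agent.H12.TG

open Finset Polynomial Pool.Agent.H8.AA Pool.Agent.H88.A2 Pool.Agent.H88.TU

private theorem card_bd {α β : Type*} [DecidableEq β] (T : Finset α) (f : α → β) (M N : ℝ) (hM : 0 ≤ M)
    (h1 : ((T.image f).card : ℝ) ≤ N) (h2 : ∀ b ∈ T.image f, ((T.filter (fun a => f a = b)).card : ℝ) ≤ M) :
    (T.card : ℝ) ≤ N * M := by
  rw [Finset.card_eq_sum_card_image f T]
  push_cast
  calc ∑ b ∈ T.image f, ((T.filter (fun a => f a = b)).card : ℝ) ≤ ∑ b ∈ T.image f, M := Finset.sum_le_sum h2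
    _ = (T.image f).card * M := by rw [Finset.sum_const, nsmul_eq_mul]
    _ ≤ N * M := mul_le_mul_of_nonneg_right h1 hM

private theorem co0 {k : ℕ} (c : Ix k → ℤ) {a b : ℕ} (h : k < a + b) : co c a b = 0 := by
  unfold co
  rw [dif_neg (by omega)]

private theorem co_le {k H : ℕ} (c : Ix k → ℤ) (hc : ∀ p, |c p| ≤ (H : ℤ)) (a b : ℕ) : |co c a b| ≤ (H : ℤ) := by
  unfold co
  split_ifs with h
  · exact hc _
  · simp

private theorem fm_ad {k m : ℕ} (e : ℕ → ℕ → ℤ) (c : Ix k → ℤ) (h : k < m) : fm (ad e c) m = fm e m := by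
  unfold fm
  refine Finset.sum_congr rfl fun j hj => ?_
  have := Finset.mem_range.1 hj
  have e1 : ad e c (m - j) j = e (m - j) j := by
    unfold ad
    rw [co0 c (by omega), add_zero]
  rw [e1]

private theorem ev_co {n k : ℕ} (hk : k ≤ n) (c : Ix k → ℤ) (x y : ℤ) : ev n (co c) x y = ev k (co c) x y := by
  unfold ev
  symm
  refine Finset.sum_subset (Finset.range_subset_range.2 (by omega)) fun m _ hm' => ?_
  have h1 : k < m := by
    have := mt Finset.mem_range.2 hm'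
    omega
  refine Finset.sum_eq_zero fun j hj => ?_
  have := Finset.mem_range.1 hj
  rw [co0 c (by omega), zero_mul]

private theorem ev_ad {n k : ℕ} (hk : k ≤ n) (e : ℕ → ℕ → ℤ) (c : Ix k → ℤ) (x y : ℤ) :
    ev n (ad e c) x y = ev n e x y + ev k (co c) x y := by
  rw [← ev_co hk c]
  unfold ev ad
  rw [← Finset.sum_add_distrib]
  refine Finset.sum_congr rfl fun m _ => ?_
  rw [← Finset.sum_add_distrib]
  refine Finset.sum_congr rfl fun j _ => ?_
  ring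

private theorem ev_bd {k H : ℕ} (c : Ix k → ℤ) (hc : ∀ p, |c p| ≤ (H : ℤ)) (x y : ℤ) (hx : 1 ≤ |x|) (hy : |y| ≤ |x|) :
    |ev k (co c) x y| ≤ ((k : ℤ) + 1) * (((k : ℤ) + 1) * (H * |x| ^ k)) := by
  unfold ev
  have hH0 : (0 : ℤ) ≤ H := Int.natCast_nonneg H
  calc |∑ m ∈ range (k + 1), ∑ j ∈ range (m + 1), co c (m - j) j * (x ^ (m - j) * y ^ j)|
      ≤ ∑ m ∈ range (k + 1), |∑ j ∈ range (m + 1), co c (m - j) j * (x ^ (m - j) * y ^ j)| :=
        Finset.abs_sum_le_sum_abs _ _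
    _ ≤ ∑ m ∈ range (k + 1), ((k : ℤ) + 1) * (H * |x| ^ k) := by
        refine Finset.sum_le_sum fun m hm => ?_
        have hm' := Finset.mem_range.1 hm
        calc |∑ j ∈ range (m + 1), co c (m - j) j * (x ^ (m - j) * y ^ j)|
            ≤ ∑ j ∈ range (m + 1), |co c (m - j) j * (x ^ (m - j) * y ^ j)| := Finset.abs_sum_le_sum_abs _ _
          _ ≤ ∑ j ∈ range (m + 1), (H : ℤ) * |x| ^ k := by
              refine Finset.sum_le_sum fun j hj => ?_
              have hj' := Finset.mem_range.1 hj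
              rw [abs_mul, abs_mul, abs_pow, abs_pow]
              refine mul_le_mul (co_le c hc _ _) ?_ (by positivity) hH0
              calc |x| ^ (m - j) * |y| ^ j ≤ |x| ^ (m - j) * |x| ^ j := by gcongr
                _ = |x| ^ m := by
                    rw [← pow_add]
                    congr 1
                    omega
                _ ≤ |x| ^ k := pow_le_pow_right₀ hx (by omega)
          _ = ((m : ℤ) + 1) * (H * |x| ^ k) := by
              rw [Finset.sum_const, Finset.card_range, nsmul_eq_mul]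
              push_cast
              ring
          _ ≤ ((k : ℤ) + 1) * (H * |x| ^ k) := by
              have h1 : (m : ℤ) + 1 ≤ (k : ℤ) + 1 := by omega
              exact mul_le_mul_of_nonneg_right h1 (by positivity)
    _ = _ := by
        rw [Finset.sum_const, Finset.card_range, nsmul_eq_mul]
        push_cast
        ring

/-- scales -/
private theorem scl {X₁ X₂ x : ℝ} (h1 : 1 ≤ X₁) (hx : X₁ ≤ x) (hx2 : x ≤ X₂) :
    ∃ i : ℕ, i < ⌊2 * Real.log X₂⌋₊ + 1 ∧ X₁ * 2 ^ i ≤ x ∧ x ≤ 2 * (X₁ * 2 ^ i) := by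
  have h0 : 0 < X₁ := by linarith
  obtain ⟨i, hi1, hi2⟩ := exists_nat_pow_near (x := x / X₁) (y := 2) (by rwa [one_le_div h0]) (by norm_num)
  rw [le_div_iff₀ h0] at hi1
  rw [div_lt_iff₀ h0] at hi2
  refine ⟨i, ?_, by linarith, ?_⟩
  · rw [Nat.lt_succ_iff]
    refine Nat.le_floor ?_
    have h3 : (2 : ℝ) ^ i ≤ X₂ := by
      have : (2 : ℝ) ^ i * 1 ≤ (2 : ℝ) ^ i * X₁ := mul_le_mul_of_nonneg_left h1 (by positivity)
      linarith
    have h4 := Real.log_le_log (by positivity) h3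
    rw [Real.log_pow] at h4
    have h5 : (1 : ℝ) / 2 ≤ Real.log 2 := by
      have := Real.log_two_gt_d9
      linarith
    have h6 : (i : ℝ) * (1 / 2) ≤ i * Real.log 2 := mul_le_mul_of_nonneg_left h5 (Nat.cast_nonneg i)
    linarith
  · rw [pow_succ] at hi2
    linarith

private theorem bs_ad {n B H : ℕ} (hn : 6 ≤ n) (hB : 2 ≤ B) {S : ℝ} (hS : 1 ≤ S) (hHS : (H : ℝ) ≤ S ^ (n - 1)) {e : ℕ → ℕ → ℤ}
    (he : Fc n B S e) (c : Ix 1 → ℤ) (hc : ∀ p, |c p| ≤ (H : ℤ)) : Bs n ((2 * B : ℕ) : ℝ) S (ad e c) := by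
  intro a b hab
  have hB0 : (0 : ℝ) ≤ B := Nat.cast_nonneg B
  have hB1 : (2 : ℝ) ≤ B := by exact_mod_cast hB
  have h1 := he.bs a b hab
  have hp : (0 : ℝ) ≤ S ^ (n - a - b) := by positivity
  rcases Nat.lt_or_ge 1 (a + b) with h | h
  · have h7 : ad e c a b = e a b := by
      unfold ad
      rw [co0 c (by omega), add_zero]
    rw [h7]
    push_cast
    nlinarith
  · have h2 : |(ad e c a b : ℝ)| ≤ |(e a b : ℝ)| + |(co c a b : ℝ)| := by
      unfold ad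
      push_cast
      exact abs_add_le _ _
    have h3 : |(co c a b : ℝ)| ≤ (H : ℝ) := by exact_mod_cast co_le c hc a b
    have h4 : S ^ (n - 1) ≤ S ^ (n - a - b) := pow_le_pow_right₀ hS (by omega)
    push_cast
    nlinarith

private theorem ev1 (c : Ix 1 → ℤ) (x y : ℤ) : ev 1 (co c) x y = co c 0 0 + co c 1 0 * x + co c 0 1 * y := by
  unfold ev
  simp [Finset.sum_range_succ]
  ring

/-- for given `x, y, N` there are at most `2 H + 1` vectors -/
private theorem pt_card {H : ℕ} (x y N : ℤ) (hx : 2 * (H : ℤ) < |x|) (T : Finset (Ix 1 → ℤ))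
    (hT : ∀ c ∈ T, (∀ p, |c p| ≤ (H : ℤ)) ∧ ev 1 (co c) x y = N) : (T.card : ℝ) ≤ 2 * (H : ℝ) + 1 := by
  have h1 : T.card ≤ (Finset.Icc (-(H : ℤ)) H).card := by
    refine Finset.card_le_card_of_injOn (fun c => co c 0 1) ?_ ?_
    · intro c hc
      have h2 := abs_le.1 (co_le c (hT c hc).1 0 1)
      exact Finset.mem_coe.2 (Finset.mem_Icc.2 h2)
    · intro c hc d hd hcd
      have hcd' : co c 0 1 = co d 0 1 := hcd
      have h2 := (hT c hc).2
      have h3 := (hT d hd).2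
      rw [ev1] at h2 h3
      have h4 : co c 0 0 - co d 0 0 = (co d 1 0 - co c 1 0) * x := by
        rw [hcd'] at h2
        linarith
      have h5 := abs_le.1 (co_le c (hT c hc).1 0 0)
      have h6 := abs_le.1 (co_le d (hT d hd).1 0 0)
      have h7 : co d 1 0 - co c 1 0 = 0 := by
        by_contra h8
        have h9 : 1 ≤ |co d 1 0 - co c 1 0| := Int.one_le_abs h8
        have h10 : |co c 0 0 - co d 0 0| ≤ 2 * (H : ℤ) := by
          rw [abs_le]
          constructor <;> linarith [h5.1, h5.2, h6.1, h6.2]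
        rw [h4, abs_mul] at h10
        nlinarith [abs_nonneg x]
      have h8 : co c 0 0 = co d 0 0 := by
        rw [h7, zero_mul] at h4
        linarith
      have h9 : co c 1 0 = co d 1 0 := by linarith
      funext p
      have ec : c p = co c p.1.1.val p.1.2.val := (co_of_le c p.2).symm
      have ed : d p = co d p.1.1.val p.1.2.val := (co_of_le d p.2).symm
      rw [ec, ed]
      have hp := p.2
      have h10 : (p.1.1.val = 0 ∧ p.1.2.val = 0) ∨ (p.1.1.val = 1 ∧ p.1.2.val = 0) ∨ (p.1.1.val = 0 ∧ p.1.2.val = 1) := by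
        omega
      rcases h10 with ⟨e1, e2⟩ | ⟨e1, e2⟩ | ⟨e1, e2⟩
      · rw [e1, e2, h8]
      · rw [e1, e2, h9]
      · rw [e1, e2, hcd']
  have h2 : ((Finset.Icc (-(H : ℤ)) H).card : ℝ) = 2 * (H : ℝ) + 1 := by
    rw [Int.card_Icc]
    have : ((H : ℤ) + 1 - -(H : ℤ)).toNat = 2 * H + 1 := by omega
    rw [this]
    push_cast
    ring
  calc (T.card : ℝ) ≤ ((Finset.Icc (-(H : ℤ)) H).card : ℝ) := by exact_mod_cast h1
    _ = _ := h2

theorem fig_ex (n κ₁ κ₃ : ℕ) (hn : 6 ≤ n) (h₁ : NexS n κ₁) (h₃ : C3gS n κ₃) :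
    FigS n ((2 * κ₁ + 3) * κ₃ + 2 * κ₁ + n + 8) := by
  classical
  unfold NexS at h₁
  unfold C3gS at h₃
  obtain ⟨a, ha⟩ : ∃ a : ℕ, a = 2 * κ₁ + 3 := ⟨_, rfl⟩
  obtain ⟨κ, hκ⟩ : ∃ κ : ℕ, κ = a * κ₃ + 2 * κ₁ + n + 8 := ⟨_, rfl⟩
  rw [← ha, ← hκ]
  unfold FigS
  intro B H hB hH S hS hSH hHS e he g X₁ X₂ hg hgm hX1 hX2 hX T hT
  have hB2 : (2 : ℝ) ≤ B := by exact_mod_cast hB
  have hB1 : (1 : ℝ) ≤ B := by linarith
  have hB0 : (0 : ℝ) < B := by linarith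
  have hH1 : (1 : ℝ) ≤ H := by exact_mod_cast hH
  have hH0 : (0 : ℝ) < H := by linarith
  have hS0 : (0 : ℝ) < S := by linarith
  have hpow : ∀ {u v : ℕ}, u ≤ v → (B : ℝ) ^ u ≤ (B : ℝ) ^ v := fun huv => pow_le_pow_right₀ hB1 huv
  have h2B : (((2 * B : ℕ) : ℝ)) ^ κ₁ ≤ (B : ℝ) ^ (2 * κ₁) := by
    rw [pow_mul]
    refine pow_le_pow_left₀ (by positivity) ?_ _
    push_cast
    nlinarith
  have hK2 : (2 : ℝ) ≤ (B : ℝ) ^ a := by
    calc (2 : ℝ) ≤ B := hB2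
      _ = (B : ℝ) ^ 1 := (pow_one _).symm
      _ ≤ _ := hpow (by omega)
  have hKB : (B : ℝ) ≤ (B : ℝ) ^ a := by
    calc (B : ℝ) = (B : ℝ) ^ 1 := (pow_one _).symm
      _ ≤ _ := hpow (by omega)
  have hK0 : (0 : ℝ) < (B : ℝ) ^ a := by positivity
  have hX0 : 0 < X₁ := lt_of_lt_of_le (by positivity) hX2
  have hXa : (B : ℝ) ^ (2 * κ₁ + 8) * (H : ℝ) ^ 2 ≤ X₁ :=
    (mul_le_mul_of_nonneg_right (hpow (by omega)) (by positivity)).trans hX2
  have hHH : (H : ℝ) ≤ (H : ℝ) ^ 2 := by nlinarith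
  have hSS : S ^ 2 ≤ (H : ℝ) ^ 2 := by nlinarith
  have hX11 : 1 ≤ X₁ := by
    refine le_trans ?_ hXa
    have e1 : (1 : ℝ) ≤ (B : ℝ) ^ (2 * κ₁ + 8) := one_le_pow₀ hB1
    have e2 : (1 : ℝ) ≤ (H : ℝ) ^ 2 := one_le_pow₀ hH1
    nlinarith
  have hX2H : 2 * (H : ℝ) < X₁ := by
    have e1 : (B : ℝ) ^ 8 ≤ (B : ℝ) ^ (2 * κ₁ + 8) := hpow (by omega)
    have e2 : (2 : ℝ) ^ 8 ≤ (B : ℝ) ^ 8 := pow_le_pow_left₀ (by norm_num) hB2 8
    have e3 : (256 : ℝ) ≤ (B : ℝ) ^ (2 * κ₁ + 8) := by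
      norm_num at e2
      linarith
    have e4 : (256 : ℝ) * (H : ℝ) ^ 2 ≤ X₁ := (mul_le_mul_of_nonneg_right e3 (by positivity)).trans hXa
    nlinarith
  have hlog : 0 ≤ Real.log X₂ := Real.log_nonneg (hX11.trans hX)
  -- data for one vector
  have key : ∀ c ∈ T, ∃ (t : ℝ) (i : ℕ) (P : ℤ × ℤ), i < ⌊2 * Real.log X₂⌋₊ + 1 ∧ Ct n ((B : ℝ) ^ a) S e t ∧
      X₁ * 2 ^ i ≤ |(P.1 : ℝ)| ∧ |(P.1 : ℝ)| ≤ 2 * (X₁ * 2 ^ i) ∧
      |(P.2 : ℝ) - t * P.1 - be n e t| ≤ 1 ∧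
      |(ev n e P.1 P.2 : ℝ)| ≤ (B : ℝ) ^ a * H * (X₁ * 2 ^ i) ∧
      ev 1 (co c) P.1 P.2 = - ev n e P.1 P.2 := by
    intro c hc
    obtain ⟨hcH, x, y, hxy, hx1, hx2, hev⟩ := hT c hc
    have hev' : ev n (ad e c) x y = 0 := by
      rw [ev_ad (by omega)]
      exact hev
    have hgd : Gd n (1 / ((2 * B : ℕ) : ℝ)) (ad e c) := by
      intro s hs
      have e0 : 1 / ((2 * B : ℕ) : ℝ) ≤ 1 / (B : ℝ) := by
        push_cast
        exact one_div_le_one_div_of_le hB0 (by linarith)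
      rw [fm_ad e c (by omega)]
      rcases he.gd s hs with e1 | e1
      · exact Or.inl (lt_of_le_of_lt e0 e1)
      · exact Or.inr (lt_of_le_of_lt e0 e1)
    have hx0 : (((2 * B : ℕ) : ℝ)) ^ κ₁ * S ≤ |(x : ℝ)| := by
      calc (((2 * B : ℕ) : ℝ)) ^ κ₁ * S ≤ (B : ℝ) ^ (2 * κ₁) * S := mul_le_mul_of_nonneg_right h2B hS0.le
        _ ≤ (B : ℝ) ^ (2 * κ₁ + 8) * (H : ℝ) ^ 2 :=
            mul_le_mul (hpow (by omega)) (hSH.trans hHH) hS0.le (by positivity)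
        _ ≤ _ := hXa.trans hx1
    obtain ⟨t, ht1, ht2⟩ := h₁ (2 * B) (by omega) (ad e c) S hS (bs_ad hn hB hS hHS he c hcH) hgd x y hxy hx0 hev'
    have hfn : fm (ad e c) n = fm e n := fm_ad e c (by omega)
    have hfn1 : fm (ad e c) (n - 1) = fm e (n - 1) := fm_ad e c (by omega)
    have hbe : be n (ad e c) t = be n e t := by
      unfold be
      rw [hfn, hfn1]
    rw [hbe] at ht2
    have hKK : (((2 * B : ℕ) : ℝ)) ^ κ₁ ≤ (B : ℝ) ^ a := h2B.trans (hpow (by omega))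
    have hbse : Bs n ((B : ℝ) ^ a) S e := by
      intro u v huv
      exact (he.bs u v huv).trans (mul_le_mul_of_nonneg_right hKB (by positivity))
    have hct : Ct n ((B : ℝ) ^ a) S e t := by
      refine ⟨hbse, ht1.t2, ?_, ?_⟩
      · rw [← hfn]
        exact ht1.rt
      · rw [← hfn]
        refine le_trans ?_ ht1.dr
        exact one_div_le_one_div_of_le (by positivity) hKK
    obtain ⟨i, hi1, hi2, hi3⟩ := scl hX11 hx1 hx2
    have hXi : 0 < X₁ * 2 ^ i := by positivity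
    have hx1' : (1 : ℝ) ≤ |(x : ℝ)| := hX11.trans hx1
    refine ⟨t, i, (x, y), hi1, hct, hi2, hi3, ?_, ?_, by linarith⟩
    · refine ht2.trans ?_
      rw [div_le_one (by linarith)]
      calc (((2 * B : ℕ) : ℝ)) ^ κ₁ * S ^ 2 ≤ (B : ℝ) ^ (2 * κ₁ + 8) * (H : ℝ) ^ 2 :=
            mul_le_mul (h2B.trans (hpow (by omega))) hSS (by positivity) (by positivity)
        _ ≤ _ := hXa.trans hx1
    · have e1 : ev n e x y = - ev 1 (co c) x y := by linarith
      have e2 := ev_bd c hcH x y (by exact_mod_cast hx1') hxy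
      have e3 : |(ev n e x y : ℝ)| ≤ 4 * (H * |(x : ℝ)|) := by
        rw [e1]
        push_cast
        rw [abs_neg]
        have e4 : |(ev 1 (co c) x y : ℝ)| ≤ (((1 : ℕ) : ℝ) + 1) * ((((1 : ℕ) : ℝ) + 1) * (H * |(x : ℝ)| ^ 1)) := by
          exact_mod_cast e2
        norm_num at e4
        linarith
      refine e3.trans ?_
      calc 4 * ((H : ℝ) * |(x : ℝ)|) ≤ 4 * (H * (2 * (X₁ * 2 ^ i))) := by gcongr
        _ = 8 * (H * (X₁ * 2 ^ i)) := by ring
        _ ≤ (B : ℝ) ^ a * (H * (X₁ * 2 ^ i)) := by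
            refine mul_le_mul_of_nonneg_right ?_ (by positivity)
            calc (8 : ℝ) = 2 ^ 3 := by norm_num
              _ ≤ (B : ℝ) ^ 3 := pow_le_pow_left₀ (by norm_num) hB2 3
              _ ≤ _ := hpow (by omega)
        _ = _ := by ring
  choose! tc ic Pc q1 q2 q3 q4 q5 q6 q7 using key
  -- the zeros
  have hf0 : fm e n ≠ 0 := by
    intro h0
    have := he.deg
    rw [h0, natDegree_zero] at this
    omega
  have hR : ((fm e n).aroots ℝ).toFinset.card ≤ n := by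
    refine (Multiset.toFinset_card_le _).trans ?_
    refine (Polynomial.card_roots' _).trans ?_
    refine Polynomial.natDegree_map_le.trans ?_
    rw [he.deg]
  obtain ⟨s, hs⟩ : ∃ s : ℝ, s = Real.sqrt (H / g) := ⟨_, rfl⟩
  have hs0 : 0 ≤ s := by
    rw [hs]
    exact Real.sqrt_nonneg _
  have hN : ((⌊2 * Real.log X₂⌋₊ + 1 : ℕ) : ℝ) ≤ 2 * (1 + Real.log X₂) := by
    push_cast
    have := Nat.floor_le (by linarith : 0 ≤ 2 * Real.log X₂)
    linarith
  -- one scale, one zero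
  have hF : ∀ p ∈ T.image (fun c => (tc c, ic c)), ((T.filter (fun c => (tc c, ic c) = p)).card : ℝ) ≤
      ((B : ℝ) ^ (a * κ₃) * (1 + s)) * (2 * (H : ℝ) + 1) := by
    rintro ⟨t, i⟩ hp
    obtain ⟨c1, hc1, hc1'⟩ := Finset.mem_image.1 hp
    simp only [Prod.mk.injEq] at hc1'
    have ht : Ct n ((B : ℝ) ^ a) S e t := by
      rw [← hc1'.1]
      exact q2 c1 hc1
    obtain ⟨r, hr, hgt⟩ := hgm t ht.t2 ht.rt
    have hXi : X₁ ≤ X₁ * 2 ^ i := by
      have e1 : (1 : ℝ) ≤ 2 ^ i := one_le_pow₀ (by norm_num)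
      nlinarith
    have hpw : ((B : ℝ) ^ a) ^ κ₃ ≤ (B : ℝ) ^ κ := by
      rw [← pow_mul]
      exact hpow (by omega)
    refine card_bd _ Pc _ _ (by positivity) ?_ ?_
    · have e1 := h₃ ((B : ℝ) ^ a) S H hK2 hS hH1 e t r ht hr (X₁ * 2 ^ i) ?_ ?_
        ((T.filter (fun c => (tc c, ic c) = (t, i))).image Pc) ?_
      · refine e1.trans ?_
        rw [← pow_mul]
        refine mul_le_mul_of_nonneg_left ?_ (by positivity)
        have e2 : Real.sqrt (H / |Ac n e t r|) ≤ s := by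
          rw [hs]
          exact Real.sqrt_le_sqrt (div_le_div_of_nonneg_left hH0.le hg hgt)
        linarith
      · calc ((B : ℝ) ^ a) ^ κ₃ * (H : ℝ) ^ 2
            ≤ (B : ℝ) ^ κ * (H : ℝ) ^ 2 := mul_le_mul_of_nonneg_right hpw (by positivity)
          _ ≤ g * X₁ := hX1
          _ ≤ |Ac n e t r| * (X₁ * 2 ^ i) := mul_le_mul hgt hXi hX0.le (abs_nonneg _)
      · calc ((B : ℝ) ^ a) ^ κ₃ * (H : ℝ) ^ 2
            ≤ (B : ℝ) ^ κ * (H : ℝ) ^ 2 := mul_le_mul_of_nonneg_right hpw (by positivity)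
          _ ≤ X₁ := hX2
          _ ≤ _ := hXi
      · intro P hP
        obtain ⟨c, hc, rfl⟩ := Finset.mem_image.1 hP
        obtain ⟨hcT, hc'⟩ := Finset.mem_filter.1 hc
        simp only [Prod.mk.injEq] at hc'
        obtain ⟨rfl, rfl⟩ := hc'
        exact ⟨q3 c hcT, q4 c hcT, q5 c hcT, q6 c hcT⟩
    · intro P hP
      obtain ⟨c2, hc2, rfl⟩ := Finset.mem_image.1 hP
      obtain ⟨hc2T, hc2'⟩ := Finset.mem_filter.1 hc2
      simp only [Prod.mk.injEq] at hc2'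
      obtain ⟨rfl, rfl⟩ := hc2'
      have hxX : X₁ ≤ |((Pc c2).1 : ℝ)| := hXi.trans (q3 c2 hc2T)
      have hxH : 2 * (H : ℤ) < |(Pc c2).1| := by
        have e1 : 2 * (H : ℝ) < |((Pc c2).1 : ℝ)| := lt_of_lt_of_le hX2H hxX
        exact_mod_cast e1
      refine pt_card (Pc c2).1 (Pc c2).2 (- ev n e (Pc c2).1 (Pc c2).2) hxH _ ?_
      intro c hc
      obtain ⟨hc3, hc4⟩ := Finset.mem_filter.1 hc
      obtain ⟨hc5, -⟩ := Finset.mem_filter.1 hc3
      refine ⟨(hT c hc5).1, ?_⟩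
      rw [← hc4]
      exact q7 c hc5
  have hI : ((T.image (fun c => (tc c, ic c))).card : ℝ) ≤ n * (2 * (1 + Real.log X₂)) := by
    have e1 : T.image (fun c => (tc c, ic c)) ⊆
        ((fm e n).aroots ℝ).toFinset ×ˢ range (⌊2 * Real.log X₂⌋₊ + 1) := by
      intro p hp
      obtain ⟨c, hc, rfl⟩ := Finset.mem_image.1 hp
      rw [Finset.mem_product]
      refine ⟨?_, Finset.mem_range.2 (q1 c hc)⟩
      rw [Multiset.mem_toFinset, Polynomial.mem_aroots]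
      exact ⟨hf0, (q2 c hc).rt⟩
    have e2 := Finset.card_le_card e1
    rw [Finset.card_product, Finset.card_range] at e2
    calc ((T.image (fun c => (tc c, ic c))).card : ℝ)
        ≤ ((((fm e n).aroots ℝ).toFinset.card * (⌊2 * Real.log X₂⌋₊ + 1) : ℕ) : ℝ) := by exact_mod_cast e2
      _ = (((fm e n).aroots ℝ).toFinset.card : ℝ) * ((⌊2 * Real.log X₂⌋₊ + 1 : ℕ) : ℝ) := by push_cast; ring
      _ ≤ n * (2 * (1 + Real.log X₂)) := by
          refine mul_le_mul ?_ hN (by positivity) (by positivity)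
          exact_mod_cast hR
  have hfin := card_bd T (fun c => (tc c, ic c)) _ _ (by positivity) hI hF
  refine hfin.trans ?_
  have h4 : (n : ℝ) ≤ (B : ℝ) ^ n := by
    have e1 : (n : ℝ) ≤ (2 : ℝ) ^ n := by exact_mod_cast Nat.lt_two_pow_self.le
    exact e1.trans (pow_le_pow_left₀ (by norm_num) hB2 n)
  have h5 : (2 : ℝ) * n ≤ (B : ℝ) ^ (n + 1) := by
    calc (2 : ℝ) * n ≤ (B : ℝ) * (B : ℝ) ^ n := by gcongr
      _ = _ := by ring
  have hU : 0 ≤ (1 + Real.log X₂) * (1 + s) * (2 * (H : ℝ) + 1) := by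
    have : 0 ≤ 1 + Real.log X₂ := by linarith
    positivity
  calc n * (2 * (1 + Real.log X₂)) * ((B : ℝ) ^ (a * κ₃) * (1 + s) * (2 * (H : ℝ) + 1))
      = ((2 * n) * (B : ℝ) ^ (a * κ₃)) * ((1 + Real.log X₂) * (1 + s) * (2 * (H : ℝ) + 1)) := by ring
    _ ≤ (B : ℝ) ^ κ * ((1 + Real.log X₂) * (1 + s) * (2 * (H : ℝ) + 1)) := by
        refine mul_le_mul_of_nonneg_right ?_ hU
        calc (2 * n : ℝ) * (B : ℝ) ^ (a * κ₃) ≤ (B : ℝ) ^ (n + 1) * (B : ℝ) ^ (a * κ₃) := by gcongr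
          _ = (B : ℝ) ^ (n + 1 + a * κ₃) := by rw [← pow_add]
          _ ≤ _ := hpow (by omega)
    _ = _ := by
        rw [hs]
        ring

end Pool.Agent.H12.TG
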