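import Pool.Agent.H12.TG.Def
import Pool.Agent.H88.TU.Cub

/-! # [H12 TG GMG] Few `c` with a small coefficient of `x^j` at an asymptote

PROOF (adapt `H88/TU/Gam.lean`, `gam_ex`; simpler: no `D²`). `j ≤ n - 3`: `Ac n (ad e c) t (n-j) = Ac n e t (n-j) + ∑_b c_(j-b,b) t^b`: in `pp n _ t (n-j) 0 = ∑_a hs _ t (j + a) a be^a` the term `a = 0` is
`φ_j(t)` and the terms `a ≥ 1`, `be` use degrees `> j` only. `fib` over `J = {p | p.1 + p.2 = j}` (`|J| = j + 1`): in a fibre the vectors `u = (c_(j-b,b))_b` with the same `t` satisfy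
`|∑ u_b t^b - A'| ≤ η := 1/(B^κ h^(n-1))`: `cub n j`: `≤ B^κc (H/h)^j`; at most `n` values of `t`. `Dgh`-type lemma `ad_Ac` is useful elsewhere: keep it public. -/

namespace Pool.Agent.H12.TG

open Finset Polynomial Pool.Agent.H8.AA Pool.Agent.H88.A2 Pool.Agent.H88.TU

/-- the index `(j - b, b)` -/
def jx (j : ℕ) (b : Fin (j + 1)) : Ix j := ix (j - b.val) b.val (by omega)

theorem jx_inj (j : ℕ) : Function.Injective (jx j) := by
  intro a b hab
  have h1 : (jx j a).1.2.val = (jx j b).1.2.val := by rw [hab]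
  exact Fin.ext h1

theorem ad_gt {j : ℕ} (e : ℕ → ℕ → ℤ) (c : Ix j → ℤ) {a b : ℕ} (h : j < a + b) : ad e c a b = e a b := by
  unfold ad co
  rw [dif_neg (by omega), add_zero]

theorem fm_ad {j k : ℕ} (h : j < k) (e : ℕ → ℕ → ℤ) (c : Ix j → ℤ) : fm (ad e c) k = fm e k := by
  ext i
  rw [fm_coeff, fm_coeff]
  split_ifs with hi
  · exact ad_gt e c (by omega)
  · rfl

theorem be_ad {n j : ℕ} (h : j + 2 ≤ n) (e : ℕ → ℕ → ℤ) (c : Ix j → ℤ) (t : ℝ) :
    be n (ad e c) t = be n e t := by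
  unfold be
  rw [fm_ad (by omega) e c, fm_ad (by omega) e c]

theorem hs_ad {j k : ℕ} (h : j < k) (e : ℕ → ℕ → ℤ) (c : Ix j → ℤ) (t : ℝ) (m : ℕ) :
    hs (ad e c) t k m = hs e t k m := by
  unfold hs
  refine Finset.sum_congr rfl fun l hl => ?_
  rw [mem_range] at hl
  rw [ad_gt e c (by omega)]

theorem hs_ad_zero {j : ℕ} (e : ℕ → ℕ → ℤ) (c : Ix j → ℤ) (t : ℝ) :
    hs (ad e c) t j 0 = hs e t j 0 + ∑ b : Fin (j + 1), (c (jx j b) : ℝ) * t ^ (b : ℕ) := by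
  unfold hs
  rw [Finset.sum_range, Finset.sum_range, ← Finset.sum_add_distrib]
  refine Finset.sum_congr rfl fun b _ => ?_
  unfold ad
  rw [co_of_le c (by omega : j - b.val + b.val ≤ j)]
  rw [Nat.choose_zero_right, Nat.sub_zero]
  push_cast
  rw [mul_one, mul_one, add_mul]
  rfl

/-- the coefficient of `x^j` depends on the coefficients of degree `j` of `L` -/
theorem ad_Ac {n j : ℕ} (h : j + 2 ≤ n) (e : ℕ → ℕ → ℤ) (c : Ix j → ℤ) (t : ℝ) :
    Ac n (ad e c) t (n - j) =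
      Ac n e t (n - j) + ∑ b : Fin (j + 1), (c (jx j b) : ℝ) * t ^ (b : ℕ) := by
  unfold Ac pp
  rw [Finset.sum_range_succ', Finset.sum_range_succ', be_ad h e c t]
  have h1 : n + 0 - (n - j) = j := by omega
  rw [h1, hs_ad_zero e c t]
  have h2 : ∑ a ∈ range (n - j), (((a + 1).choose 0 : ℕ) : ℝ) * hs (ad e c) t (n + (a + 1) - (n - j)) (a + 1) *
      be n e t ^ (a + 1 - 0) = ∑ a ∈ range (n - j), (((a + 1).choose 0 : ℕ) : ℝ) *
      hs e t (n + (a + 1) - (n - j)) (a + 1) * be n e t ^ (a + 1 - 0) := by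
    refine Finset.sum_congr rfl fun a _ => ?_
    rw [hs_ad (by omega) e c]
  rw [h2]
  simp only [Nat.choose_zero_right, Nat.cast_one, Nat.sub_zero, pow_zero, one_mul, mul_one]
  ring

private theorem nat_le_pow (m B : ℕ) (hB : 2 ≤ B) : (m : ℝ) ≤ (B : ℝ) ^ m := by
  have h1 : m < 2 ^ m := Nat.lt_two_pow_self
  have h2 : 2 ^ m ≤ B ^ m := Nat.pow_le_pow_left hB m
  exact_mod_cast h1.le.trans h2

private theorem ar1 {g b h : ℝ} {κc n m : ℕ} (hg : 0 ≤ g) (hb : 1 ≤ b) (hh : 0 < h)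
    (hs : g * (b ^ (κc + n) * h ^ m) ≤ 1) : g ≤ 1 / (b ^ κc * h ^ m) := by
  have hbp : 0 < b := zero_lt_one.trans_le hb
  rw [le_div_iff₀ (by positivity)]
  refine le_trans ?_ hs
  refine mul_le_mul_of_nonneg_left ?_ hg
  refine mul_le_mul_of_nonneg_right ?_ (by positivity)
  exact pow_le_pow_right₀ hb (Nat.le_add_right _ _)

theorem gmg_ex (n j κc : ℕ) (hn : 6 ≤ n) (hj : 3 ≤ j) (hjn : j + 3 ≤ n) (hc : CubS n j κc) : GmgS n j (κc + n) := by
  classical
  intro B hB e he H h hH1 hh1 hhH T hT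
  have hB1 : (1 : ℝ) ≤ (B : ℝ) := by exact_mod_cast (by omega : 1 ≤ B)
  have hBp : (0 : ℝ) < (B : ℝ) := zero_lt_one.trans_le hB1
  have hhp : (0 : ℝ) < h := zero_lt_one.trans_le hh1
  have hHp : (0 : ℝ) ≤ (H : ℝ) := Nat.cast_nonneg H
  have hcoef : ∀ i, |(fm e n).coeff i| ≤ (B : ℤ) := by
    intro i
    rw [fm_coeff]
    split_ifs with hi
    · have := he.bd (n - i) i (by omega)
      omega
    · simp
  have hX0 : 0 ≤ (B : ℝ) ^ κc * ((H : ℝ) / h) ^ j := by positivity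
  -- one fibre, one root
  have key : ∀ c : Ix j → ℤ, ∀ t : ℝ, ∀ T' : Finset (Ix j → ℤ),
      (∀ c' ∈ T', (∀ p, |c' p| ≤ (H : ℤ)) ∧ (∀ i, i ∉ univ.image (jx j) → c' i = c i) ∧
        |t| ≤ 2 ∧ aeval t (fm e n) = 0 ∧
        |Ac n (ad e c') t (n - j)| * ((B : ℝ) ^ (κc + n) * h ^ (n - 1)) ≤ 1) →
      (T'.card : ℝ) ≤ (B : ℝ) ^ κc * ((H : ℝ) / h) ^ j := by
    intro c t T' hT'
    rcases T'.eq_empty_or_nonempty with rfl | ⟨c0, hc0⟩
    · rw [Finset.card_empty, Nat.cast_zero]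
      exact hX0
    obtain ⟨_, _, ht2, ht0, _⟩ := hT' c0 hc0
    have hη : ∀ c' ∈ T', |∑ b : Fin (j + 1), (c' (jx j b) : ℝ) * t ^ (b : ℕ) - (-(Ac n e t (n - j)))| ≤
        1 / ((B : ℝ) ^ κc * h ^ (n - 1)) := by
      intro c' hc'
      have h1 : ∑ b : Fin (j + 1), (c' (jx j b) : ℝ) * t ^ (b : ℕ) - (-(Ac n e t (n - j))) =
          Ac n (ad e c') t (n - j) := by
        rw [ad_Ac (by omega) e c' t]
        ring
      obtain ⟨_, _, _, _, hsm⟩ := hT' c' hc'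
      rw [h1]
      exact ar1 (abs_nonneg _) hB1 hhp hsm
    have hinj : Set.InjOn (fun (c' : Ix j → ℤ) (b : Fin (j + 1)) => c' (jx j b)) (T' : Set (Ix j → ℤ)) := by
      intro a ha b hb hab
      obtain ⟨_, ha1, _⟩ := hT' a ha
      obtain ⟨_, hb1, _⟩ := hT' b hb
      funext i
      by_cases hi : i ∈ univ.image (jx j)
      · rw [mem_image] at hi
        obtain ⟨q, _, rfl⟩ := hi
        exact congrFun hab q
      · rw [ha1 i hi, hb1 i hi]
    rw [← Finset.card_image_of_injOn hinj]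
    refine hc B hB (fm e n) he.deg hcoef he.irr t ht0 ht2 H h (1 / ((B : ℝ) ^ κc * h ^ (n - 1)))
      (-(Ac n e t (n - j))) hh1 hhH ?_ _ ?_
    · rw [one_div, inv_mul_cancel₀ (by positivity)]
    · intro u hu
      rw [mem_image] at hu
      obtain ⟨c', hc', rfl⟩ := hu
      refine ⟨fun i => ?_, hη c' hc'⟩
      have := (hT' c' hc').1 (jx j i)
      exact_mod_cast this
  -- the roots
  have hf0 : fm e n ≠ 0 := by
    intro h0
    have h1 := he.deg
    rw [h0, natDegree_zero] at h1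
    omega
  set Z : Finset ℝ := ((fm e n).map (Int.castRingHom ℝ)).roots.toFinset with hZ
  have hZc : Z.card ≤ n := by
    refine (Multiset.toFinset_card_le _).trans ?_
    refine (Polynomial.card_roots' _).trans ?_
    refine Polynomial.natDegree_map_le.trans ?_
    exact he.deg.le
  have hZm : ∀ t : ℝ, aeval t (fm e n) = 0 → t ∈ Z := by
    intro t ht
    rw [hZ, Multiset.mem_toFinset, Polynomial.mem_roots]
    · rw [Polynomial.IsRoot.def, Polynomial.eval_map]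
      rw [Polynomial.aeval_def, algebraMap_int_eq] at ht
      exact ht
    · rw [Ne, Polynomial.map_eq_zero_iff]
      · exact hf0
      · exact Int.cast_injective
  set X : ℝ := (n : ℝ) * ((B : ℝ) ^ κc * ((H : ℝ) / h) ^ j) with hX
  have hXn : 0 ≤ X := by positivity
  have hfib : T.card ≤ ⌊X⌋₊ * (2 * H + 1) ^ (Fintype.card (Ix j) - (univ.image (jx j)).card) := by
    refine fib (univ.image (jx j)) H ⌊X⌋₊ T (fun c hc => (hT c hc).1) ?_
    intro c hcT T' hT'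
    apply Nat.le_floor
    have hsub : T' ⊆ Z.biUnion fun t => T'.filter fun c' => |t| ≤ 2 ∧ aeval t (fm e n) = 0 ∧
        |Ac n (ad e c') t (n - j)| * ((B : ℝ) ^ (κc + n) * h ^ (n - 1)) ≤ 1 := by
      intro c' hc'
      obtain ⟨_, t, ht2, ht0, hg⟩ := hT c' (hT' c' hc').1
      rw [mem_biUnion]
      exact ⟨t, hZm t ht0, mem_filter.2 ⟨hc', ht2, ht0, hg⟩⟩
    have h1 : (T'.card : ℝ) ≤ ∑ t ∈ Z, (((T'.filter fun c' => |t| ≤ 2 ∧ aeval t (fm e n) = 0 ∧
        |Ac n (ad e c') t (n - j)| * ((B : ℝ) ^ (κc + n) * h ^ (n - 1)) ≤ 1).card : ℕ) : ℝ) := by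
      exact_mod_cast (Finset.card_le_card hsub).trans Finset.card_biUnion_le
    refine h1.trans ?_
    refine (Finset.sum_le_card_nsmul Z _ ((B : ℝ) ^ κc * ((H : ℝ) / h) ^ j) ?_).trans ?_
    · intro t _
      apply key c t
      intro c' hc'
      rw [mem_filter] at hc'
      exact ⟨(hT c' (hT' c' hc'.1).1).1, (hT' c' hc'.1).2, hc'.2.1, hc'.2.2.1, hc'.2.2.2⟩
    · rw [nsmul_eq_mul, hX]
      refine mul_le_mul_of_nonneg_right ?_ hX0
      exact_mod_cast hZc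
  have hJ : (univ.image (jx j)).card = j + 1 := by
    rw [Finset.card_image_of_injective _ (jx_inj j), Finset.card_univ, Fintype.card_fin]
  have hJle : j + 1 ≤ Fintype.card (Ix j) := hJ.ge.trans (Finset.card_le_univ _)
  rw [hJ] at hfib
  have h1 : (T.card : ℝ) ≤ X * (2 * (H : ℝ) + 1) ^ (Fintype.card (Ix j) - (j + 1)) := by
    have h2 : (T.card : ℝ) ≤ (⌊X⌋₊ : ℝ) * (2 * (H : ℝ) + 1) ^ (Fintype.card (Ix j) - (j + 1)) := by
      exact_mod_cast hfib
    exact h2.trans (mul_le_mul_of_nonneg_right (Nat.floor_le hXn) (by positivity))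
  refine h1.trans ?_
  rw [le_div_iff₀ (by positivity)]
  have h3 : X * h ^ j = (n : ℝ) * (B : ℝ) ^ κc * (H : ℝ) ^ j := by
    rw [hX, div_pow]
    field_simp
  have h4 : (2 * (H : ℝ) + 1) ^ (Fintype.card (Ix j) - 1) =
      (2 * (H : ℝ) + 1) ^ (Fintype.card (Ix j) - (j + 1)) * (2 * (H : ℝ) + 1) ^ j := by
    rw [← pow_add]
    congr 1
    omega
  have h5' : (H : ℝ) ^ j ≤ (2 * (H : ℝ) + 1) ^ j := pow_le_pow_left₀ hHp (by linarith) _
  have h6 : (n : ℝ) ≤ (B : ℝ) ^ n := nat_le_pow n B hB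
  calc X * (2 * (H : ℝ) + 1) ^ (Fintype.card (Ix j) - (j + 1)) * h ^ j
      = (X * h ^ j) * (2 * (H : ℝ) + 1) ^ (Fintype.card (Ix j) - (j + 1)) := by ring
    _ = ((n : ℝ) * (B : ℝ) ^ κc) * (H : ℝ) ^ j * (2 * (H : ℝ) + 1) ^ (Fintype.card (Ix j) - (j + 1)) := by
        rw [h3]
    _ ≤ ((B : ℝ) ^ n * (B : ℝ) ^ κc) * (2 * (H : ℝ) + 1) ^ j *
        (2 * (H : ℝ) + 1) ^ (Fintype.card (Ix j) - (j + 1)) := by
        refine mul_le_mul_of_nonneg_right ?_ (by positivity)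
        refine mul_le_mul ?_ h5' (by positivity) (by positivity)
        exact mul_le_mul_of_nonneg_right h6 (by positivity)
    _ = (B : ℝ) ^ (κc + n) * (2 * (H : ℝ) + 1) ^ (Fintype.card (Ix j) - 1) := by
        rw [h4, pow_add]
        ring

end Pool.Agent.H12.TG
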