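import Pool.Agent.H12.TG.Mxg
import Pool.Agent.H12.TG.Chg
import Pool.Agent.H12.TG.Fig
import Pool.Agent.H12.TG.Gmg
import Pool.Agent.H12.TG.C3g
import Pool.Agent.H12.TG.Cug
import Pool.Agent.H12.TG.Exg
import Pool.Agent.H88.TU.Exx

/-! # [H12 TG MLO] The middle range for `j ≤ n - 3` with explicit exponent: at most `n^16` in the end (helper12) -/

namespace Pool.Agent.H12.TG

open Pool.Agent.H88.TU

/-- exponent of `Fik`, `k = 2` -/
private def eFik (n : ℕ) : ℕ :=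
  n + 2 + (2 * (10 * n + 11) + 1 + 3 * 2) *
      ((3 * ((n + 3) ^ 2 * n ^ 2 + (3 * n + 1) + ((3 * n + 1) + 2) * n) + 12 + 2 * (3 * n + 1)) +
        (2 * n + 3 * (3 * n + 1) + ((3 * n + 1) + 2) * n + 13) + 4) +
    (2 * (10 * n + 11) + 1 + 3 * 2 + 2 * n + 2) *
      ((2 + 3 * (2 + 1) * (n - 1)) + (2 + (2 * 2 + 1) * (n - 1)) + 3 * 2 + (2 ^ 2 + 7 * 2)) +
    (2 * (10 * n + 11) + 1 + 3 * 2)

private theorem hFik (n : ℕ) (hn : 6 ≤ n) : FikS n 2 (eFik n) := by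
  have h1 := nex_ex n (by omega)
  have h2 := dgh_ex n 2 _ (by omega) (by omega) (cub_ex n 2 _ (by omega) (by omega) (lio_ex n 2 (by omega)))
  have h3 := cu3_ex n 2 _ _ (by omega) (cu1_ex n 2 _ (by omega) (exp_ex n (by omega))) (cu2_ex n 2 _ (by omega) (exp_ex n (by omega)))
  exact fik_ex n 2 _ _ _ (by omega) (by omega) (by omega) h1 h2 h3

/-- exponent of `Rga` -/
private def eRga (n : ℕ) : ℕ :=
  n + 24 + 2 * (10 * n + 11) + 2 * ((2 * (10 * n + 11) + (2 * n + 1) + 1) *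
    ((3 + 3 * (3 + 1) * (n - 1)) + (2 + (2 * 3 + 1) * (n - 1)) + 3 * 3 + (3 ^ 2 + 7 * 3))) + (2 * n + 2)

private theorem hRga (n j : ℕ) (hn : 5 ≤ n) (hj : 3 ≤ j) (hjn : j < n) : RgaS n j (eRga n) := by
  have h1 := nex_ex n (by omega)
  have h2 := dgh_ex n 3 _ (by omega) (by omega) (cub_ex n 3 _ (by omega) (by omega) (lio_ex n 3 (by omega)))
  exact rga_ex n j _ hn hj hjn (fi3_ex n _ _ hn h1 h2)

/-- exponent of `Chr` for `j ≤ n - 3` -/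
private def eChr (n : ℕ) : ℕ := eRga n + 0 + 0 + (2 * n * (1 + eFik n) + 2 * (600 * n ^ 5) + n + 7) + 2

private theorem hChr (n j : ℕ) (hj : 3 ≤ j) (hjn : j + 3 ≤ n) : ChrS n j (600 * n ^ 5) (eChr n) :=
  chr_ex n j (600 * n ^ 5) _ 0 0 _ (by omega) (hRga n j (by omega) hj (by omega)) (fun h => absurd h (by omega))
    (fun h => absurd h (by omega))
    (fun _ => rgb_ex n j (600 * n ^ 5) 1 (eFik n) (by omega) hj (by omega) (fun h => absurd h (by omega)) (fun h => hFik n h))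

/-- exponent of `Fig` -/
private def eFig (n : ℕ) : ℕ :=
  (2 * (10 * n + 11) + 3) * ((n ^ 2 + 6 * n + 6 + 2 * n + 4) +
    (11 * n + 3 * (n ^ 2 + 6 * n + 6) + 2 * (n ^ 2 + 6 * n + 6 + 2 * n + 4) + 14) + 6) + 2 * (10 * n + 11) + n + 8

private theorem hFig (n : ℕ) (hn : 6 ≤ n) : FigS n (eFig n) := by
  have h0 := exg n hn
  have h1 := nar_ex n _ h0
  exact fig_ex n _ _ hn (nex_ex n (by omega)) (c3g_ex n _ _ h1 (cug_ex n _ _ h0 h1))

/-- exponent of `Dic` -/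
private def eDic (n : ℕ) : ℕ :=
  (n * (n + 1) + 3 * (n * (n + 1) + 1) * (n - 1)) + (n + (2 * n + 1) * (n + 1)) * (n - 1)

private theorem hDic (n : ℕ) (hn : 6 ≤ n) : DicW n (eDic n) := dicw_ex n _ hn (lio_ex n (n * (n + 1)) (by omega))

private theorem hDic' (n : ℕ) (hn : 6 ≤ n) : DicS n (eDic n) := dic_ex n _ hn (lio_ex n (n * (n + 1)) (by omega))

/-- exponent of `Gmg` -/
private def eGmg (n j : ℕ) : ℕ := (j + 3 * (j + 1) * (n - 1)) + (2 + (2 * j + 1) * (n - 1)) + 3 * j + n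

private theorem hGmg (n j : ℕ) (hj : 3 ≤ j) (hjn : j + 3 ≤ n) : GmgS n j (eGmg n j) :=
  gmg_ex n j _ (by omega) hj hjn (cub_ex n j _ (by omega) (by omega) (lio_ex n j (by omega)))

/-- exponent of `Chg` -/
private def eChg (n g : ℕ) : ℕ :=
  eRga n + g + (4 * (eFig n + (eDic n + (3 * n + 1) * n + g)) + 2) +
    (eFig n + (2 * (600 * n ^ 5) + n + 5) + ((eDic n + (3 * n + 1) * n + g) + 1)) + 2

private theorem hChg (n j : ℕ) (hj : 3 ≤ j) (hjn : j + 3 ≤ n) : ChgS n j (600 * n ^ 5) (eChg n (eGmg n j)) :=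
  chg_ex n j (600 * n ^ 5) _ _ _ _ hj hjn (hRga n j (by omega) hj (by omega)) (hDic' n (by omega)) (hGmg n j hj hjn)
    (hFig n (by omega))

/-- exponent of `Mix` -/
private def eMlo (n g : ℕ) : ℕ := (10 * n ^ 2 + eDic n + 1) * eChr n + (10 * n ^ 2 + 1) * eChg n g + 1

private theorem hMlo (n j : ℕ) (hj : 3 ≤ j) (hjn : j + 3 ≤ n) : MixG n j (600 * n ^ 5) (eMlo n (eGmg n j)) :=
  mxg_ex n j (600 * n ^ 5) _ _ _ _ hj hjn (gdx_ex n (by omega)) (hDic n (by omega)) (hChr n j hj hjn) (hChg n j hj hjn)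

private theorem eGmg_le (n j : ℕ) (h : j ≤ n) : eGmg n j ≤ eGmg n n := by
  unfold eGmg
  gcongr

private theorem eMlo_le (n g g' : ℕ) (h : g ≤ g') : eMlo n g ≤ eMlo n g' := by
  unfold eMlo eChg
  gcongr

private theorem val (m : ℕ) : eMlo (m + 6) (eGmg (m + 6) (m + 6)) = 44101958692 + 56086590237 * m + 31468846041 * m ^ 2 + 10204382356 * m ^ 3 + 2102719020 * m ^ 4 + 284735940 * m ^ 5 + 25248018 * m ^ 6 + 1407042 * m ^ 7 + 44430 * m ^ 8 + 600 * m ^ 9 := by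
  have e1 : m + 6 - 1 = m + 5 := rfl
  have h1 : eFik (m + 6) = 1423436 + 944617 * m + 251787 * m ^ 2 + 33630 * m ^ 3 + 2247 * m ^ 4 + 60 * m ^ 5 := by
    unfold eFik
    rw [e1]
    ring
  unfold eMlo eChr eChg eFig eDic eGmg eRga
  rw [h1, e1]
  ring

private theorem num (m : ℕ) : 3 * (m + 6) ^ 2 + 8 * (m + 6) + 29 +
    2 * (eMlo (m + 6) (eGmg (m + 6) (m + 6)) * (m + 3) + eMlo (m + 6) (eGmg (m + 6) (m + 6))) ≤ (m + 6) ^ 16 := by
  rw [val]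
  have h3 : (m + 6) ^ 16 = 3 * (m + 6) ^ 2 + 8 * (m + 6) + 29 + 2 * ((44101958692 + 56086590237 * m + 31468846041 * m ^ 2 + 10204382356 * m ^ 3 + 2102719020 * m ^ 4 + 284735940 * m ^ 5 + 25248018 * m ^ 6 + 1407042 * m ^ 7 + 44430 * m ^ 8 + 600 * m ^ 9) * (m + 3) + (44101958692 + 56086590237 * m + 31468846041 * m ^ 2 + 10204382356 * m ^ 3 + 2102719020 * m ^ 4 + 284735940 * m ^ 5 + 25248018 * m ^ 6 + 1407042 * m ^ 7 + 44430 * m ^ 8 + 600 * m ^ 9)) +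
      (2468294237735 + 6986063113892 * m + 9039775742715 * m ^ 2 + 7169415898030 * m ^ 3 + 3924513334648 * m ^ 4 + 1578214215048 * m ^ 5 + 483441681384 * m ^ 6 + 115227089868 * m ^ 7 + 21613488396 * m ^ 8 + 3202374180 * m ^ 9 + 373620048 * m ^ 10 + 33965568 * m ^ 11 + 2358720 * m ^ 12 + 120960 * m ^ 13 + 4320 * m ^ 14 + 96 * m ^ 15 + 1 * m ^ 16) := by ring
  rw [h3]
  exact Nat.le_add_right _ _

theorem mixlo (n j : ℕ) (hj : 3 ≤ j) (hjn : j + 3 ≤ n) : ∃ κ₀ : ℕ, MixG n j (600 * n ^ 5) κ₀ ∧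
    3 * n ^ 2 + 8 * n + 29 + 2 * (κ₀ * j + κ₀) ≤ n ^ 16 := by
  refine ⟨_, hMlo n j hj hjn, ?_⟩
  obtain ⟨m, rfl⟩ : ∃ m, n = m + 6 := ⟨n - 6, by omega⟩
  have h1 := eMlo_le (m + 6) _ _ (eGmg_le (m + 6) j (by omega))
  have h2 : eMlo (m + 6) (eGmg (m + 6) j) * j ≤ eMlo (m + 6) (eGmg (m + 6) (m + 6)) * (m + 3) :=
    Nat.mul_le_mul h1 (by omega)
  have h3 := num m
  omega

end Pool.Agent.H12.TG
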