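import Pool.Agent.H12.TG.Def
import Pool.Agent.H12.TG.Dic
import Pool.Agent.H88.TU.Gdx

/-! # [H12 TG MXG] The middle range for `j ≤ n - 3`, every `G` with irreducible leading form

PROOF (adapt `H88/TU/Mix.lean`, `half` and `mix_ex`). `Bas n B' (ar G)`, `Bas n B' (sw (ar G))` for `B' ≥ B^κ₀` (`GdxS`). In each chart `e`, with `B₁ = B^(κ₀+1)`: `DicS` with `i = 2`: either
`Ac n e t 2 = 0` for all zeros: `ChgS` with `B₁`; or `1 ≤ B₁^κd |D² Ac 2| = B₁^κd |gm n e t|` for all zeros (`gm_Ac`; `D ≠ 0` since the product is not `0`): `ChrS` with `B₂ = B₁^(κd+1)`.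
The exponent may be changed (explicit). -/

namespace Pool.Agent.H12.TG

open Finset Pool.Agent.H8.AA Pool.Agent.H88.A2 Pool.Agent.H88.TU

/-- the estimate of one chart with the base `B ^ s` -/
private theorem app (n j E κx s κ : ℕ) (hs : 1 ≤ s) (hκ : s * κx ≤ κ) (B : ℕ) (hB : 2 ≤ B) (e : ℕ → ℕ → ℤ)
    (hc : ∀ H : ℕ, 1 ≤ H → ∀ T : Finset (Ix j → ℤ),
      (∀ c ∈ T, (∀ p, |c p| ≤ (H : ℤ)) ∧ ∃ x y : ℤ, |y| ≤ |x| ∧ ((B ^ s : ℕ) : ℝ) ^ κx * H ≤ |(x : ℝ)| ∧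
        |(x : ℝ)| ≤ ((B ^ s * H : ℕ) : ℝ) ^ E ∧ ev n e x y + ev j (co c) x y = 0) →
      (T.card : ℝ) ≤ ((B ^ s : ℕ) : ℝ) ^ κx * (2 * (H : ℝ) + 1) ^ (Fintype.card (Ix j) - 1) * (H : ℝ) ^ (-dl n))
    (H : ℕ) (hH : 1 ≤ H) (T : Finset (Ix j → ℤ))
    (hT : ∀ c ∈ T, (∀ p, |c p| ≤ (H : ℤ)) ∧ ∃ x y : ℤ, |y| ≤ |x| ∧ (B : ℝ) ^ κ * H ≤ |(x : ℝ)| ∧
        |(x : ℝ)| ≤ ((B * H : ℕ) : ℝ) ^ E ∧ ev n e x y + ev j (co c) x y = 0) :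
    (T.card : ℝ) ≤ (B : ℝ) ^ κ * (2 * (H : ℝ) + 1) ^ (Fintype.card (Ix j) - 1) * (H : ℝ) ^ (-dl n) := by
  have hB1 : (1 : ℝ) ≤ B := by
    have : (2 : ℝ) ≤ B := by exact_mod_cast hB
    linarith
  have hBB : B ≤ B ^ s := Nat.le_self_pow (by omega) B
  have hle : ((B ^ s : ℕ) : ℝ) ^ κx ≤ (B : ℝ) ^ κ := by
    rw [Nat.cast_pow, ← pow_mul]
    exact pow_le_pow_right₀ hB1 hκ
  have h1 := hc H hH T (by
    intro c hcT
    obtain ⟨hc1, x, y, h2, h3, h4, h5⟩ := hT c hcT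
    refine ⟨hc1, x, y, h2, ?_, ?_, h5⟩
    · exact le_trans (mul_le_mul_of_nonneg_right hle (Nat.cast_nonneg H)) h3
    · refine h4.trans ?_
      refine pow_le_pow_left₀ (Nat.cast_nonneg _) ?_ E
      exact_mod_cast Nat.mul_le_mul_right H hBB)
  have hH0 : (0 : ℝ) < H := by exact_mod_cast hH
  have h2 : (0 : ℝ) ≤ (H : ℝ) ^ (-dl n) := (Real.rpow_pos_of_pos hH0 (-dl n)).le
  refine h1.trans (mul_le_mul_of_nonneg_right (mul_le_mul_of_nonneg_right hle (by positivity)) h2)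

/-- one chart -/
private theorem half (n j E κ₀ κd κc κg κ : ℕ) (hj : 3 ≤ j) (hjn : j + 3 ≤ n) (h1 : DicW n κd) (h2 : ChrS n j E κc)
    (h3 : ChgS n j E κg) (hκ : κ = (κ₀ + κd + 1) * κc + (κ₀ + 1) * κg) (B : ℕ) (hB : 2 ≤ B) (e : ℕ → ℕ → ℤ)
    (he : ∀ B' : ℕ, B ^ κ₀ ≤ B' → Bas n B' e) (hw : Bw n B e) (H : ℕ) (hH : 1 ≤ H) (T : Finset (Ix j → ℤ))
    (hT : ∀ c ∈ T, (∀ p, |c p| ≤ (H : ℤ)) ∧ ∃ x y : ℤ, |y| ≤ |x| ∧ (B : ℝ) ^ κ * H ≤ |(x : ℝ)| ∧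
        |(x : ℝ)| ≤ ((B * H : ℕ) : ℝ) ^ E ∧ ev n e x y + ev j (co c) x y = 0) :
    (T.card : ℝ) ≤ (B : ℝ) ^ κ * (2 * (H : ℝ) + 1) ^ (Fintype.card (Ix j) - 1) * (H : ℝ) ^ (-dl n) := by
  have hB1 : 1 ≤ B := by omega
  have hle1 : B ^ κ₀ ≤ B ^ (κ₀ + 1) := Nat.pow_le_pow_right hB1 (by omega)
  have hs2 : κ₀ + 1 ≤ κ₀ + κd + 1 := by omega
  have hle2 : B ^ κ₀ ≤ B ^ (κ₀ + κd + 1) := Nat.pow_le_pow_right hB1 (by omega)
  have hBB1 : 2 ≤ B ^ (κ₀ + 1) := hB.trans (Nat.le_self_pow (by omega) B)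
  have hBB2 : 2 ≤ B ^ (κ₀ + κd + 1) := hB.trans (Nat.le_self_pow (by omega) B)
  rcases h1 B hB e hw 2 (by omega) with hz | hz
  · exact app n j E κg (κ₀ + 1) κ (by omega) (by omega) B hB e
      (fun H' hH' T' hT' => h3 (B ^ (κ₀ + 1)) hBB1 e (he _ hle1) hz H' hH' T' hT') H hH T hT
  · have hgm : ∀ t : ℝ, Polynomial.aeval t (fm e n) = 0 →
        1 ≤ ((B ^ (κ₀ + κd + 1) : ℕ) : ℝ) * |gm n e t| := by
      intro t ht
      have h4 := hz t ht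
      have hD : Polynomial.aeval t (Polynomial.derivative (fm e n)) ≠ 0 := by
        intro h0
        rw [h0] at h4
        norm_num at h4
      rw [← gm_Ac n (by omega) e t hD] at h4
      refine h4.trans (mul_le_mul_of_nonneg_right ?_ (abs_nonneg _))
      have h5 : B ^ κd ≤ B ^ (κ₀ + κd + 1) := Nat.pow_le_pow_right hB1 (by omega)
      exact_mod_cast h5
    exact app n j E κc (κ₀ + κd + 1) κ (by omega) (by omega) B hB e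
      (fun H' hH' T' hT' => h2 (B ^ (κ₀ + κd + 1)) hBB2 e (he _ hle2) (fun _ => hgm) H' hH' T' hT') H hH T hT

theorem mxg_ex (n j E κ₀ κd κc κg : ℕ) (hj : 3 ≤ j) (hjn : j + 3 ≤ n) (h0 : GdxS n κ₀) (h1 : DicW n κd)
    (h2 : ChrS n j E κc) (h3 : ChgS n j E κg) :
    MixG n j E ((κ₀ + κd + 1) * κc + (κ₀ + 1) * κg + 1) := by
  classical
  obtain ⟨κ, hκ⟩ : ∃ κ : ℕ, κ = (κ₀ + κd + 1) * κc + (κ₀ + 1) * κg := ⟨_, rfl⟩
  rw [← hκ]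
  intro B hB G hG hco H hH T hT
  have hB2 : (2 : ℝ) ≤ B := by exact_mod_cast hB
  have hB1 : (1 : ℝ) ≤ B := by linarith
  have hb := h0 B hB G hG.deg hG.irr hco
  have hlow : (B : ℝ) ^ κ * H ≤ (B : ℝ) ^ (κ + 1) * H :=
    mul_le_mul_of_nonneg_right (pow_le_pow_right₀ hB1 (by omega)) (Nat.cast_nonneg H)
  obtain ⟨Q, hQ⟩ : ∃ Q : (Ix j → ℤ) → Prop, Q = fun c => ∃ x y : ℤ, |y| ≤ |x| ∧
      (B : ℝ) ^ κ * H ≤ |(x : ℝ)| ∧ |(x : ℝ)| ≤ ((B * H : ℕ) : ℝ) ^ E ∧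
      ev n (ar G) x y + ev j (co c) x y = 0 := ⟨_, rfl⟩
  have h1' := half n j E κ₀ κd κc κg κ hj hjn h1 h2 h3 hκ B hB (ar G) (fun B' hB' => (hb B' hB').1)
    ⟨fun a b _ => hco _, (hb _ le_rfl).1.irr, (hb _ le_rfl).1.deg⟩ H hH
    (T.filter Q) (by
    intro c hcT
    rw [Finset.mem_filter, hQ] at hcT
    exact ⟨(hT c hcT.1).1, hcT.2⟩)
  have h2' := half n j E κ₀ κd κc κg κ hj hjn h1 h2 h3 hκ B hB (sw (ar G)) (fun B' hB' => (hb B' hB').2)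
    ⟨fun a b _ => hco _, (hb _ le_rfl).2.irr, (hb _ le_rfl).2.deg⟩ H hH
    ((T.filter fun c => ¬ Q c).image Pool.Agent.H88.TS.sv) (by
    intro c hcT
    obtain ⟨d, hdT, rfl⟩ := Finset.mem_image.1 hcT
    rw [Finset.mem_filter] at hdT
    obtain ⟨hdT, hdQ⟩ := hdT
    obtain ⟨hd1, P, hP, hlo, hhi⟩ := hT d hdT
    have hlo' := hlow.trans hlo
    have hev : ev n (ar G) (P 0) (P 1) + ev j (co d) (P 0) (P 1) = 0 := by
      rw [ar_ev hG.deg, ← Pool.Agent.H8.AA.pol_eval, ← map_add]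
      exact hP
    refine ⟨fun p => hd1 _, P 1, P 0, ?_⟩
    rcases le_total |P 1| |P 0| with h | h
    · exfalso
      apply hdQ
      rw [hQ]
      have hm : max |(P 0 : ℝ)| |(P 1 : ℝ)| = |(P 0 : ℝ)| := max_eq_left (by exact_mod_cast h)
      rw [hm] at hlo' hhi
      exact ⟨P 0, P 1, h, hlo', hhi, hev⟩
    · have hm : max |(P 0 : ℝ)| |(P 1 : ℝ)| = |(P 1 : ℝ)| := max_eq_right (by exact_mod_cast h)
      rw [hm] at hlo' hhi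
      refine ⟨h, hlo', hhi, ?_⟩
      rw [ev_sw, Pool.Agent.H88.TS.sv_ev]
      exact hev)
  have hinj : Function.Injective (Pool.Agent.H88.TS.sv (n := j)) := fun a b hab => by
    rw [← Pool.Agent.H88.TS.sv_sv a, hab, Pool.Agent.H88.TS.sv_sv]
  rw [Finset.card_image_of_injective _ hinj] at h2'
  have hcard : (T.card : ℝ) = (T.filter Q).card + (T.filter fun c => ¬ Q c).card := by
    have h4 := Finset.card_filter_add_card_filter_not (s := T) Q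
    exact_mod_cast h4.symm
  have hH0 : (0 : ℝ) < H := by exact_mod_cast hH
  obtain ⟨W, hW⟩ : ∃ W : ℝ, W = (2 * (H : ℝ) + 1) ^ (Fintype.card (Ix j) - 1) *
      (H : ℝ) ^ (-dl n) := ⟨_, rfl⟩
  have hW0 : 0 ≤ W := by
    rw [hW]
    have := Real.rpow_pos_of_pos hH0 (-dl n)
    positivity
  rw [mul_assoc, ← hW] at h1' h2' ⊢
  have e5 : 0 ≤ (B : ℝ) ^ κ * W := by positivity
  calc (T.card : ℝ) ≤ 2 * ((B : ℝ) ^ κ * W) := by linarith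
    _ ≤ (B : ℝ) * ((B : ℝ) ^ κ * W) := mul_le_mul_of_nonneg_right hB2 e5
    _ = (B : ℝ) ^ (κ + 1) * W := by ring

end Pool.Agent.H12.TG
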