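import Pool.Agent.H12.TG.Def

/-! # [H12 TG NAR] The points are within `O(H X^(1-r))` of the asymptote (helper12) -/

namespace Pool.Agent.H12.TG

open Finset Polynomial Pool.Agent.H8.AA Pool.Agent.H88.A2 Pool.Agent.H88.TU

theorem vr_SH {n r : ℕ} {S H : ℝ} {e : ℕ → ℕ → ℤ} {t : ℝ} (hS : 1 ≤ S) (h : Vr n r S H e t) : S ≤ H :=
  (le_self_pow₀ hS (by have := h.r3; omega)).trans h.pw

theorem n_le_pow {K : ℝ} (hK : 2 ≤ K) (n : ℕ) : ((n : ℝ) + 1) ≤ K ^ n := by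
  have h1 : n + 1 ≤ 2 ^ n := Nat.lt_two_pow_self
  have h2 : ((n : ℝ) + 1) ≤ 2 ^ n := by exact_mod_cast h1
  exact h2.trans (pow_le_pow_left₀ (by norm_num) hK n)

/-- one term with `m = 0` -/
theorem term0 {n r : ℕ} {S H A x : ℝ} (hA : 0 ≤ A) (hS : 1 ≤ S) (hSx : S ≤ x) (hrn : r ≤ n) (hpw : S ^ r ≤ H)
    {i : ℕ} (hi : i ≤ n) {p : ℝ} (hp : |p| ≤ A * S ^ i) (hz : i < r → p = 0) :
    |p * x ^ (n - i)| ≤ A * (H * x ^ (n - r)) := by
  have hx0 : 0 < x := by linarith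
  have hH0 : 0 ≤ H := le_trans (by positivity) hpw
  rcases Nat.lt_or_ge i r with h | h
  · rw [hz h, zero_mul, abs_zero]
    positivity
  · rw [abs_mul, abs_of_pos (pow_pos hx0 _)]
    have e1 : S ^ i = S ^ r * S ^ (i - r) := by rw [← pow_add]; congr 1; omega
    have e2 : x ^ (n - r) = x ^ (i - r) * x ^ (n - i) := by rw [← pow_add]; congr 1; omega
    calc |p| * x ^ (n - i) ≤ A * S ^ i * x ^ (n - i) := mul_le_mul_of_nonneg_right hp (by positivity)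
      _ = A * (S ^ r * (S ^ (i - r) * x ^ (n - i))) := by rw [e1]; ring
      _ ≤ A * (H * (x ^ (i - r) * x ^ (n - i))) := by
          have e3 : S ^ (i - r) ≤ x ^ (i - r) := pow_le_pow_left₀ (by linarith) hSx _
          gcongr
      _ = _ := by rw [e2]

/-- one term with `m ≥ 1`, `i ≥ 2` -/
theorem term1 {n : ℕ} {S A x s : ℝ} (hA : 0 ≤ A) (hS : 1 ≤ S) (hSx : S ≤ x) (hs : |s| ≤ 1)
    {i m : ℕ} (hi2 : 2 ≤ i) (hi : i ≤ n) (hm1 : 1 ≤ m) {p : ℝ} (hp : |p| ≤ A * S ^ (i - m)) :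
    |p * s ^ m * x ^ (n - i)| ≤ A * (|s| * S * x ^ (n - 2)) := by
  have hx0 : 0 < x := by linarith
  have hS0 : 0 < S := by linarith
  rw [abs_mul, abs_mul, abs_pow, abs_of_pos (pow_pos hx0 _)]
  have e1 : S ^ (i - m) ≤ S ^ (i - 1) := pow_le_pow_right₀ hS (by omega)
  have e2 : S ^ (i - 1) = S * S ^ (i - 2) := by rw [← pow_succ']; congr 1; omega
  have e3 : S ^ (i - 2) ≤ x ^ (i - 2) := pow_le_pow_left₀ hS0.le hSx _
  have e4 : x ^ (n - 2) = x ^ (i - 2) * x ^ (n - i) := by rw [← pow_add]; congr 1; omega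
  have e5 : |s| ^ m ≤ |s| := pow_le_of_le_one (abs_nonneg _) hs (by omega)
  calc |p| * |s| ^ m * x ^ (n - i) ≤ (A * (S * x ^ (i - 2))) * |s| * x ^ (n - i) := by
        have e6 : |p| ≤ A * (S * x ^ (i - 2)) := by
          refine hp.trans (mul_le_mul_of_nonneg_left ?_ hA)
          calc S ^ (i - m) ≤ S ^ (i - 1) := e1
            _ = S * S ^ (i - 2) := e2
            _ ≤ _ := mul_le_mul_of_nonneg_left e3 hS0.le
        gcongr
    _ = A * (|s| * S * (x ^ (i - 2) * x ^ (n - i))) := by ring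
    _ = _ := by rw [e4]

/-- the sum over `i ≥ 2` -/
theorem dsum2 {n : ℕ} {a : ℕ → ℕ → ℝ} {c : ℝ} (hc : 0 ≤ c)
    (h : ∀ i m, 2 ≤ i → i ≤ n → m ≤ i → |a i m| ≤ c) :
    |∑ i ∈ Ico 2 (n + 1), ∑ m ∈ range (i + 1), a i m| ≤ ((n : ℝ) + 1) ^ 2 * c := by
  refine (abs_sum_le_sum_abs _ _).trans ?_
  have h1 : ∀ i ∈ Ico 2 (n + 1), |∑ m ∈ range (i + 1), a i m| ≤ ((n : ℝ) + 1) * c := by
    intro i hi
    rw [mem_Ico] at hi
    refine (abs_sum_le_sum_abs _ _).trans ?_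
    refine (sum_le_card_nsmul _ _ c (fun m hm => ?_)).trans ?_
    · rw [mem_range] at hm
      exact h i m hi.1 (by omega) (by omega)
    · rw [card_range, nsmul_eq_mul]
      refine mul_le_mul_of_nonneg_right ?_ hc
      have : i + 1 ≤ n + 1 := by omega
      exact_mod_cast this
  refine (sum_le_card_nsmul _ _ _ h1).trans ?_
  rw [Nat.card_Ico, nsmul_eq_mul]
  have h2 : ((n + 1 - 2 : ℕ) : ℝ) ≤ (n : ℝ) + 1 := by
    have : n + 1 - 2 ≤ n + 1 := by omega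
    exact_mod_cast this
  have h3 : 0 ≤ ((n : ℝ) + 1) * c := by positivity
  calc ((n + 1 - 2 : ℕ) : ℝ) * (((n : ℝ) + 1) * c) ≤ ((n : ℝ) + 1) * (((n : ℝ) + 1) * c) :=
        mul_le_mul_of_nonneg_right h2 h3
    _ = _ := by ring

/-- the terms `i = 0, 1` -/
theorem split2 {n : ℕ} (hn : 2 ≤ n) (a : ℕ → ℕ → ℝ) (h0 : a 0 0 = 0) (h1 : a 1 0 = 0) :
    ∑ i ∈ range (n + 1), ∑ m ∈ range (i + 1), a i m = a 1 1 + ∑ i ∈ Ico 2 (n + 1), ∑ m ∈ range (i + 1), a i m := by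
  rw [range_eq_Ico, ← sum_Ico_consecutive (n := 2) _ (by omega) (by omega), ← range_eq_Ico]
  congr 1
  simp [sum_range_succ, h0, h1]

theorem nar_ex (n κ₀ : ℕ) (h : ExgS n κ₀) : NarS n (κ₀ + 2 * n + 4) := by
  intro K S H hK hS hH e t r hC hV X hX x y hN
  obtain ⟨hq, -, h00, h10, h11, hexp⟩ := h K S hK hS e t hC
  obtain ⟨g1, g2, g3, g4⟩ := hN
  have hK1 : 1 ≤ K := by linarith
  have hK0 : 0 < K := by linarith
  have hSH := vr_SH hS hV
  have hr3 := hV.r3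
  have hrn := hV.rn
  obtain ⟨s, hs⟩ : ∃ s : ℝ, s = y - t * x - be n e t := ⟨_, rfl⟩
  rw [← hs] at g3 ⊢
  have hy : y = t * x + be n e t + s := by rw [hs]; ring
  obtain ⟨A, hA⟩ : ∃ A : ℝ, A = K ^ κ₀ := ⟨_, rfl⟩
  have hA1 : 1 ≤ A := by rw [hA]; exact one_le_pow₀ hK1
  rw [← hA] at hq
  obtain ⟨N, hNd⟩ : ∃ N : ℝ, N = ((n : ℝ) + 1) ^ 2 := ⟨_, rfl⟩
  have hN1 : 1 ≤ N := by
    rw [hNd]
    exact one_le_pow₀ (by have : (0 : ℝ) ≤ n := Nat.cast_nonneg n; linarith)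
  have hNK : N ≤ K ^ (2 * n) := by
    rw [hNd, mul_comm 2 n, pow_mul]
    exact pow_le_pow_left₀ (by positivity) (n_le_pow hK n) 2
  have hpk : K ^ (κ₀ + 2 * n + 4) = A * K ^ (2 * n) * K ^ 4 := by rw [hA, pow_add, pow_add]
  have hbig : 1 ≤ A * K ^ (2 * n) := by
    have : 1 ≤ K ^ (2 * n) := one_le_pow₀ hK1
    nlinarith
  -- X is large
  have hANS : 4 * K * (N * A) * S ≤ x := by
    refine le_trans ?_ g1
    refine le_trans ?_ hX
    rw [hpk]
    have e1 : (4 : ℝ) ≤ K ^ 2 := by nlinarith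
    calc 4 * K * (N * A) * S ≤ K ^ 2 * K * (K ^ (2 * n) * A) * H := by gcongr
      _ = A * K ^ (2 * n) * K ^ 3 * H := by ring
      _ ≤ A * K ^ (2 * n) * K ^ 4 * H := by
          have : K ^ 3 ≤ K ^ 4 := pow_le_pow_right₀ hK1 (by norm_num)
          gcongr
  have hS0 : 0 < S := by linarith
  have hSx : S ≤ x := by
    refine le_trans ?_ hANS
    have : 1 ≤ 4 * K * (N * A) := by nlinarith [mul_nonneg (by linarith : (0:ℝ) ≤ N - 1) (by linarith : (0:ℝ) ≤ A - 1)]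
    nlinarith
  have hx0 : 0 < x := by linarith
  have hx1 : 1 ≤ x := by linarith
  have hX0 : 0 < X := by
    have : 0 < K ^ (κ₀ + 2 * n + 4) * H := by positivity
    linarith
  -- the identity
  have hid := hexp x s
  rw [← hy, split2 (by omega) (fun i m => pp n e t i m * s ^ m * x ^ (n - i)) (by simp [h00]) (by simp [h10])] at hid
  simp only [h11, pow_one] at hid
  obtain ⟨R, hR⟩ : ∃ R : ℝ, R = ∑ i ∈ Ico 2 (n + 1), ∑ m ∈ range (i + 1), pp n e t i m * s ^ m * x ^ (n - i) := ⟨_, rfl⟩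
  rw [← hR] at hid
  have hRb : |R| ≤ N * (A * (H * x ^ (n - r)) + A * (|s| * S * x ^ (n - 2))) := by
    rw [hR, hNd]
    refine dsum2 (by positivity) ?_
    intro i m hi2 hi hm
    rcases Nat.eq_zero_or_pos m with rfl | hm1
    · have e1 := term0 (x := x) (n := n) (r := r) (p := pp n e t i 0) (by linarith : 0 ≤ A) hS hSx (by omega) hV.pw hi
        (by simpa using hq i 0 (by omega) hi) (fun hir => hV.z i hi2 hir)
      rw [pow_zero, mul_one]
      have e2 : 0 ≤ A * (|s| * S * x ^ (n - 2)) := by positivity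
      linarith
    · have e1 := term1 (n := n) (by linarith : 0 ≤ A) hS hSx g3 hi2 hi hm1 (hq i m hm hi)
      have e2 : 0 ≤ A * (H * x ^ (n - r)) := by positivity
      linarith
  -- comparison
  have hD := hC.dr
  obtain ⟨D, hDd⟩ : ∃ D : ℝ, D = aeval t (derivative (fm e n)) := ⟨_, rfl⟩
  rw [← hDd] at hD hid
  have hKD : 1 ≤ K * |D| := by
    have := mul_le_mul_of_nonneg_left hD hK0.le
    rwa [mul_one_div_cancel hK0.ne'] at this
  have e1 : |D| * |s| * x ^ (n - 1) ≤ K * H * X + N * (A * (H * x ^ (n - r)) + A * (|s| * S * x ^ (n - 2))) := by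
    have e2 : D * s * x ^ (n - 1) = evR n e x y - R := by linarith
    have e3 : |D| * |s| * x ^ (n - 1) = |D * s * x ^ (n - 1)| := by
      rw [abs_mul, abs_mul, abs_of_pos (pow_pos hx0 _)]
    rw [e3, e2]
    refine (abs_sub _ _).trans ?_
    linarith
  have e2 : |s| * x ^ (n - 1) ≤ K * (|D| * |s| * x ^ (n - 1)) := by
    have : 0 ≤ |s| * x ^ (n - 1) := by positivity
    nlinarith
  have e3 : x ^ (n - 1) = x * x ^ (n - 2) := by rw [← pow_succ']; congr 1; omega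
  have e4 : K * (N * (A * (|s| * S * x ^ (n - 2)))) ≤ 1 / 4 * (|s| * x ^ (n - 1)) := by
    rw [e3]
    have e5 : 0 ≤ |s| * x ^ (n - 2) := by positivity
    have e6 := mul_le_mul_of_nonneg_right hANS e5
    calc K * (N * (A * (|s| * S * x ^ (n - 2)))) = 1 / 4 * (4 * K * (N * A) * S * (|s| * x ^ (n - 2))) := by ring
      _ ≤ 1 / 4 * (x * (|s| * x ^ (n - 2))) := by linarith
      _ = _ := by ring
  have e5 : X ≤ x ^ (n - r) := by
    calc X ≤ x := g1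
      _ = x ^ 1 := (pow_one x).symm
      _ ≤ _ := pow_le_pow_right₀ hx1 (by omega)
  have e6 : K * (K * H * X) ≤ K ^ 2 * (H * x ^ (n - r)) := by
    calc K * (K * H * X) = K ^ 2 * (H * X) := by ring
      _ ≤ _ := by gcongr
  have e7 : |s| * x ^ (n - 1) ≤ 4 / 3 * ((K ^ 2 + K * (N * A)) * (H * x ^ (n - r))) := by
    have e8 : |s| * x ^ (n - 1) ≤ K * (K * H * X) + K * (N * (A * (H * x ^ (n - r)))) + 1 / 4 * (|s| * x ^ (n - 1)) := by
      have := mul_le_mul_of_nonneg_left e1 hK0.le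
      calc |s| * x ^ (n - 1) ≤ K * (|D| * |s| * x ^ (n - 1)) := e2
        _ ≤ K * (K * H * X + N * (A * (H * x ^ (n - r)) + A * (|s| * S * x ^ (n - 2)))) := this
        _ = K * (K * H * X) + K * (N * (A * (H * x ^ (n - r)))) + K * (N * (A * (|s| * S * x ^ (n - 2)))) := by ring
        _ ≤ _ := by linarith
    have e9 : (K ^ 2 + K * (N * A)) * (H * x ^ (n - r)) = K ^ 2 * (H * x ^ (n - r)) + K * (N * (A * (H * x ^ (n - r)))) := by ring
    rw [e9]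
    linarith
  have e8 : x ^ (n - 1) = x ^ (r - 1) * x ^ (n - r) := by rw [← pow_add]; congr 1; omega
  have hxr : 0 < x ^ (n - r) := pow_pos hx0 _
  have e9 : |s| * x ^ (r - 1) ≤ 4 / 3 * ((K ^ 2 + K * (N * A)) * H) := by
    have e10 : (|s| * x ^ (r - 1)) * x ^ (n - r) ≤ (4 / 3 * ((K ^ 2 + K * (N * A)) * H)) * x ^ (n - r) := by
      calc (|s| * x ^ (r - 1)) * x ^ (n - r) = |s| * x ^ (n - 1) := by rw [e8]; ring
        _ ≤ _ := e7
        _ = _ := by ring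
    exact le_of_mul_le_mul_right e10 hxr
  rw [le_div_iff₀ (pow_pos hX0 _)]
  have e10 : X ^ (r - 1) ≤ x ^ (r - 1) := pow_le_pow_left₀ hX0.le g1 _
  have e11 : |s| * X ^ (r - 1) ≤ |s| * x ^ (r - 1) := mul_le_mul_of_nonneg_left e10 (abs_nonneg _)
  refine e11.trans (e9.trans ?_)
  rw [hpk]
  have e12 : N * A ≤ A * K ^ (2 * n) := by
    rw [mul_comm N A]
    exact mul_le_mul_of_nonneg_left hNK (by linarith)
  have e13 : K ^ 2 + K * (N * A) ≤ A * K ^ (2 * n) * (K ^ 2 + K) := by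
    have f1 : K ^ 2 ≤ A * K ^ (2 * n) * K ^ 2 := le_mul_of_one_le_left (by positivity) hbig
    have f2 : K * (N * A) ≤ K * (A * K ^ (2 * n)) := mul_le_mul_of_nonneg_left e12 hK0.le
    nlinarith
  have e14 : 4 / 3 * (K ^ 2 + K) ≤ K ^ 4 := by nlinarith [mul_nonneg (by linarith : (0:ℝ) ≤ K - 2) (by linarith : (0:ℝ) ≤ K - 2)]
  have hb0 : 0 ≤ A * K ^ (2 * n) := by linarith
  calc 4 / 3 * ((K ^ 2 + K * (N * A)) * H) ≤ 4 / 3 * ((A * K ^ (2 * n) * (K ^ 2 + K)) * H) := by gcongr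
    _ = A * K ^ (2 * n) * (4 / 3 * (K ^ 2 + K)) * H := by ring
    _ ≤ A * K ^ (2 * n) * K ^ 4 * H := by gcongr

end Pool.Agent.H12.TG
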