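import Pool.Agent.H88.TF.Def
import Pool.Agent.H72.ES.NoCol

/-! # [H12 TG NGP] Two points near a branch with contact `r` (helper12; as helper72's `noCol_gap`) -/

namespace Pool.Agent.H12.TG

open Finset Polynomial Pool.Agent.H72.ES Pool.Agent.H88.TF

variable {n Q : ℕ} {f : ℤ[X]} {θ : ℝ}

theorem zb_bd (h1 : CblS) {O : Ord ℝ n Q f θ} {G : ℕ → ℕ → ℤ} (h5 : 5 ≤ n) (hG : Norml n Q f G) (br : Branch O G)
    (r : ℕ) (hr : Rc br r) (X : ℝ) (hX : 1 ≤ X) (x : ℝ) (hx : X ≤ |x|) :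
    |zb br x| ≤ bb n Q ^ (4 * n - 6) / X ^ (r - 1) := by
  obtain ⟨b, hbd⟩ : ∃ b : ℝ, b = bb n Q := ⟨_, rfl⟩
  have hn := hG.hn
  have hQ := hG.hQ
  have hb1 : 1 ≤ b := by rw [hbd]; exact one_le_bb hn hQ
  have hb0 : 0 < b := by linarith
  have hX0 : 0 < X := by linarith
  have hQ1 := one_le_QR hn hQ
  have hnb : (n : ℝ) ≤ b := by
    have h2 := n_add_one_leR hn hQ
    have h3 : (Q : ℝ) ^ 1 ≤ b := by rw [hbd]; exact Qpow_le_bb hn hQ (by nlinarith)
    rw [pow_one] at h3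
    linarith
  rw [← hbd]
  unfold zb
  refine (abs_sum_le_sum_abs _ _).trans ?_
  have hterm : ∀ k ∈ Icc 2 (n - 2), |cb br k / x ^ (k - 1)| ≤ b ^ (4 * n - 8) / X ^ (r - 1) := by
    intro k hk
    rw [mem_Icc] at hk
    rcases Nat.lt_or_ge k r with h | h
    · rw [hr.lo k hk.1 h, zero_div, abs_zero]
      positivity
    · rw [abs_div, abs_pow]
      have e1 : |cb br k| ≤ b ^ (4 * n - 8) := by
        rw [hbd]
        refine (h1 n Q f θ O G hG br k (by omega)).trans (pow_le_pow_right₀ (by rw [← hbd]; exact hb1) (by omega))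
      have e2 : X ^ (r - 1) ≤ |x| ^ (k - 1) :=
        (pow_le_pow_right₀ hX (by omega)).trans (pow_le_pow_left₀ hX0.le hx _)
      exact div_le_div₀ (by positivity) e1 (by positivity) e2
  refine (sum_le_card_nsmul _ _ _ hterm).trans ?_
  rw [nsmul_eq_mul, Nat.card_Icc]
  have h2 : ((n - 2 + 1 - 2 : ℕ) : ℝ) ≤ b := by
    have : ((n - 2 + 1 - 2 : ℕ) : ℝ) ≤ (n : ℝ) := by exact_mod_cast (by omega : n - 2 + 1 - 2 ≤ n)
    linarith
  calc ((n - 2 + 1 - 2 : ℕ) : ℝ) * (b ^ (4 * n - 8) / X ^ (r - 1)) ≤ b * (b ^ (4 * n - 8) / X ^ (r - 1)) := by gcongr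
    _ = b ^ (4 * n - 7) / X ^ (r - 1) := by
        rw [mul_div_assoc', ← pow_succ']
        congr 2
        omega
    _ ≤ b ^ (4 * n - 6) / X ^ (r - 1) := by
        have : b ^ (4 * n - 7) ≤ b ^ (4 * n - 6) := pow_le_pow_right₀ hb1 (by omega)
        gcongr

theorem ngp (h1 : CblS) {O : Ord ℝ n Q f θ} {G : ℕ → ℕ → ℤ} (h5 : 5 ≤ n) (hG : Norml n Q f G) (br : Branch O G)
    (r : ℕ) (hr : Rc br r) (X : ℝ) (hX : bb n Q ^ (60 * n ^ 2) ≤ X) (P P' : ℤ × ℤ) (hne : P.1 ≠ P'.1)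
    (hx : X ≤ |(P.1 : ℝ)|) (hx' : X ≤ |(P'.1 : ℝ)|) (hP : Nb br P) (hP' : Nb br P') :
    X ^ (r - 1) ≤ bb n Q ^ (5 * n + 2) * |(P.1 : ℝ) - P'.1| ^ n := by
  have hn := hG.hn
  have hQ := hG.hQ
  set b := bb n Q with hbdef
  have hb1 : 1 ≤ b := one_le_bb hn hQ
  have hb0 : 0 < b := bb_pos hn hQ
  have hb1000 : 1000 ≤ b := thousand_le_bb hn hQ
  have hQ1 := one_le_QR hn hQ
  have hbX : b ^ (4 * n + 1) ≤ X := (pow_le_pow_right₀ hb1 (by nlinarith)).trans hX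
  have hX1 : 1 ≤ X := (one_le_pow₀ hb1).trans hbX
  have hX0 : 0 < X := by linarith
  obtain ⟨x, y⟩ := P
  obtain ⟨x', y'⟩ := P'
  simp only at hne hx hx' ⊢
  have hr2 := hr.r2
  have hrn := hr.rn
  -- the linear form
  set q : ℝ := ((y : ℝ) - y') - θ * ((x : ℝ) - x') with hq
  obtain ⟨V, hV⟩ : ∃ V : ℝ, V = X ^ (r - 1) := ⟨_, rfl⟩
  have hV0 : 0 < V := by rw [hV]; positivity
  have hXV : X ≤ V := by
    rw [hV]
    exact le_self_pow₀ hX1 (by omega)
  have one : ∀ u w : ℤ, X ≤ |(u : ℝ)| → Nb br (u, w) → |(w : ℝ) - θ * u - cb br 1| ≤ 2 * (b ^ (4 * n) / V) := by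
    intro u w hu hN
    unfold Nb at hN
    simp only at hN
    have e1 := zb_bd h1 h5 hG br r hr X hX1 u hu
    rw [← hbdef, ← hV] at e1
    have e2 : b ^ (4 * n - 6) / V ≤ b ^ (4 * n) / V := by
      have : b ^ (4 * n - 6) ≤ b ^ (4 * n) := pow_le_pow_right₀ hb1 (by omega)
      gcongr
    have e3 : b ^ (4 * n) / |(u : ℝ)| ^ (n - 2) ≤ b ^ (4 * n) / V := by
      have : V ≤ |(u : ℝ)| ^ (n - 2) := by
        rw [hV]
        exact (pow_le_pow_right₀ hX1 (by omega)).trans (pow_le_pow_left₀ hX0.le hu _)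
      gcongr
    have e4 : (w : ℝ) - θ * u - cb br 1 = ((w : ℝ) - (θ * u + cb br 1 + zb br u)) + zb br u := by ring
    rw [e4]
    refine (abs_add_le _ _).trans ?_
    linarith
  have hqX : |q| ≤ b ^ (4 * n + 1) / V := by
    have e1 : q = ((y : ℝ) - θ * x - cb br 1) - ((y' : ℝ) - θ * x' - cb br 1) := by
      rw [hq]; ring
    have h6 : |q| ≤ 4 * (b ^ (4 * n) / V) := by
      rw [e1]
      have t1 := abs_sub ((y : ℝ) - θ * x - cb br 1) ((y' : ℝ) - θ * x' - cb br 1)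
      have t2 := one x y hx hP
      have t3 := one x' y' hx' hP'
      linarith
    refine h6.trans ?_
    rw [← mul_div_assoc]
    refine div_le_div_of_nonneg_right ?_ hV0.le
    calc 4 * b ^ (4 * n) ≤ b * b ^ (4 * n) := mul_le_mul_of_nonneg_right (by linarith) (by positivity)
      _ = b ^ (4 * n + 1) := by ring
  have hq1 : |q| ≤ 1 := by
    refine hqX.trans ?_
    rw [div_le_one hV0]
    exact hbX.trans hXV
  -- the algebraic number
  set D : ℝ := |(x : ℝ) - x'| with hD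
  have hD1 : 1 ≤ D := by
    have h1 : 1 ≤ |x - x'| := Int.one_le_abs (sub_ne_zero.2 hne)
    have h2 : ((|x - x'| : ℤ) : ℝ) = D := by rw [hD]; push_cast; rfl
    rw [← h2]
    exact_mod_cast h1
  set a : O.R := ((y - y' : ℤ) : O.R) - ((x - x' : ℤ) : O.R) * O.α with ha
  have hφa : O.φ a = q := by
    rw [ha, hq]
    simp only [map_sub, map_mul, map_intCast, O.φ_α]
    push_cast
    ring
  have ha0 : a ≠ 0 := by
    intro h0
    have h1 := O.indep (C (y - y') - C (x - x') * Polynomial.X) ?_ ?_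
    · have h2 := congrArg (fun p => Polynomial.coeff p 1) h1
      simp only [coeff_sub, coeff_C_mul, coeff_X_one, coeff_C_succ, coeff_zero] at h2
      apply hne
      linarith
    · refine lt_of_le_of_lt (natDegree_sub_le _ _) ?_
      refine max_lt ?_ ?_
      · rw [natDegree_C]; omega
      · refine lt_of_le_of_lt (natDegree_C_mul_le _ _) ?_
        rw [natDegree_X]; omega
    · rw [← h0, ha]
      simp
  have hθ : |θ| ≤ (Q : ℝ) ^ 2 := by
    have h1 := O.φ_le O.α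
    rw [O.φ_α, Real.norm_eq_abs] at h1
    exact h1.trans (O.ν_α.trans (nQ_le hn hQ))
  have hνa : O.ν a ≤ b * D := by
    have t1 : O.ν a ≤ |((y - y' : ℤ) : ℝ)| + |((x - x' : ℤ) : ℝ)| * (Q : ℝ) ^ 2 := by
      refine (O.subMul.sub _ _).trans (add_le_add (O.ν_int _) ?_)
      refine (O.ν_mul _ _).trans ?_
      exact mul_le_mul (O.ν_int _) (O.ν_α.trans (nQ_le hn hQ)) (O.ν_nonneg _) (abs_nonneg _)
    have t2 : |((x - x' : ℤ) : ℝ)| = D := by rw [hD]; push_cast; rfl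
    have t3 : |((y - y' : ℤ) : ℝ)| ≤ (Q : ℝ) ^ 2 * D + 1 := by
      have e1 : ((y - y' : ℤ) : ℝ) = θ * ((x : ℝ) - x') + q := by
        rw [hq]; push_cast; ring
      rw [e1]
      refine (abs_add_le _ _).trans (add_le_add ?_ hq1)
      rw [abs_mul]
      exact mul_le_mul_of_nonneg_right hθ (abs_nonneg _)
    have t4 : 3 * (Q : ℝ) ^ 2 ≤ b := by
      calc 3 * (Q : ℝ) ^ 2 ≤ Q * (Q : ℝ) ^ 2 :=
            mul_le_mul_of_nonneg_right (by linarith [sixteen_leR hn hQ]) (by positivity)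
        _ = (Q : ℝ) ^ 3 := by ring
        _ ≤ b := Qpow_le_bb hn hQ (by nlinarith)
    have hQ2 : (1 : ℝ) ≤ (Q : ℝ) ^ 2 := one_le_pow₀ hQ1
    rw [t2] at t1
    have t5 : 1 ≤ (Q : ℝ) ^ 2 * D := by nlinarith
    calc O.ν a ≤ ((Q : ℝ) ^ 2 * D + 1) + D * (Q : ℝ) ^ 2 := t1.trans (by linarith)
      _ ≤ (3 * (Q : ℝ) ^ 2) * D := by linarith
      _ ≤ b * D := mul_le_mul_of_nonneg_right t4 (by linarith)
  have hl := O.liouville a ha0
  rw [hφa, Real.norm_eq_abs] at hl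
  have hQ4 : (Q : ℝ) ^ (4 * n) ≤ b := Qpow_le_bb hn hQ (by nlinarith)
  have h1 : 1 ≤ b ^ (4 * n + 1) / V * (b * (b * D) ^ n) := by
    refine hl.trans (mul_le_mul hqX ?_ ?_ (by positivity))
    · exact mul_le_mul hQ4 (pow_le_pow_left₀ (O.ν_nonneg _) hνa n)
        (pow_nonneg (O.ν_nonneg _) _) hb0.le
    · exact mul_nonneg (by positivity) (pow_nonneg (O.ν_nonneg _) _)
  have h2 : b ^ (4 * n + 1) / V * (b * (b * D) ^ n) = b ^ (5 * n + 2) * D ^ n / V := by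
    rw [mul_pow]
    have : b ^ (5 * n + 2) = b ^ (4 * n + 1) * b * b ^ n := by ring
    rw [this]
    ring
  rw [h2, le_div_iff₀ hV0, one_mul, hV] at h1
  exact h1

end Pool.Agent.H12.TG
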